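import Pool.Agent.T9h14.GP.Split2

/-!
# Split tensors with positivity conditions
-/

set_option autoImplicit false

namespace Pool.Agent.T9h14.GP

open Finset MeasureTheory Pool.Agent.TH598.GV Pool.Agent.TH991.J3417 Pool.Agent.R735.HA
open scoped ComplexConjugate ComplexOrder

/-- split tensors with the positivity conditions -/
structure Cls (H : H6) : Prop where
  hs : HS H
  blk : ∀ i j k l : I6, (i.2 = j.2 ↔ k.2 ≠ l.2) → H i j k l = 0
  mix : ∀ z w : I6 → ℂ, (∀ a, z (a, true) = 0) → (∀ a, w (a, false) = 0) →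
    0 ≤ (qf H z w).re
  op : ∀ p : I6 → I6 → ℂ, (∀ i j, i.2 ≠ j.2 → p i j = 0) → 0 ≤ (Sf H p p).re

/-- the mixed block -/
def rhoH (H : H6) : T4 := fun i j k l => H (i, false) (j, true) (k, false) (l, true)

/-- the block of the two sides -/
def EH (H : H6) : Matrix I6 I6 ℂ := fun p q =>
  H (p.1 + 1, p.2) (p.1 + 2, p.2) (q.1 + 1, q.2) (q.1 + 2, q.2)

lemma dec1 (h : I6 → I6 → ℂ) (ha : ∀ i j, h j i = -h i j) (i j : I6) :
    h i j = ∑ p : Fin 3 × Fin 3, h (p.1, false) (p.2, true) * mm p i j +
      ∑ p : I6, h (p.1 + 1, p.2) (p.1 + 2, p.2) * ss p i j := by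
  have hd : ∀ i, h i i = 0 := fun i => by
    have := ha i i
    have h2 : (2 : ℂ) * h i i = 0 := by linear_combination this
    exact (mul_eq_zero.1 h2).resolve_left two_ne_zero
  have s1 : (0 : Fin 3) + 1 = 1 := rfl
  have s2 : (0 : Fin 3) + 2 = 2 := rfl
  have s3 : (1 : Fin 3) + 1 = 2 := rfl
  have s4 : (1 : Fin 3) + 2 = 0 := rfl
  have s5 : (2 : Fin 3) + 1 = 0 := rfl
  have s6 : (2 : Fin 3) + 2 = 1 := rfl
  simp only [Fintype.sum_prod_type, Fin.sum_univ_three, Fintype.sum_bool, mm, ss, U,
    s1, s2, s3, s4, s5, s6]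
  obtain ⟨a, c⟩ := i
  obtain ⟨b, d⟩ := j
  cases c <;> cases d <;> fin_cases a <;> fin_cases b <;> simp [hd, Prod.ext_iff]
  all_goals exact ha _ _

lemma conj_ss (p : I6) (i j : I6) : conj (ss p i j) = ss p i j := by
  unfold ss
  simp only [map_sub, map_mul, conj_U]

lemma Hs_eq (L : Matrix I6 I6 ℂ) (i j k l : I6) : Hs L i j k l =
    ∑ p, ∑ q, (∑ s, L p s * conj (L q s)) * (ss p i j * ss q k l) := by
  unfold Hs fs
  have h : ∀ F : I6 → I6 → I6 → ℂ, ∑ s, ∑ p, ∑ q, F s p q = ∑ p, ∑ q, ∑ s, F s p q := by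
    intro F
    rw [Finset.sum_comm]
    exact Finset.sum_congr rfl fun p _ => Finset.sum_comm
  simp only [map_sum, map_mul, conj_ss, Finset.sum_mul_sum]
  rw [h]
  refine Finset.sum_congr rfl fun p _ => Finset.sum_congr rfl fun q _ => ?_
  rw [Finset.sum_mul]
  refine Finset.sum_congr rfl fun s _ => ?_
  ring

lemma psd_factor {A : Matrix I6 I6 ℂ} (hA : A.PosSemidef) :
    ∃ L : Matrix I6 I6 ℂ, ∀ p q, A p q = ∑ s, L p s * conj (L q s) := by
  have hs := hA.1.spectral_theorem
  rw [Unitary.conjStarAlgAut_apply] at hs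
  refine ⟨fun p s => (hA.1.eigenvectorUnitary : Matrix I6 I6 ℂ) p s *
    ((Real.sqrt (hA.1.eigenvalues s) : ℝ) : ℂ), fun p q => ?_⟩
  have h1 := congrFun (congrFun hs p) q
  rw [h1, Matrix.mul_apply]
  refine Finset.sum_congr rfl fun s _ => ?_
  rw [Matrix.mul_diagonal, Matrix.star_apply, map_mul, Complex.conj_ofReal, ← starRingEnd_apply]
  have h2 : ((Real.sqrt (hA.1.eigenvalues s) : ℝ) : ℂ) * ((Real.sqrt (hA.1.eigenvalues s) : ℝ) : ℂ) =
      ((hA.1.eigenvalues s : ℝ) : ℂ) := by
    rw [← Complex.ofReal_mul, Real.mul_self_sqrt (hA.eigenvalues_nonneg s)]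
  simp only [Function.comp_apply]
  have h3 : (RCLike.ofReal (hA.1.eigenvalues s) : ℂ) = ((hA.1.eigenvalues s : ℝ) : ℂ) := rfl
  rw [h3, ← h2]
  ring

/-- the decomposition -/
lemma Cls.dec {H : H6} (h : Cls H) : ∃ L : Matrix I6 I6 ℂ,
    H = fun i j k l => Hm (rhoH H) i j k l + Hs L i j k l := by
  have hpsd : (EH H).PosSemidef := by
    rw [Matrix.posSemidef_iff_dotProduct_mulVec]
    constructor
    · ext p q
      rw [Matrix.conjTranspose_apply, ← starRingEnd_apply]
      unfold EH
      rw [← h.hs.herm]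
    · intro x
      have h1 := h.op (fun i j => ∑ p : I6, conj (x p) *
        ((if i = (p.1 + 1, p.2) then 1 else 0) * (if j = (p.1 + 2, p.2) then 1 else 0))) (by
        intro i j hij
        refine Finset.sum_eq_zero fun p _ => ?_
        by_cases h1 : i = (p.1 + 1, p.2)
        · by_cases h2 : j = (p.1 + 2, p.2)
          · exact absurd (by rw [h1, h2]) hij
          · rw [if_neg h2]
            ring
        · rw [if_neg h1]
          ring)
      rw [Sf_sum_left H (fun p => conj (x p)) (fun p i j =>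
        ((if i = (p.1 + 1, p.2) then 1 else 0) * (if j = (p.1 + 2, p.2) then 1 else 0)))] at h1
      simp only [Sf_sum_right H (fun p => conj (x p)) _ (fun p i j =>
        ((if i = (p.1 + 1, p.2) then 1 else 0) * (if j = (p.1 + 2, p.2) then 1 else 0)))] at h1
      have h2 : ∀ p q : I6, Sf H (fun i j => ((if i = (p.1 + 1, p.2) then 1 else 0) *
          (if j = (p.1 + 2, p.2) then 1 else 0))) (fun i j =>
          ((if i = (q.1 + 1, q.2) then 1 else 0) * (if j = (q.1 + 2, q.2) then 1 else 0))) =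
          EH H p q := by
        intro p q
        unfold Sf EH
        simp only [map_mul, apply_ite (starRingEnd ℂ), map_one, map_zero]
        rw [Finset.sum_eq_single (p.1 + 1, p.2), Finset.sum_eq_single (p.1 + 2, p.2),
          Finset.sum_eq_single (q.1 + 1, q.2), Finset.sum_eq_single (q.1 + 2, q.2)]
        · simp
        · intro b _ hb
          simp [hb]
        · simp
        · intro b _ hb
          simp [hb]
        · simp
        · intro b _ hb
          simp [hb]
        · simp
        · intro b _ hb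
          simp [hb]
        · simp
      simp only [h2, Complex.conj_conj] at h1
      have h3 : star x ⬝ᵥ (EH H).mulVec x = ∑ p, conj (x p) * ∑ q, x q * EH H p q := by
        unfold dotProduct Matrix.mulVec dotProduct
        refine Finset.sum_congr rfl fun p _ => ?_
        rw [Pi.star_apply, ← starRingEnd_apply]
        congr 1
        exact Finset.sum_congr rfl fun q _ => mul_comm _ _
      rw [h3, Complex.nonneg_iff]
      refine ⟨h1, ?_⟩
      have h4 : conj (∑ p, conj (x p) * ∑ q, x q * EH H p q) =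
          ∑ p, conj (x p) * ∑ q, x q * EH H p q := by
        have h5 : ∀ p q, conj (EH H p q) = EH H q p := fun p q => by
          unfold EH
          rw [← h.hs.herm]
        simp only [map_sum, map_mul, Complex.conj_conj, h5, Finset.mul_sum]
        rw [Finset.sum_comm]
        exact Finset.sum_congr rfl fun p _ => Finset.sum_congr rfl fun q _ => by ring
      rw [Complex.conj_eq_iff_im] at h4
      exact h4.symm
  obtain ⟨L, hL⟩ := psd_factor hpsd
  refine ⟨L, ?_⟩
  funext i j k l
  have ha1 : ∀ k l i j, H j i k l = -H i j k l := fun k l i j => h.hs.alt i j k l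
  have ha2 : ∀ i j k l, H i j l k = -H i j k l := herm_alt h.hs
  rw [dec1 (fun i j => H i j k l) (ha1 k l) i j]
  have e1 : ∀ p : Fin 3 × Fin 3, H (p.1, false) (p.2, true) k l =
      ∑ q : Fin 3 × Fin 3, rhoH H p.1 p.2 q.1 q.2 * mm q k l := by
    intro p
    have h1 := dec1 (fun k l => H (p.1, false) (p.2, true) k l) (ha2 _ _) k l
    have h2 : ∑ q : I6, H (p.1, false) (p.2, true) (q.1 + 1, q.2) (q.1 + 2, q.2) * ss q k l = 0 :=
      Finset.sum_eq_zero fun q _ => by
        rw [h.blk _ _ _ _ (by simp), zero_mul]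
    rw [h2, add_zero] at h1
    exact h1
  have e2 : ∀ p : I6, H (p.1 + 1, p.2) (p.1 + 2, p.2) k l =
      ∑ q : I6, EH H p q * ss q k l := by
    intro p
    have h1 := dec1 (fun k l => H (p.1 + 1, p.2) (p.1 + 2, p.2) k l) (ha2 _ _) k l
    have h2 : ∑ q : Fin 3 × Fin 3, H (p.1 + 1, p.2) (p.1 + 2, p.2) (q.1, false) (q.2, true) *
        mm q k l = 0 :=
      Finset.sum_eq_zero fun q _ => by
        rw [h.blk _ _ _ _ (by simp), zero_mul]
    rw [h2, zero_add] at h1
    exact h1
  simp only [e1, e2]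
  rw [Hs_eq]
  unfold Hm
  congr 1
  · refine Finset.sum_congr rfl fun p _ => ?_
    rw [Finset.sum_mul]
    exact Finset.sum_congr rfl fun q _ => by ring
  · refine Finset.sum_congr rfl fun p _ => ?_
    rw [Finset.sum_mul]
    refine Finset.sum_congr rfl fun q _ => ?_
    rw [hL]
    ring

lemma Cls.BP {H : H6} (h : Cls H) : BP (rhoH H) := by
  constructor
  · intro i j k l
    unfold rhoH
    rw [← h.hs.herm]
  · intro x y
    have h1 := h.mix (fun r => if r.2 then 0 else x r.1) (fun r => if r.2 then y r.1 else 0)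
      (fun a => by simp) (fun a => by simp)
    refine h1.trans (le_of_eq ?_)
    congr 1
    unfold qf qq rhoH
    simp only [Fintype.sum_prod_type, Fintype.sum_bool]
    simp only [if_true, Bool.false_eq_true, if_false, zero_mul, mul_zero, map_zero,
      Finset.sum_const_zero, add_zero, zero_add]
    refine Finset.sum_congr rfl fun i _ => Finset.sum_congr rfl fun j _ =>
      Finset.sum_congr rfl fun k _ => Finset.sum_congr rfl fun l _ => ?_
    ring

/-- **Nonnegativity for the class.** -/
theorem Cls.nonneg {H : H6} (h : Cls H) : 0 ≤ (GG H).re := by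
  obtain ⟨L, hL⟩ := h.dec
  rw [hL]
  exact split_nonneg h.BP L

end Pool.Agent.T9h14.GP
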