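import Mathlib

/-!
# Sums over triples, the alternating symbol in three dimensions
-/

set_option autoImplicit false

namespace Pool.Agent.T9h14.GP

open Finset
open scoped ComplexConjugate

/-- triples as functions -/
def tri (X : Type) : X × X × X ≃ (Fin 3 → X) where
  toFun p := ![p.1, p.2.1, p.2.2]
  invFun f := (f 0, f 1, f 2)
  left_inv p := rfl
  right_inv f := by
    ext i
    fin_cases i <;> rfl

lemma sum3 {X : Type} [Fintype X] [DecidableEq X] {M : Type} [AddCommMonoid M]
    (f : (Fin 3 → X) → M) :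
    ∑ x, f x = ∑ a, ∑ b, ∑ c, f ![a, b, c] := by
  rw [← Equiv.sum_comp (tri X), Fintype.sum_prod_type]
  refine Finset.sum_congr rfl fun a _ => ?_
  rw [Fintype.sum_prod_type]
  rfl

lemma perms3 : (univ : Finset (Equiv.Perm (Fin 3))) =
    {1, Equiv.swap 0 1, Equiv.swap 0 2, Equiv.swap 1 2, Equiv.swap 0 1 * Equiv.swap 1 2,
      Equiv.swap 1 2 * Equiv.swap 0 1} := by decide

lemma sumperm {M : Type} [AddCommMonoid M] (f : Equiv.Perm (Fin 3) → M) :
    ∑ π, f π = f 1 + (f (Equiv.swap 0 1) + (f (Equiv.swap 0 2) + (f (Equiv.swap 1 2) +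
      (f (Equiv.swap 0 1 * Equiv.swap 1 2) + f (Equiv.swap 1 2 * Equiv.swap 0 1))))) := by
  rw [perms3]
  rw [Finset.sum_insert (by decide), Finset.sum_insert (by decide), Finset.sum_insert (by decide),
    Finset.sum_insert (by decide), Finset.sum_insert (by decide), Finset.sum_singleton]

/-- the matrix of a map -/
def pm (x : Fin 3 → Fin 3) : Matrix (Fin 3) (Fin 3) ℂ := fun a b => if x a = b then 1 else 0

/-- the alternating symbol -/
noncomputable def lc (x : Fin 3 → Fin 3) : ℂ := (pm x).det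

lemma conj_lc (x : Fin 3 → Fin 3) : conj (lc x) = lc x := by
  unfold lc
  rw [Matrix.det_fin_three]
  simp [pm, apply_ite (starRingEnd ℂ)]

/-- the sign of a permutation -/
noncomputable def sg (π : Equiv.Perm (Fin 3)) : ℂ := ((Equiv.Perm.sign π : ℤ) : ℂ)

lemma lc_mul (x y : Fin 3 → Fin 3) : lc x * lc y =
    ∑ π : Equiv.Perm (Fin 3), sg π * (if y = x ∘ π then 1 else 0) := by
  have h : lc x * lc y = (pm x * (pm y).transpose).det := by
    rw [Matrix.det_mul, Matrix.det_transpose, lc, lc]
  rw [h, Matrix.det_apply']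
  refine Finset.sum_congr rfl fun π _ => ?_
  unfold sg
  congr 1
  have h2 : ∀ a b, (pm x * (pm y).transpose) a b = if x a = y b then 1 else 0 := by
    intro a b
    rw [Matrix.mul_apply]
    simp only [pm, Matrix.transpose_apply]
    rw [Finset.sum_eq_single (x a)]
    · simp [eq_comm]
    · intro c _ hc
      rw [if_neg (fun h => hc h.symm), zero_mul]
    · simp
  simp only [h2]
  rw [Finset.prod_ite_zero]
  simp only [Finset.prod_const_one, Finset.mem_univ, forall_true_left]
  congr 1
  rw [funext_iff]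
  simp only [Function.comp_apply, eq_comm]

lemma sum_lc (F : (Fin 3 → Fin 3) → (Fin 3 → Fin 3) → ℂ) :
    ∑ x, ∑ y, lc x * lc y * F x y =
      ∑ π : Equiv.Perm (Fin 3), sg π * ∑ x, F x (x ∘ π) := by
  have h : ∀ x, ∑ y, lc x * lc y * F x y = ∑ π : Equiv.Perm (Fin 3),
      sg π * F x (x ∘ π) := by
    intro x
    simp only [lc_mul, Finset.sum_mul]
    rw [Finset.sum_comm]
    refine Finset.sum_congr rfl fun π _ => ?_
    rw [Finset.sum_eq_single (x ∘ π)]
    · rw [if_pos rfl, mul_one]
    · intro y _ hy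
      rw [if_neg hy, mul_zero, zero_mul]
    · simp
  simp only [h]
  rw [Finset.sum_comm]
  simp only [Finset.mul_sum]

lemma lc_eq (x : Fin 3 → Fin 3) : lc x =
    ∑ π : Equiv.Perm (Fin 3), sg π * (if x = π then 1 else 0) := by
  unfold lc
  rw [← Matrix.det_transpose, Matrix.det_apply']
  refine Finset.sum_congr rfl fun π _ => ?_
  unfold sg
  congr 1
  simp only [Matrix.transpose_apply, pm]
  rw [Finset.prod_ite_zero]
  simp only [Finset.prod_const_one, Finset.mem_univ, forall_true_left]
  congr 1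
  rw [funext_iff]

lemma sum_lc1 (F : (Fin 3 → Fin 3) → ℂ) :
    ∑ x, lc x * F x = ∑ π : Equiv.Perm (Fin 3), sg π * F π := by
  simp only [lc_eq, Finset.sum_mul]
  rw [Finset.sum_comm]
  refine Finset.sum_congr rfl fun π _ => ?_
  rw [Finset.sum_eq_single (π : Fin 3 → Fin 3)]
  · rw [if_pos rfl, mul_one]
  · intro y _ hy
    rw [if_neg hy, mul_zero, zero_mul]
  · simp

/-- transformation of the symbol -/
lemma lc_trans (M : Matrix (Fin 3) (Fin 3) ℂ) (X : Fin 3 → Fin 3) :
    ∑ x, lc x * ∏ b, M (X b) (x b) = M.det * lc X := by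
  rw [sum_lc1 (fun x => ∏ b, M (X b) (x b)), mul_comm, lc, ← Matrix.det_mul,
    ← Matrix.det_transpose, Matrix.det_apply']
  refine Finset.sum_congr rfl fun π _ => ?_
  unfold sg
  congr 1
  refine Finset.prod_congr rfl fun b _ => ?_
  rw [Matrix.transpose_apply, Matrix.mul_apply]
  simp only [pm]
  rw [Finset.sum_eq_single (X b)]
  · simp
  · intro c _ hc
    rw [if_neg (fun h => hc h.symm), zero_mul]
  · simp

end Pool.Agent.T9h14.GP
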