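import Pool.Agent.T9h14.GP.Schur

/-!
# Covariance of the double alternating sum
-/

set_option autoImplicit false

namespace Pool.Agent.T9h14.GP

open Finset
open scoped ComplexConjugate

lemma G2_flat (ρ : Fin 3 → T4) : G2 ρ = ∑ x : Fin 3 → Fin 3, ∑ y : Fin 3 → Fin 3,
    ∑ x' : Fin 3 → Fin 3, ∑ y' : Fin 3 → Fin 3,
      lc x * (lc y * (lc x' * (lc y' * ∏ b, ρ b (x b) (x' b) (y b) (y' b)))) := by
  unfold G2
  simp only [Finset.mul_sum]
  refine Finset.sum_congr rfl fun x _ => Finset.sum_congr rfl fun y _ =>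
    Finset.sum_congr rfl fun x' _ => Finset.sum_congr rfl fun y' _ => ?_
  ring

/-- one alternating sum of a transformed product -/
lemma alt_act (A : Matrix (Fin 3) (Fin 3) ℂ) (R : Fin 3 → Fin 3 → ℂ) :
    ∑ x : Fin 3 → Fin 3, lc x * ∏ b, ∑ i, A i (x b) * R b i =
      A.det * ∑ x : Fin 3 → Fin 3, lc x * ∏ b, R b (x b) := by
  have h : ∀ x : Fin 3 → Fin 3, ∏ b, ∑ i, A i (x b) * R b i =
      ∑ X : Fin 3 → Fin 3, (∏ b, A (X b) (x b)) * ∏ b, R b (X b) := by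
    intro x
    rw [Finset.prod_univ_sum, Fintype.piFinset_univ]
    exact Finset.sum_congr rfl fun X _ => Finset.prod_mul_distrib
  simp only [h, Finset.mul_sum]
  rw [Finset.sum_comm]
  refine Finset.sum_congr rfl fun X _ => ?_
  have h2 := lc_trans A X
  calc ∑ x : Fin 3 → Fin 3, lc x * ((∏ b, A (X b) (x b)) * ∏ b, R b (X b))
      = (∑ x : Fin 3 → Fin 3, lc x * ∏ b, A (X b) (x b)) * ∏ b, R b (X b) := by
        rw [Finset.sum_mul]
        exact Finset.sum_congr rfl fun x _ => by ring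
    _ = A.det * (lc X * ∏ b, R b (X b)) := by rw [h2]; ring

/-- the action on one index -/
noncomputable def act1 (A : Matrix (Fin 3) (Fin 3) ℂ) (ρ : T4) : T4 :=
  fun i j k l => ∑ a, A a i * ρ a j k l

/-- the action on one index -/
noncomputable def act2 (A : Matrix (Fin 3) (Fin 3) ℂ) (ρ : T4) : T4 :=
  fun i j k l => ∑ a, A a j * ρ i a k l

/-- the action on one index -/
noncomputable def act3 (A : Matrix (Fin 3) (Fin 3) ℂ) (ρ : T4) : T4 :=
  fun i j k l => ∑ a, A a k * ρ i j a l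

/-- the action on one index -/
noncomputable def act4 (A : Matrix (Fin 3) (Fin 3) ℂ) (ρ : T4) : T4 :=
  fun i j k l => ∑ a, A a l * ρ i j k a

lemma G2_act4 (A : Matrix (Fin 3) (Fin 3) ℂ) (ρ : Fin 3 → T4) :
    G2 (fun b => act4 A (ρ b)) = A.det * G2 ρ := by
  rw [G2_flat, G2_flat, Finset.mul_sum]
  refine Finset.sum_congr rfl fun x _ => ?_
  rw [Finset.mul_sum]
  refine Finset.sum_congr rfl fun y _ => ?_
  rw [Finset.mul_sum]
  refine Finset.sum_congr rfl fun x' _ => ?_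
  rw [← Finset.mul_sum, ← Finset.mul_sum, ← Finset.mul_sum, ← Finset.mul_sum, ← Finset.mul_sum,
    ← Finset.mul_sum]
  unfold act4
  rw [alt_act A (fun b l => ρ b (x b) (x' b) (y b) l)]
  ring

lemma G2_act2 (A : Matrix (Fin 3) (Fin 3) ℂ) (ρ : Fin 3 → T4) :
    G2 (fun b => act2 A (ρ b)) = A.det * G2 ρ := by
  rw [G2_flat, G2_flat, Finset.mul_sum]
  refine Finset.sum_congr rfl fun x _ => ?_
  rw [Finset.mul_sum]
  refine Finset.sum_congr rfl fun y _ => ?_
  rw [Finset.sum_comm, Finset.sum_comm (f := fun x' y' => lc x * (lc y * (lc x' * (lc y' *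
    ∏ b, ρ b (x b) (x' b) (y b) (y' b)))))]
  rw [Finset.mul_sum]
  refine Finset.sum_congr rfl fun y' _ => ?_
  have e : ∀ (F : (Fin 3 → Fin 3) → ℂ), ∑ x', lc x * (lc y * (lc x' * (lc y' * F x'))) =
      lc x * lc y * lc y' * ∑ x', lc x' * F x' := by
    intro F
    rw [Finset.mul_sum]
    exact Finset.sum_congr rfl fun _ _ => by ring
  rw [e, e]
  unfold act2
  rw [alt_act A (fun b l => ρ b (x b) l (y b) (y' b))]
  ring

/-- exchange of the two factors and of the two pairs -/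
def swp (ρ : T4) : T4 := fun i j k l => ρ j i l k

/-- exchange of rows and columns -/
def tps (ρ : T4) : T4 := fun i j k l => ρ k l i j

lemma G2_swp (ρ : Fin 3 → T4) : G2 (fun b => swp (ρ b)) = G2 ρ := by
  rw [G2_flat, G2_flat]
  unfold swp
  have h : ∀ F : (Fin 3 → Fin 3) → (Fin 3 → Fin 3) → (Fin 3 → Fin 3) → (Fin 3 → Fin 3) → ℂ,
      ∑ x, ∑ y, ∑ x', ∑ y', F x y x' y' = ∑ x', ∑ y', ∑ x, ∑ y, F x y x' y' := by
    intro F
    calc ∑ x, ∑ y, ∑ x', ∑ y', F x y x' y' = ∑ x, ∑ x', ∑ y, ∑ y', F x y x' y' :=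
          Finset.sum_congr rfl fun i _ => Finset.sum_comm
      _ = ∑ x', ∑ x, ∑ y, ∑ y', F x y x' y' := Finset.sum_comm
      _ = ∑ x', ∑ x, ∑ y', ∑ y, F x y x' y' :=
          Finset.sum_congr rfl fun k _ => Finset.sum_congr rfl fun i _ => Finset.sum_comm
      _ = _ := Finset.sum_congr rfl fun k _ => Finset.sum_comm
  rw [h]
  refine Finset.sum_congr rfl fun x _ => Finset.sum_congr rfl fun y _ =>
    Finset.sum_congr rfl fun x' _ => Finset.sum_congr rfl fun y' _ => ?_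
  ring

lemma G2_tps (ρ : Fin 3 → T4) : G2 (fun b => tps (ρ b)) = G2 ρ := by
  rw [G2_flat, G2_flat]
  unfold tps
  rw [Finset.sum_comm]
  refine Finset.sum_congr rfl fun x _ => Finset.sum_congr rfl fun y _ => ?_
  rw [Finset.sum_comm]
  refine Finset.sum_congr rfl fun x' _ => Finset.sum_congr rfl fun y' _ => ?_
  ring

lemma G2_act1 (A : Matrix (Fin 3) (Fin 3) ℂ) (ρ : Fin 3 → T4) :
    G2 (fun b => act1 A (ρ b)) = A.det * G2 ρ := by
  rw [← G2_swp ρ, ← G2_act2, ← G2_swp (fun b => act1 A (ρ b))]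
  rfl

lemma G2_act3 (A : Matrix (Fin 3) (Fin 3) ℂ) (ρ : Fin 3 → T4) :
    G2 (fun b => act3 A (ρ b)) = A.det * G2 ρ := by
  rw [← G2_swp ρ, ← G2_act4, ← G2_swp (fun b => act3 A (ρ b))]
  rfl

/-- transformation by a pair of matrices -/
noncomputable def tr4 (A B : Matrix (Fin 3) (Fin 3) ℂ) (ρ : T4) : T4 :=
  act1 A (act2 B (act3 (A.map conj) (act4 (B.map conj) ρ)))

lemma det_conj (A : Matrix (Fin 3) (Fin 3) ℂ) : (A.map conj).det = conj A.det := by
  rw [← RingHom.mapMatrix_apply, ← RingHom.map_det]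

/-- covariance -/
lemma G2_tr4 (A B : Matrix (Fin 3) (Fin 3) ℂ) (ρ : Fin 3 → T4) :
    G2 (fun b => tr4 A B (ρ b)) =
      (A.det * conj A.det) * (B.det * conj B.det) * G2 ρ := by
  unfold tr4
  rw [G2_act1 A (fun b => act2 B (act3 (A.map conj) (act4 (B.map conj) (ρ b)))),
    G2_act2 B (fun b => act3 (A.map conj) (act4 (B.map conj) (ρ b))),
    G2_act3 (A.map conj) (fun b => act4 (B.map conj) (ρ b)), G2_act4, det_conj, det_conj]
  ring

lemma tr4_apply (A B : Matrix (Fin 3) (Fin 3) ℂ) (ρ : T4) (i j k l : Fin 3) :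
    tr4 A B ρ i j k l = ∑ a, ∑ b, ∑ c, ∑ d, A a i * B b j * conj (A c k) * conj (B d l) *
      ρ a b c d := by
  unfold tr4 act1 act2 act3 act4
  simp only [Finset.mul_sum, Matrix.map_apply]
  refine Finset.sum_congr rfl fun x _ => Finset.sum_congr rfl fun y _ =>
    Finset.sum_congr rfl fun x' _ => Finset.sum_congr rfl fun y' _ => ?_
  ring

/-- the four-linear form -/
noncomputable def q4 (σ : T4) (x y z w : Fin 3 → ℂ) : ℂ :=
  ∑ i, ∑ j, ∑ k, ∑ l, x i * y j * z k * w l * σ i j k l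

/-- rotation of the indices -/
def rot (σ : T4) : T4 := fun i j k l => σ l i j k

lemma q4_rot (σ : T4) (x y z w : Fin 3 → ℂ) : q4 (rot σ) x y z w = q4 σ w x y z := by
  unfold q4 rot
  have h : ∀ F : Fin 3 → Fin 3 → Fin 3 → Fin 3 → ℂ,
      ∑ i, ∑ j, ∑ k, ∑ l, F i j k l = ∑ l, ∑ i, ∑ j, ∑ k, F i j k l := by
    intro F
    calc ∑ i, ∑ j, ∑ k, ∑ l, F i j k l = ∑ i, ∑ j, ∑ l, ∑ k, F i j k l :=
          Finset.sum_congr rfl fun i _ => Finset.sum_congr rfl fun j _ => Finset.sum_comm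
      _ = ∑ i, ∑ l, ∑ j, ∑ k, F i j k l :=
          Finset.sum_congr rfl fun i _ => Finset.sum_comm
      _ = _ := Finset.sum_comm
  rw [h]
  refine Finset.sum_congr rfl fun i _ => Finset.sum_congr rfl fun j _ =>
    Finset.sum_congr rfl fun k _ => Finset.sum_congr rfl fun l _ => ?_
  ring

lemma q4_act4 (A : Matrix (Fin 3) (Fin 3) ℂ) (σ : T4) (x y z w : Fin 3 → ℂ) :
    q4 (act4 A σ) x y z w = q4 σ x y z (A.mulVec w) := by
  unfold q4 act4
  refine Finset.sum_congr rfl fun i _ => Finset.sum_congr rfl fun j _ =>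
    Finset.sum_congr rfl fun k _ => ?_
  unfold Matrix.mulVec dotProduct
  simp only [Finset.mul_sum, Finset.sum_mul]
  rw [Finset.sum_comm]
  exact Finset.sum_congr rfl fun _ _ => Finset.sum_congr rfl fun _ _ => by ring

lemma q4_act1 (A : Matrix (Fin 3) (Fin 3) ℂ) (σ : T4) (x y z w : Fin 3 → ℂ) :
    q4 (act1 A σ) x y z w = q4 σ (A.mulVec x) y z w := by
  rw [← q4_rot (act1 A σ) y z w x, ← q4_rot σ y z w (A.mulVec x), ← q4_act4]
  rfl

lemma q4_act2 (A : Matrix (Fin 3) (Fin 3) ℂ) (σ : T4) (x y z w : Fin 3 → ℂ) :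
    q4 (act2 A σ) x y z w = q4 σ x (A.mulVec y) z w := by
  rw [← q4_rot (act2 A σ) y z w x, ← q4_rot σ (A.mulVec y) z w x, ← q4_act1]
  rfl

lemma q4_act3 (A : Matrix (Fin 3) (Fin 3) ℂ) (σ : T4) (x y z w : Fin 3 → ℂ) :
    q4 (act3 A σ) x y z w = q4 σ x y (A.mulVec z) w := by
  rw [← q4_rot (act3 A σ) y z w x, ← q4_rot σ y (A.mulVec z) w x, ← q4_act2]
  rfl

lemma conj_mulVec (A : Matrix (Fin 3) (Fin 3) ℂ) (x : Fin 3 → ℂ) :
    (A.map conj).mulVec (fun i => conj (x i)) = fun i => conj (A.mulVec x i) := by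
  funext i
  simp only [Matrix.mulVec, dotProduct, Matrix.map_apply, map_sum, map_mul]

/-- transformation of the values -/
lemma qq_tr4 (A B : Matrix (Fin 3) (Fin 3) ℂ) (ρ : T4) (x y : Fin 3 → ℂ) :
    qq (tr4 A B ρ) x y = qq ρ (A.mulVec x) (B.mulVec y) := by
  change q4 (tr4 A B ρ) x y (fun i => conj (x i)) (fun i => conj (y i)) =
    q4 ρ (A.mulVec x) (B.mulVec y) (fun i => conj (A.mulVec x i)) (fun i => conj (B.mulVec y i))
  unfold tr4
  rw [q4_act1, q4_act2, q4_act3, q4_act4, conj_mulVec, conj_mulVec]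

lemma tr4_herm (A B : Matrix (Fin 3) (Fin 3) ℂ) {ρ : T4}
    (h : ∀ i j k l, conj (ρ i j k l) = ρ k l i j) (i j k l : Fin 3) :
    conj (tr4 A B ρ i j k l) = tr4 A B ρ k l i j := by
  rw [tr4_apply, tr4_apply]
  simp only [map_sum, map_mul, Complex.conj_conj, h]
  have h1 : ∀ F : Fin 3 → Fin 3 → Fin 3 → Fin 3 → ℂ,
      ∑ i, ∑ j, ∑ k, ∑ l, F i j k l = ∑ k, ∑ l, ∑ i, ∑ j, F i j k l := by
    intro F
    calc ∑ i, ∑ j, ∑ k, ∑ l, F i j k l = ∑ i, ∑ k, ∑ j, ∑ l, F i j k l :=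
          Finset.sum_congr rfl fun i _ => Finset.sum_comm
      _ = ∑ k, ∑ i, ∑ j, ∑ l, F i j k l := Finset.sum_comm
      _ = ∑ k, ∑ i, ∑ l, ∑ j, F i j k l :=
          Finset.sum_congr rfl fun k _ => Finset.sum_congr rfl fun i _ => Finset.sum_comm
      _ = ∑ k, ∑ l, ∑ i, ∑ j, F i j k l :=
          Finset.sum_congr rfl fun k _ => Finset.sum_comm
  rw [h1]
  refine Finset.sum_congr rfl fun i _ => Finset.sum_congr rfl fun j _ =>
    Finset.sum_congr rfl fun k _ => Finset.sum_congr rfl fun l _ => ?_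
  ring

lemma tr4_BP (A B : Matrix (Fin 3) (Fin 3) ℂ) {ρ : T4} (h : BP ρ) : BP (tr4 A B ρ) :=
  ⟨tr4_herm A B h.herm, fun x y => by rw [qq_tr4]; exact h.pos _ _⟩

end Pool.Agent.T9h14.GP
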