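import Pool.Agent.T9h14.GP.Quant

/-!
# From split tensors to Euclidean spaces
-/

set_option autoImplicit false

namespace Pool.Agent.T9h14.GP

open Finset MeasureTheory Module
open Pool.Agent.W666.GB Pool.Agent.TH598.GV Pool.Agent.R735.HA
open scoped ComplexConjugate ComplexOrder

section

variable {V : Type} [NormedAddCommGroup V] [InnerProductSpace ℝ V]

/-- the components of `-T` as complex numbers -/
noncomputable def nc (e : I6 → V) (T : V → V → V → V → ℝ) : H6 := fun a b c d =>
  ((-T (e a) (e b) (e c) (e d) : ℝ) : ℂ)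

lemma nc_HS (e : I6 → V) {T : V → V → V → V → ℝ} (hT : AlgCurv T) : HS (nc e T) := by
  constructor
  · intro i j k l
    unfold nc
    rw [Complex.conj_ofReal, hT.pair]
  · intro i j k l
    unfold nc
    rw [hT.anti]
    push_cast
    ring

lemma nc_shift (e : OrthonormalBasis I6 ℝ V) (R : V → V → V → V → ℝ) (κ : ℝ) (i j k l : I6) :
    nc e (shiftT R κ) i j k l = nc e R i j k l - (κ : ℂ) * UU i j k l := by
  have hin : ∀ i j, inner ℝ (e i) (e j) = if i = j then (1 : ℝ) else 0 := fun i j => by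
    rw [e.inner_eq_ite]
  unfold nc shiftT UU
  simp only [hin]
  push_cast
  split_ifs <;> push_cast <;> ring

lemma det_unit (M : Matrix I6 I6 ℂ) (hM : ∀ i k, ∑ a, M a i * conj (M a k) = if i = k then 1 else 0) :
    M.det * conj M.det = 1 := by
  have h1 : M.transpose * (M.map conj) = 1 := by
    ext i k
    rw [Matrix.mul_apply, Matrix.one_apply, ← hM i k]
    rfl
  have h2 : (M.map conj).det = conj M.det := by
    rw [← RingHom.mapMatrix_apply, ← RingHom.map_det]
  rw [← h2, ← Matrix.det_transpose M, ← Matrix.det_mul, h1, Matrix.det_one]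

/-- the pointwise inequality from the class -/
theorem point_cls (e : OrthonormalBasis (Fin 3 × Bool) ℝ V) {R : V → V → V → V → ℝ}
    {κ : ℝ} (hκ : 0 ≤ κ) (M : Matrix I6 I6 ℂ)
    (hM : ∀ i k, ∑ a, M a i * conj (M a k) = if i = k then 1 else 0)
    (hC : Cls (Hc M (nc e (shiftT R κ)))) :
    roundGB 3 κ ≤ (-1) ^ 3 * gbc e R := by
  have h1 : nc e (shiftT R κ) = fun i j k l => nc e R i j k l - (κ : ℂ) * UU i j k l := by
    funext i j k l
    exact nc_shift e R κ i j k l
  have h2 : Hc M (nc e (shiftT R κ)) =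
      fun i j k l => Hc M (nc e R) i j k l - (κ : ℂ) * UU i j k l := by
    funext i j k l
    rw [h1, Hc_add, Hc_UU M hM]
  rw [h2] at hC
  have key := split_quant hκ hC
  rw [GG_trans, det_unit M hM, one_mul] at key
  have hnc : nc e R = fun a b c d => (((-R (e a) (e b) (e c) (e d)) : ℝ) : ℂ) := rfl
  rw [hnc, Pool.Agent.TH828.J3423.GG_re] at key
  have hsum : ∑ σ : Equiv.Perm (Fin 3 × Bool), ∑ τ : Equiv.Perm (Fin 3 × Bool),
        Pool.Agent.W666.GB.sn σ * Pool.Agent.W666.GB.sn τ *
          ∏ b : Fin 3, -R (e (σ (b, false))) (e (σ (b, true))) (e (τ (b, false)))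
            (e (τ (b, true))) =
      (-1) ^ 3 * ∑ σ : Equiv.Perm (Fin 3 × Bool),
        ∑ τ : Equiv.Perm (Fin 3 × Bool),
        ((Equiv.Perm.sign σ : ℤ) : ℝ) * ((Equiv.Perm.sign τ : ℤ) : ℝ) *
          ∏ b : Fin 3, R (e (σ (b, false))) (e (σ (b, true))) (e (τ (b, false)))
            (e (τ (b, true))) := by
    simp only [Finset.prod_neg, Finset.mul_sum, Finset.card_univ, Fintype.card_fin,
      Pool.Agent.W666.GB.sn]
    refine Finset.sum_congr rfl fun σ _ => Finset.sum_congr rfl fun τ _ => by ring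
  rw [hsum] at key
  have hπ := Real.pi_pos
  have hc : 0 < 1 / ((8 * Real.pi) ^ 3 * ((3 : ℕ).factorial : ℝ)) := by positivity
  have h1 := mul_le_mul_of_nonneg_left key hc.le
  have h2 : 1 / ((8 * Real.pi) ^ 3 * ((3 : ℕ).factorial : ℝ)) *
      (2 ^ 3 * ((2 * 3).factorial : ℝ) * κ ^ 3) = roundGB 3 κ := by
    unfold roundGB
    have h8 : (8 * Real.pi) ^ 3 = 2 ^ 3 * (4 * Real.pi) ^ 3 := by
      rw [← mul_pow]; ring
    rw [h8]
    field_simp
  rw [h2] at h1
  refine h1.trans (le_of_eq ?_)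
  unfold gbc
  ring

/-- the Hermitian form on decomposable bivectors -/
lemma qf_nc (e : I6 → V) {T : V → V → V → V → ℝ} (hT : AlgCurv T) (z w : I6 → ℂ) :
    (qf (nc e T) z w).re = -cxs T (vc e fun a => (z a).re) (vc e fun a => (z a).im)
      (vc e fun a => (w a).re) (vc e fun a => (w a).im) := qf_comp hT e z w

/-- the real part of the Hermitian form on arrays -/
lemma Sf_nc (e : I6 → V) (T : V → V → V → V → ℝ) (p : I6 → I6 → ℂ) :
    (Sf (nc e T) p p).re =
      Pool.Agent.TH828.J3423.QQ (fun a b c d => -T (e a) (e b) (e c) (e d))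
        (fun a b => (p a b).re) (fun a b => (p a b).re) +
      Pool.Agent.TH828.J3423.QQ (fun a b c d => -T (e a) (e b) (e c) (e d))
        (fun a b => (p a b).im) (fun a b => (p a b).im) :=
  Pool.Agent.TH828.J3423.re_herm (fun a b c d => -T (e a) (e b) (e c) (e d)) p

end

end Pool.Agent.T9h14.GP
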