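import Pool.Agent.T9h14.GP.Refl2

/-!
# Adapted bases for an orthogonal complex structure
-/

set_option autoImplicit false

namespace Pool.Agent.T9h14.GP

open Finset MeasureTheory Module
open Pool.Agent.W666.GB Pool.Agent.TH598.GV Pool.Agent.R735.HA
open scoped ComplexConjugate ComplexOrder

section

variable {V : Type} [NormedAddCommGroup V] [InnerProductSpace ℝ V]

lemma ex_unit [FiniteDimensional ℝ V] (W : Submodule ℝ V) (h : finrank ℝ W < finrank ℝ V) :
    ∃ u ∈ Wᗮ, inner ℝ u u = (1 : ℝ) := by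
  have h1 : Wᗮ ≠ ⊥ := by
    intro h2
    rw [Submodule.orthogonal_eq_bot_iff] at h2
    rw [h2, finrank_top] at h
    exact lt_irrefl _ h
  obtain ⟨v, hv, hv0⟩ := Submodule.exists_mem_ne_zero_of_ne_bot h1
  have hn : ‖v‖ ≠ 0 := norm_ne_zero_iff.2 hv0
  refine ⟨‖v‖⁻¹ • v, Submodule.smul_mem _ _ hv, ?_⟩
  rw [inner_smul_left, inner_smul_right, real_inner_self_eq_norm_sq]
  simp only [conj_trivial]
  field_simp

/-- an orthonormal basis adapted to a complex structure -/
lemma adapted_J (e : OrthonormalBasis (Fin 3 × Bool) ℝ V) (J : V →ₗ[ℝ] V)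
    (hJ2 : ∀ x, J (J x) = -x) (hJ : ∀ x y, inner ℝ (J x) (J y) = inner ℝ x y) :
    ∃ f : OrthonormalBasis (Fin 3 × Bool) ℝ V, ∀ b, f (b, true) = J (f (b, false)) := by
  classical
  have hfd : FiniteDimensional ℝ V := Module.Finite.of_basis e.toBasis
  have hc : finrank ℝ V = Fintype.card (Fin 3 × Bool) := finrank_eq_card_basis e.toBasis
  have hc6 : finrank ℝ V = 6 := by
    rw [hc]
    simp
  have hsk : ∀ x y, inner ℝ (J x) y = -inner ℝ x (J y) := by
    intro x y
    have := hJ x (J y)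
    rw [hJ2, inner_neg_right] at this
    linarith
  have hxx : ∀ x, inner ℝ x (J x) = (0 : ℝ) := by
    intro x
    have := hsk x x
    rw [real_inner_comm] at this
    linarith
  have step : ∀ (s : Finset V), s.card < 6 → ∃ u, inner ℝ u u = (1 : ℝ) ∧
      ∀ x ∈ s, inner ℝ x u = (0 : ℝ) := by
    intro s hs
    obtain ⟨u, hu, hu1⟩ := ex_unit (Submodule.span ℝ (s : Set V)) (by
      rw [hc6]
      exact lt_of_le_of_lt (finrank_span_finset_le_card s) hs)
    refine ⟨u, hu1, fun x hx => ?_⟩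
    exact (Submodule.mem_orthogonal _ _).1 hu x (Submodule.subset_span hx)
  obtain ⟨u0, h0, -⟩ := step ∅ (by simp)
  obtain ⟨u1, h1, h1s⟩ := step {u0, J u0} (by
    refine lt_of_le_of_lt (Finset.card_le_two) (by norm_num))
  obtain ⟨u2, h2, h2s⟩ := step {u0, J u0, u1, J u1} (by
    refine lt_of_le_of_lt (Finset.card_le_four) (by norm_num))
  have a1 : inner ℝ u0 u1 = (0 : ℝ) := h1s _ (by simp)
  have a2 : inner ℝ (J u0) u1 = (0 : ℝ) := h1s _ (by simp)
  have b1 : inner ℝ u0 u2 = (0 : ℝ) := h2s _ (by simp)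
  have b2 : inner ℝ (J u0) u2 = (0 : ℝ) := h2s _ (by simp)
  have b3 : inner ℝ u1 u2 = (0 : ℝ) := h2s _ (by simp)
  have b4 : inner ℝ (J u1) u2 = (0 : ℝ) := h2s _ (by simp)
  obtain ⟨u, hu⟩ : ∃ u : Fin 3 → V, u = ![u0, u1, u2] := ⟨_, rfl⟩
  have huu : ∀ a b, inner ℝ (u a) (u b) = if a = b then (1 : ℝ) else 0 := by
    intro a b
    have c0 : ∀ x y : V, inner ℝ x y = (0 : ℝ) → inner ℝ y x = (0 : ℝ) := by
      intro x y h
      rw [real_inner_comm]
      exact h
    subst hu
    fin_cases a <;> fin_cases b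
    · exact h0
    · exact a1
    · exact b1
    · exact c0 _ _ a1
    · exact h1
    · exact b3
    · exact c0 _ _ b1
    · exact c0 _ _ b3
    · exact h2
  have huJ : ∀ a b, inner ℝ (u a) (J (u b)) = (0 : ℝ) := by
    intro a b
    have c1 : ∀ x y, inner ℝ (J x) y = (0 : ℝ) → inner ℝ x (J y) = (0 : ℝ) := by
      intro x y h
      have := hsk x y
      linarith
    have c2 : ∀ x y, inner ℝ (J x) y = (0 : ℝ) → inner ℝ y (J x) = (0 : ℝ) := by
      intro x y h
      rw [real_inner_comm]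
      exact h
    subst hu
    fin_cases a <;> fin_cases b
    · exact hxx _
    · exact c1 _ _ a2
    · exact c1 _ _ b2
    · exact c2 _ _ a2
    · exact hxx _
    · exact c1 _ _ b4
    · exact c2 _ _ b2
    · exact c2 _ _ b4
    · exact hxx _
  let v : Fin 3 × Bool → V := fun i => if i.2 then J (u i.1) else u i.1
  have hv : Orthonormal ℝ v := by
    rw [orthonormal_iff_ite]
    rintro ⟨a, c⟩ ⟨b, d⟩
    cases c <;> cases d
    · simp only [v, Bool.false_eq_true, if_false, huu, Prod.mk.injEq, and_true]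
    · simp only [v, Bool.false_eq_true, if_false, if_true, huJ, Prod.mk.injEq, and_false,
        reduceCtorEq]
    · simp only [v, Bool.false_eq_true, if_false, if_true, Prod.mk.injEq, and_false,
        reduceCtorEq]
      rw [real_inner_comm]
      exact huJ _ _
    · simp only [v, if_true, hJ, huu, Prod.mk.injEq, and_true]
  have hv' : Orthonormal ℝ ((Set.univ : Set (Fin 3 × Bool)).domRestrict v) := by
    exact hv.comp (fun x : (Set.univ : Set (Fin 3 × Bool)) => x.1) Subtype.val_injective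
  obtain ⟨f, hf⟩ := hv'.exists_orthonormalBasis_extension_of_card_eq hc
  refine ⟨f, fun b => ?_⟩
  rw [hf _ (Set.mem_univ _), hf _ (Set.mem_univ _)]
  simp [v]

end

end Pool.Agent.T9h14.GP
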