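import Pool.Agent.T9h14.GP.JBasis

/-!
# Almost Hermitian curvature tensors in dimension six: coordinates
-/

set_option autoImplicit false

namespace Pool.Agent.T9h14.GP

open Finset MeasureTheory Module
open Pool.Agent.W666.GB Pool.Agent.TH598.GV Pool.Agent.R735.HA
open scoped ComplexConjugate ComplexOrder

/-- the other side -/
def jj (i : I6) : I6 := (i.1, !i.2)

/-- the sign -/
noncomputable def js (i : I6) : ℂ := if i.2 then -1 else 1

/-- the eigenvalue -/
noncomputable def lam (i : I6) : ℂ := if i.2 then -Complex.I else Complex.I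

/-- `1 / √2` -/
noncomputable def rt : ℂ := ((Real.sqrt 2)⁻¹ : ℝ)

/-- the frame of the eigenvectors of the complex structure -/
noncomputable def MJ : Matrix I6 I6 ℂ := fun a i =>
  if a.1 = i.1 then (if a.2 then (if i.2 then Complex.I * rt else -Complex.I * rt) else rt) else 0

lemma rt_sq : rt * rt = 1 / 2 := by
  unfold rt
  rw [← Complex.ofReal_mul, ← mul_inv, Real.mul_self_sqrt (by norm_num)]
  norm_num

lemma conj_rt : conj rt = rt := Complex.conj_ofReal _

lemma MJ_unit (i k : I6) : ∑ a, MJ a i * conj (MJ a k) = if i = k then 1 else 0 := by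
  obtain ⟨b, c⟩ := i
  obtain ⟨b', c'⟩ := k
  rw [Fintype.sum_prod_type]
  simp only [Fintype.sum_bool, MJ]
  by_cases h : b = b'
  · subst h
    rw [Finset.sum_eq_single b]
    · cases c <;> cases c' <;> simp [conj_rt]
      · linear_combination 2 * rt_sq - rt * rt * Complex.I_sq - rt * rt
      · linear_combination rt * rt * Complex.I_sq
      · linear_combination rt * rt * Complex.I_sq
      · linear_combination 2 * rt_sq - rt * rt * Complex.I_sq - rt * rt
    · intro a _ ha
      simp [ha]
    · simp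
  · rw [if_neg (fun h' => h (congrArg Prod.fst h'))]
    refine Finset.sum_eq_zero fun a _ => ?_
    by_cases ha : a = b
    · subst ha
      simp [h]
    · simp [ha]

lemma jj_jj (i : I6) : jj (jj i) = i := by
  obtain ⟨a, c⟩ := i
  simp [jj]

/-- exchange of the sides -/
def je : I6 ≃ I6 := ⟨jj, jj, jj_jj, jj_jj⟩

lemma MJ_eig (a i : I6) : js (jj a) * MJ (jj a) i = lam i * MJ a i := by
  obtain ⟨a, c⟩ := a
  obtain ⟨b, d⟩ := i
  by_cases h : a = b
  · subst h
    cases c <;> cases d <;> simp [js, jj, MJ, lam]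
    · linear_combination rt * Complex.I_sq
    · linear_combination rt * Complex.I_sq
  · simp [MJ, jj, h]

/-- the four actions -/
noncomputable def Q1 (H : H6) : H6 := fun a b c d => js a * H (jj a) b c d
/-- the four actions -/
noncomputable def Q2 (H : H6) : H6 := fun a b c d => js b * H a (jj b) c d
/-- the four actions -/
noncomputable def Q3 (H : H6) : H6 := fun a b c d => js c * H a b (jj c) d
/-- the four actions -/
noncomputable def Q4 (H : H6) : H6 := fun a b c d => js d * H a b c (jj d)

lemma conj_js (i : I6) : conj (js i) = js i := by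
  unfold js
  split_ifs <;> simp

lemma Hc_Q1 (H : H6) (i j k l : I6) : Hc MJ (Q1 H) i j k l = lam i * Hc MJ H i j k l := by
  unfold Hc Q1
  rw [← Equiv.sum_comp je]
  simp only [Finset.mul_sum]
  refine Finset.sum_congr rfl fun a _ => Finset.sum_congr rfl fun b _ =>
    Finset.sum_congr rfl fun c _ => Finset.sum_congr rfl fun d _ => ?_
  have h := MJ_eig a i
  have e : je a = jj a := rfl
  rw [e, jj_jj]
  linear_combination (H a b c d * MJ b j * conj (MJ c k) * conj (MJ d l)) * h

lemma Hc_Q2 (H : H6) (i j k l : I6) : Hc MJ (Q2 H) i j k l = lam j * Hc MJ H i j k l := by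
  unfold Hc Q2
  rw [Finset.mul_sum]
  refine Finset.sum_congr rfl fun a _ => ?_
  rw [← Equiv.sum_comp je]
  simp only [Finset.mul_sum]
  refine Finset.sum_congr rfl fun b _ =>
    Finset.sum_congr rfl fun c _ => Finset.sum_congr rfl fun d _ => ?_
  have h := MJ_eig b j
  have e : je b = jj b := rfl
  rw [e, jj_jj]
  linear_combination (H a b c d * MJ a i * conj (MJ c k) * conj (MJ d l)) * h

lemma Hc_Q3 (H : H6) (i j k l : I6) : Hc MJ (Q3 H) i j k l = conj (lam k) * Hc MJ H i j k l := by
  unfold Hc Q3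
  rw [Finset.mul_sum]
  refine Finset.sum_congr rfl fun a _ => ?_
  rw [Finset.mul_sum]
  refine Finset.sum_congr rfl fun b _ => ?_
  rw [← Equiv.sum_comp je]
  simp only [Finset.mul_sum]
  refine Finset.sum_congr rfl fun c _ => Finset.sum_congr rfl fun d _ => ?_
  have h := congrArg conj (MJ_eig c k)
  rw [map_mul, map_mul, conj_js] at h
  have e : je c = jj c := rfl
  rw [e, jj_jj]
  linear_combination (H a b c d * MJ a i * MJ b j * conj (MJ d l)) * h

lemma Hc_Q4 (H : H6) (i j k l : I6) : Hc MJ (Q4 H) i j k l = conj (lam l) * Hc MJ H i j k l := by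
  unfold Hc Q4
  rw [Finset.mul_sum]
  refine Finset.sum_congr rfl fun a _ => ?_
  rw [Finset.mul_sum]
  refine Finset.sum_congr rfl fun b _ => ?_
  rw [Finset.mul_sum]
  refine Finset.sum_congr rfl fun c _ => ?_
  rw [← Equiv.sum_comp je]
  simp only [Finset.mul_sum]
  refine Finset.sum_congr rfl fun d _ => ?_
  have h := congrArg conj (MJ_eig d l)
  rw [map_mul, map_mul, conj_js] at h
  have e : je d = jj d := rfl
  rw [e, jj_jj]
  linear_combination (H a b c d * MJ a i * MJ b j * conj (MJ c k)) * h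

section

variable {V : Type} [NormedAddCommGroup V] [InnerProductSpace ℝ V]

lemma neg1 {T : V → V → V → V → ℝ} (hT : AlgCurv T) (x y z w : V) : T (-x) y z w = -T x y z w := by
  have := hT.smul (-1) x y z w
  rwa [neg_one_smul, neg_one_mul] at this

lemma neg2 {T : V → V → V → V → ℝ} (hT : AlgCurv T) (x y z w : V) : T x (-y) z w = -T x y z w := by
  rw [hT.anti (-y) x z w, neg1 hT, hT.anti y x z w]

lemma neg3 {T : V → V → V → V → ℝ} (hT : AlgCurv T) (x y z w : V) : T x y (-z) w = -T x y z w := by
  rw [hT.pair (-z) w x y, neg1 hT, hT.pair z w x y]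

lemma neg4 {T : V → V → V → V → ℝ} (hT : AlgCurv T) (x y z w : V) : T x y z (-w) = -T x y z w := by
  rw [hT.pair z (-w) x y, neg2 hT, hT.pair z w x y]

/-- `J` acts on the frame -/
lemma J_frame (f : I6 → V) (J : V →ₗ[ℝ] V) (hJ2 : ∀ x, J (J x) = -x)
    (hf : ∀ b, f (b, true) = J (f (b, false))) (i : I6) :
    J (f i) = if i.2 then -f (jj i) else f (jj i) := by
  obtain ⟨b, c⟩ := i
  cases c
  · simp [jj, hf]
  · simp [jj, hf, hJ2]

lemma nc_Q1 (f : I6 → V) (J : V →ₗ[ℝ] V) (hJ2 : ∀ x, J (J x) = -x)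
    (hf : ∀ b, f (b, true) = J (f (b, false))) {T : V → V → V → V → ℝ} (hT : AlgCurv T) :
    nc f (fun x y z w => T (J x) y z w) = Q1 (nc f T) := by
  funext a b c d
  unfold nc Q1 js
  simp only [J_frame f J hJ2 hf a]
  split_ifs
  · rw [neg1 hT]
    push_cast
    ring
  · rw [one_mul]

/-- the vector with rotated coordinates -/
lemma vcJ (f : I6 → V) (J : V →ₗ[ℝ] V) (hJ2 : ∀ x, J (J x) = -x)
    (hf : ∀ b, f (b, true) = J (f (b, false))) (x y : I6 → ℝ)
    (h0 : ∀ b, y (b, false) = -x (b, true)) (h1 : ∀ b, y (b, true) = x (b, false)) :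
    vc f y = J (vc f x) := by
  unfold vc
  rw [map_sum, Fintype.sum_prod_type, Fintype.sum_prod_type]
  refine Finset.sum_congr rfl fun b _ => ?_
  rw [Fintype.sum_bool, Fintype.sum_bool, map_smul, map_smul, h0, h1, hf, hJ2]
  rw [smul_neg, neg_smul, add_comm]

end

end Pool.Agent.T9h14.GP
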