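import Pool.Agent.T9h14.GP.JGeo

/-!
# Almost Hermitian curvature tensors in dimension six
-/

set_option autoImplicit false

namespace Pool.Agent.T9h14.GP

open Finset MeasureTheory Module
open Pool.Agent.W666.GB Pool.Agent.TH598.GV Pool.Agent.R735.HA
open scoped ComplexConjugate ComplexOrder

section

variable {V : Type} [NormedAddCommGroup V] [InnerProductSpace ℝ V]

/-- `J` is an orthogonal complex structure. -/
structure OrthCx (J : V →ₗ[ℝ] V) : Prop where
  sq : ∀ x, J (J x) = -x
  orth : ∀ x y, inner ℝ (J x) (J y) = inner ℝ x y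

/-- Gray's second curvature identity. -/
def GraySecond (T : V → V → V → V → ℝ) (J : V →ₗ[ℝ] V) : Prop :=
  ∀ w x y z, T w x y z = T (J w) (J x) y z + T (J w) x (J y) z + T (J w) x y (J z)

/-- Gray's third curvature identity: `T` is invariant under `J`. -/
def GrayThird (T : V → V → V → V → ℝ) (J : V →ₗ[ℝ] V) : Prop :=
  ∀ x y z w, T (J x) (J y) (J z) (J w) = T x y z w

/-- Nonpositive sum of the sectional curvatures of the planes of `x, y` and of `x, J y` and of
`T (x, J x, y, J y)`. For a tensor with Gray's third identity the left side is half of the complex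
sectional curvature of the plane spanned by `x - i J x` and `y + i J y`. -/
def MixedNonpos (T : V → V → V → V → ℝ) (J : V →ₗ[ℝ] V) : Prop :=
  ∀ x y, T x y x y + T x (J y) x (J y) + T x (J x) y (J y) ≤ 0

/-- The curvature operator is nonpositive on the bivectors
`∑ (x i ∧ y i - J (x i) ∧ J (y i))`, the `J`-anti-invariant ones. -/
def OpAnti (T : V → V → V → V → ℝ) (J : V →ₗ[ℝ] V) : Prop :=
  ∀ (n : ℕ) (x y : Fin n → V), ∑ i, ∑ j, (T (x i) (y i) (x j) (y j) -
    T (x i) (y i) (J (x j)) (J (y j)) - T (J (x i)) (J (y i)) (x j) (y j) +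
    T (J (x i)) (J (y i)) (J (x j)) (J (y j))) ≤ 0

/-- `|T (x, J x, y, J y)|` is at most minus the sum of the sectional curvatures (not normalised) of
the planes of `x, y` and of `x, J y`. -/
def BiNonpos (T : V → V → V → V → ℝ) (J : V →ₗ[ℝ] V) : Prop :=
  ∀ x y, |T x (J x) y (J y)| ≤ -(T x y x y + T x (J y) x (J y))

lemma third_of_second {T : V → V → V → V → ℝ} (hT : AlgCurv T) {J : V →ₗ[ℝ] V} (hJ : OrthCx J)
    (h : GraySecond T J) : GrayThird T J := by
  have key : ∀ w x y z, T (J w) (J x) (J y) (J z) =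
      T w x y z - T (J w) (J x) y z + T w x (J y) (J z) := by
    intro w x y z
    have h1 := h w x y z
    have h2 := h w x (J y) (J z)
    rw [hJ.sq, hJ.sq, neg3 hT, neg4 hT] at h2
    linarith
  intro w x y z
  have h1 := key w x y z
  have h2 := key y z w x
  rw [hT.pair (J w) (J x) (J y) (J z), hT.pair w x y z, hT.pair w x (J y) (J z),
    hT.pair (J w) (J x) y z] at h2
  linarith

lemma shift_third {R : V → V → V → V → ℝ} {J : V →ₗ[ℝ] V} (hJ : OrthCx J) (h : GrayThird R J)
    (κ : ℝ) : GrayThird (shiftT R κ) J := by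
  intro x y z w
  simp only [shiftT, hJ.orth, h x y z w]

lemma shift_second {R : V → V → V → V → ℝ} {J : V →ₗ[ℝ] V} (hJ : OrthCx J) (h : GraySecond R J)
    (κ : ℝ) : GraySecond (shiftT R κ) J := by
  have hsk : ∀ x y, inner ℝ (J x) y = -inner ℝ x (J y) := by
    intro x y
    have := hJ.orth x (J y)
    rw [hJ.sq, inner_neg_right] at this
    linarith
  intro w x y z
  have h1 := h w x y z
  simp only [shiftT, hJ.orth]
  rw [hsk x z, hsk x y]
  linear_combination h1

/-- planes of type `(1,1)` -/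
lemma cxs_mixed {T : V → V → V → V → ℝ} (hT : AlgCurv T) {J : V →ₗ[ℝ] V} (hJ : OrthCx J)
    (h : GrayThird T J) (x u : V) :
    cxs T x (-J x) u (J u) = 2 * (T x u x u + T x (J u) x (J u) + T x (J x) u (J u)) := by
  have b1 := hT.bianchi x u (J x) (J u)
  have b2 := hT.anti x (J x) u (J u)
  have b3 := hT.pair x (J u) (J x) u
  have b4 := hT.anti u (J x) x (J u)
  have t1 := h x u x u
  have t2 := h x (J u) x (J u)
  rw [hJ.sq, neg2 hT, neg4 hT] at t2
  simp only [cxs, neg1 hT, neg3 hT]
  rw [b3] at *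
  linarith

/-- planes of type `(2,0)` -/
lemma cxs_same {T : V → V → V → V → ℝ} (hT : AlgCurv T) {J : V →ₗ[ℝ] V} (hJ : OrthCx J)
    (h : GrayThird T J) (x u : V) :
    cxs T x (J x) u (J u) = 2 * (T x u x u + T x (J u) x (J u) - T x (J x) u (J u)) := by
  have b1 := hT.bianchi x u (J x) (J u)
  have b2 := hT.anti x (J x) u (J u)
  have b3 := hT.pair x (J u) (J x) u
  have b4 := hT.anti u (J x) x (J u)
  have t1 := h x u x u
  have t2 := h x (J u) x (J u)
  rw [hJ.sq, neg2 hT, neg4 hT] at t2
  simp only [cxs]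
  rw [b3] at *
  linarith

end

end Pool.Agent.T9h14.GP
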