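import Pool.Agent.T9h14.GP.JMain

/-!
# Almost Hermitian curvature tensors in dimension six: the pointwise theorem
-/

set_option autoImplicit false

namespace Pool.Agent.T9h14.GP

open Finset MeasureTheory Module
open Pool.Agent.W666.GB Pool.Agent.TH598.GV Pool.Agent.R735.HA
open scoped ComplexConjugate ComplexOrder

section

variable {V : Type} [NormedAddCommGroup V] [InnerProductSpace ℝ V]

lemma nc_1234 (f : I6 → V) {J : V →ₗ[ℝ] V} (hJ2 : ∀ x, J (J x) = -x)
    (hf : ∀ b, f (b, true) = J (f (b, false))) {T : V → V → V → V → ℝ} (hT : AlgCurv T) :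
    nc f (fun x y z w => T (J x) (J y) (J z) (J w)) = Q1 (Q2 (Q3 (Q4 (nc f T)))) := by
  funext a b c d
  unfold nc Q1 Q2 Q3 Q4 js
  simp only [J_frame f J hJ2 hf]
  split_ifs <;> (try simp only [neg1 hT, neg2 hT, neg3 hT, neg4 hT]) <;> push_cast <;> ring

lemma nc_12 (f : I6 → V) {J : V →ₗ[ℝ] V} (hJ2 : ∀ x, J (J x) = -x)
    (hf : ∀ b, f (b, true) = J (f (b, false))) {T : V → V → V → V → ℝ} (hT : AlgCurv T) :
    nc f (fun x y z w => T (J x) (J y) z w) = Q1 (Q2 (nc f T)) := by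
  funext a b c d
  unfold nc Q1 Q2 js
  simp only [J_frame f J hJ2 hf]
  split_ifs <;> (try simp only [neg1 hT, neg2 hT, neg3 hT, neg4 hT]) <;> push_cast <;> ring

lemma nc_13 (f : I6 → V) {J : V →ₗ[ℝ] V} (hJ2 : ∀ x, J (J x) = -x)
    (hf : ∀ b, f (b, true) = J (f (b, false))) {T : V → V → V → V → ℝ} (hT : AlgCurv T) :
    nc f (fun x y z w => T (J x) y (J z) w) = Q1 (Q3 (nc f T)) := by
  funext a b c d
  unfold nc Q1 Q3 js
  simp only [J_frame f J hJ2 hf]
  split_ifs <;> (try simp only [neg1 hT, neg2 hT, neg3 hT, neg4 hT]) <;> push_cast <;> ring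

lemma nc_14 (f : I6 → V) {J : V →ₗ[ℝ] V} (hJ2 : ∀ x, J (J x) = -x)
    (hf : ∀ b, f (b, true) = J (f (b, false))) {T : V → V → V → V → ℝ} (hT : AlgCurv T) :
    nc f (fun x y z w => T (J x) y z (J w)) = Q1 (Q4 (nc f T)) := by
  funext a b c d
  unfold nc Q1 Q4 js
  simp only [J_frame f J hJ2 hf]
  split_ifs <;> (try simp only [neg1 hT, neg2 hT, neg3 hT, neg4 hT]) <;> push_cast <;> ring

lemma eig_third (f : I6 → V) {J : V →ₗ[ℝ] V} (hJ : OrthCx J)
    (hf : ∀ b, f (b, true) = J (f (b, false))) {T : V → V → V → V → ℝ} (hT : AlgCurv T)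
    (h : GrayThird T J) (i j k l : I6) : Hc MJ (nc f T) i j k l =
      lam i * lam j * (conj (lam k) * conj (lam l)) * Hc MJ (nc f T) i j k l := by
  have e : nc f T = Q1 (Q2 (Q3 (Q4 (nc f T)))) := by
    rw [← nc_1234 f hJ.sq hf hT]
    congr 1
    funext x y z w
    exact (h x y z w).symm
  conv_lhs => rw [e]
  rw [Hc_Q1, Hc_Q2, Hc_Q3, Hc_Q4]
  ring

lemma Hc_add3 (M : Matrix I6 I6 ℂ) (A B C : H6) (i j k l : I6) :
    Hc M (fun a b c d => A a b c d + B a b c d + C a b c d) i j k l =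
      Hc M A i j k l + Hc M B i j k l + Hc M C i j k l := by
  unfold Hc
  simp only [add_mul, Finset.sum_add_distrib]

lemma eig_second (f : I6 → V) {J : V →ₗ[ℝ] V} (hJ : OrthCx J)
    (hf : ∀ b, f (b, true) = J (f (b, false))) {T : V → V → V → V → ℝ} (hT : AlgCurv T)
    (h : GraySecond T J) (i j k l : I6) : Hc MJ (nc f T) i j k l =
      (lam i * lam j + lam i * conj (lam k) + lam i * conj (lam l)) *
        Hc MJ (nc f T) i j k l := by
  have e : nc f T = fun a b c d => Q1 (Q2 (nc f T)) a b c d + Q1 (Q3 (nc f T)) a b c d +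
      Q1 (Q4 (nc f T)) a b c d := by
    rw [← nc_12 f hJ.sq hf hT, ← nc_13 f hJ.sq hf hT, ← nc_14 f hJ.sq hf hT]
    funext a b c d
    unfold nc
    rw [h (f a) (f b) (f c) (f d)]
    push_cast
    ring
  conv_lhs => rw [e]
  rw [Hc_add3, Hc_Q1, Hc_Q2, Hc_Q1, Hc_Q3, Hc_Q1, Hc_Q4]
  ring

lemma zero_of_eig {c z : ℂ} (h : z = c * z) (hc : c ≠ 1) : z = 0 := by
  have h1 : (1 - c) * z = 0 := by linear_combination h
  rcases mul_eq_zero.1 h1 with h2 | h2
  · exact absurd (by linear_combination -h2) hc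
  · exact h2

/-- coordinates of a vector of type `(1,0)` -/
lemma vc_f (f : I6 → V) {J : V →ₗ[ℝ] V} (hJ : OrthCx J)
    (hf : ∀ b, f (b, true) = J (f (b, false))) (z : I6 → ℂ) (hz : ∀ a, z (a, true) = 0) :
    vc f (fun a => (MJ.mulVec z a).im) = -J (vc f (fun a => (MJ.mulVec z a).re)) := by
  have hv : ∀ b c, MJ.mulVec z (b, c) = MJ (b, c) (b, false) * z (b, false) := by
    intro b c
    unfold Matrix.mulVec dotProduct
    rw [Fintype.sum_prod_type, Finset.sum_eq_single b]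
    · rw [Fintype.sum_bool, hz, mul_zero, zero_add]
    · intro a _ ha
      rw [Fintype.sum_bool, hz]
      simp [MJ, ha.symm]
    · simp
  have h := vcJ f J hJ.sq hf (fun a => (MJ.mulVec z a).re) (fun a => -(MJ.mulVec z a).im) ?_ ?_
  · rw [← h]
    unfold vc
    rw [← Finset.sum_neg_distrib]
    refine Finset.sum_congr rfl fun i _ => ?_
    rw [neg_smul, neg_neg]
  · intro b
    simp only [hv]
    simp [MJ, rt]
  · intro b
    simp only [hv]
    simp [MJ, rt]

/-- coordinates of a vector of type `(0,1)` -/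
lemma vc_t (f : I6 → V) {J : V →ₗ[ℝ] V} (hJ : OrthCx J)
    (hf : ∀ b, f (b, true) = J (f (b, false))) (z : I6 → ℂ) (hz : ∀ a, z (a, false) = 0) :
    vc f (fun a => (MJ.mulVec z a).im) = J (vc f (fun a => (MJ.mulVec z a).re)) := by
  have hv : ∀ b c, MJ.mulVec z (b, c) = MJ (b, c) (b, true) * z (b, true) := by
    intro b c
    unfold Matrix.mulVec dotProduct
    rw [Fintype.sum_prod_type, Finset.sum_eq_single b]
    · rw [Fintype.sum_bool, hz, mul_zero, add_zero]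
    · intro a _ ha
      rw [Fintype.sum_bool, hz]
      simp [MJ, ha.symm]
    · simp
  refine vcJ f J hJ.sq hf (fun a => (MJ.mulVec z a).re) (fun a => (MJ.mulVec z a).im) ?_ ?_
  · intro b
    simp only [hv]
    simp [MJ, rt]
  · intro b
    simp only [hv]
    simp [MJ, rt]

lemma val_ft (f : I6 → V) {J : V →ₗ[ℝ] V} (hJ : OrthCx J)
    (hf : ∀ b, f (b, true) = J (f (b, false))) {T : V → V → V → V → ℝ} (hT : AlgCurv T)
    (h3 : GrayThird T J) (hM : MixedNonpos T J) (z w : I6 → ℂ) (hz : ∀ a, z (a, true) = 0)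
    (hw : ∀ a, w (a, false) = 0) : 0 ≤ (qf (Hc MJ (nc f T)) z w).re := by
  rw [qf_Hc, qf_nc f hT, vc_f f hJ hf z hz, vc_t f hJ hf w hw, cxs_mixed hT hJ h3]
  have := hM (vc f fun a => (MJ.mulVec z a).re) (vc f fun a => (MJ.mulVec w a).re)
  linarith

lemma cxs_neg {T : V → V → V → V → ℝ} (hT : AlgCurv T) (x y u v : V) :
    cxs T x (-y) u (-v) = cxs T x y u v := by
  simp only [cxs, neg1 hT, neg2 hT, neg3 hT, neg4 hT]
  ring

lemma val_ff (f : I6 → V) {J : V →ₗ[ℝ] V} (hJ : OrthCx J)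
    (hf : ∀ b, f (b, true) = J (f (b, false))) {T : V → V → V → V → ℝ} (hT : AlgCurv T)
    (h3 : GrayThird T J) (hB : BiNonpos T J) (z w : I6 → ℂ) (hz : ∀ a, z (a, true) = 0)
    (hw : ∀ a, w (a, true) = 0) : 0 ≤ (qf (Hc MJ (nc f T)) z w).re := by
  rw [qf_Hc, qf_nc f hT, vc_f f hJ hf z hz, vc_f f hJ hf w hw, cxs_neg hT, cxs_same hT hJ h3]
  have := hB (vc f fun a => (MJ.mulVec z a).re) (vc f fun a => (MJ.mulVec w a).re)
  have h4 := neg_abs_le (T (vc f fun a => (MJ.mulVec z a).re) (J (vc f fun a => (MJ.mulVec z a).re))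
    (vc f fun a => (MJ.mulVec w a).re) (J (vc f fun a => (MJ.mulVec w a).re)))
  linarith

lemma val_tt (f : I6 → V) {J : V →ₗ[ℝ] V} (hJ : OrthCx J)
    (hf : ∀ b, f (b, true) = J (f (b, false))) {T : V → V → V → V → ℝ} (hT : AlgCurv T)
    (h3 : GrayThird T J) (hB : BiNonpos T J) (z w : I6 → ℂ) (hz : ∀ a, z (a, false) = 0)
    (hw : ∀ a, w (a, false) = 0) : 0 ≤ (qf (Hc MJ (nc f T)) z w).re := by
  rw [qf_Hc, qf_nc f hT, vc_t f hJ hf z hz, vc_t f hJ hf w hw, cxs_same hT hJ h3]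
  have := hB (vc f fun a => (MJ.mulVec z a).re) (vc f fun a => (MJ.mulVec w a).re)
  have h4 := neg_abs_le (T (vc f fun a => (MJ.mulVec z a).re) (J (vc f fun a => (MJ.mulVec z a).re))
    (vc f fun a => (MJ.mulVec w a).re) (J (vc f fun a => (MJ.mulVec w a).re)))
  linarith

end

end Pool.Agent.T9h14.GP
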