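import Pool.Agent.T9h14.GP.JMain2
import Pool.Agent.T9h14.GP.Hand1

/-!
# Almost Hermitian curvature tensors in dimension six: the classes
-/

set_option autoImplicit false

namespace Pool.Agent.T9h14.GP

open Finset MeasureTheory Module
open Pool.Agent.W666.GB Pool.Agent.TH598.GV Pool.Agent.R735.HA
open scoped ComplexConjugate ComplexOrder

lemma blk_third {H : H6} (h : ∀ i j k l, H i j k l =
      lam i * lam j * (conj (lam k) * conj (lam l)) * H i j k l) (i j k l : I6)
    (hc : i.2 = j.2 ↔ k.2 ≠ l.2) : H i j k l = 0 := by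
  refine zero_of_eig (h i j k l) ?_
  obtain ⟨i, a⟩ := i
  obtain ⟨j, b⟩ := j
  obtain ⟨k, c⟩ := k
  obtain ⟨l, d⟩ := l
  have e : Complex.I * Complex.I = -1 := Complex.I_mul_I
  cases a <;> cases b <;> cases c <;> cases d <;> simp [lam, e] at hc ⊢ <;> norm_num

lemma blk_second {H : H6} (h : ∀ i j k l, H i j k l =
      (lam i * lam j + lam i * conj (lam k) + lam i * conj (lam l)) * H i j k l) (i j k l : I6)
    (hc : i.2 = j.2) (hc' : k.2 = l.2) (hc2 : i.2 ≠ k.2) : H i j k l = 0 := by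
  refine zero_of_eig (h i j k l) ?_
  obtain ⟨i, a⟩ := i
  obtain ⟨j, b⟩ := j
  obtain ⟨k, c⟩ := k
  obtain ⟨l, d⟩ := l
  have e : Complex.I * Complex.I = -1 := Complex.I_mul_I
  cases a <;> cases b <;> cases c <;> cases d <;> simp [lam, e] at hc hc' hc2 ⊢ <;> norm_num

/-- three components: every bivector is decomposable -/
lemma dec3c (r : Fin 3 → Fin 3 → ℂ) : ∃ z w : Fin 3 → ℂ, ∀ i j,
    r i j - r j i = z i * w j - z j * w i := by
  by_cases h : r 0 1 - r 1 0 = 0
  · refine ⟨![r 0 2 - r 2 0, r 1 2 - r 2 1, 0], ![0, 0, 1], ?_⟩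
    intro i j
    fin_cases i <;> fin_cases j <;> simp <;>
      (first | ring1 | linear_combination h | linear_combination -h)
  · refine ⟨![1, 0, -((r 1 2 - r 2 1) / (r 0 1 - r 1 0))], ![0, r 0 1 - r 1 0, r 0 2 - r 2 0], ?_⟩
    intro i j
    fin_cases i <;> fin_cases j <;> simp <;> field_simp <;> ring

/-- positivity on the bivectors of one side -/
lemma side_nonneg {H : H6} (hH : HS H) (s : Bool)
    (hq : ∀ z w : I6 → ℂ, (∀ a, z (a, !s) = 0) → (∀ a, w (a, !s) = 0) → 0 ≤ (qf H z w).re)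
    (p : I6 → I6 → ℂ) (hp : ∀ i j, i.2 = !s → p i j = 0) (hp' : ∀ i j, j.2 = !s → p i j = 0) :
    0 ≤ (Sf H p p).re := by
  obtain ⟨z, w, h⟩ := dec3c (fun i j => p (i, s) (j, s))
  obtain ⟨z', hz'⟩ : ∃ z' : I6 → ℂ, ∀ i, z' i = if i.2 = s then z i.1 else 0 := ⟨_, fun _ => rfl⟩
  obtain ⟨w', hw'⟩ : ∃ w' : I6 → ℂ, ∀ i, w' i = if i.2 = s then w i.1 else 0 := ⟨_, fun _ => rfl⟩
  have e : Sf H p p = qf H z' w' := by
    rw [← Sf_qf]
    refine Sf_congr hH _ _ fun i j => ?_
    obtain ⟨i, a⟩ := i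
    obtain ⟨j, b⟩ := j
    by_cases ha : a = s
    · by_cases hb : b = s
      · subst ha
        subst hb
        have := h i j
        simp only [hz', hw', if_true]
        exact this
      · have hb' : b = !s := by cases b <;> cases s <;> simp_all
        rw [hp' (i, a) (j, b) hb', hp (j, b) (i, a) hb']
        simp [hz', hw', hb]
    · have ha' : a = !s := by cases a <;> cases s <;> simp_all
      rw [hp (i, a) (j, b) ha', hp' (j, b) (i, a) ha']
      simp [hz', hw', ha]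
  rw [e]
  refine hq z' w' (fun a => ?_) (fun a => ?_)
  · rw [hz', if_neg]
    cases s <;> simp
  · rw [hw', if_neg]
    cases s <;> simp

lemma op_sides {H : H6} (hH : HS H) (h0 : ∀ i j k l : I6, i.2 = j.2 → k.2 = l.2 → i.2 ≠ k.2 →
      H i j k l = 0)
    (hq : ∀ (s : Bool) (z w : I6 → ℂ), (∀ a, z (a, !s) = 0) → (∀ a, w (a, !s) = 0) →
      0 ≤ (qf H z w).re)
    (p : I6 → I6 → ℂ) (hp : ∀ i j, i.2 ≠ j.2 → p i j = 0) : 0 ≤ (Sf H p p).re := by
  obtain ⟨P, hP⟩ : ∃ P : Bool → I6 → I6 → ℂ, ∀ s i j, P s i j =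
      if i.2 = s ∧ j.2 = s then p i j else 0 := ⟨_, fun _ _ _ => rfl⟩
  have e : Sf H p p = Sf H (P false) (P false) + Sf H (P true) (P true) := by
    unfold Sf
    simp only [← Finset.sum_add_distrib]
    refine Finset.sum_congr rfl fun i _ => Finset.sum_congr rfl fun j _ =>
      Finset.sum_congr rfl fun k _ => Finset.sum_congr rfl fun l _ => ?_
    simp only [hP]
    by_cases h1 : i.2 = j.2
    · by_cases h2 : k.2 = l.2
      · by_cases h3 : i.2 = k.2
        · cases h4 : i.2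
          · have h5 : j.2 = false := h1 ▸ h4
            have h6 : k.2 = false := h3 ▸ h4
            have h7 : l.2 = false := h2 ▸ h6
            simp [h5, h6, h7]
          · have h5 : j.2 = true := h1 ▸ h4
            have h6 : k.2 = true := h3 ▸ h4
            have h7 : l.2 = true := h2 ▸ h6
            simp [h5, h6, h7]
        · rw [h0 i j k l h1 h2 h3]
          ring
      · rw [hp k l h2]
        simp
    · rw [hp i j h1]
      simp
  rw [e, Complex.add_re]
  have k : ∀ s, 0 ≤ (Sf H (P s) (P s)).re := fun s =>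
    side_nonneg hH s (hq s) (P s)
      (fun i j h => by
        rw [hP, if_neg]
        rintro ⟨h1, _⟩
        rw [h1] at h
        cases s <;> simp at h)
      (fun i j h => by
        rw [hP, if_neg]
        rintro ⟨_, h1⟩
        rw [h1] at h
        cases s <;> simp at h)
  exact add_nonneg (k false) (k true)

section

variable {V : Type} [NormedAddCommGroup V] [InnerProductSpace ℝ V]

/-- the sum over an anti-invariant array -/
lemma anti_sum (f : I6 → V) {J : V →ₗ[ℝ] V} (hJ2 : ∀ x, J (J x) = -x)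
    (hf : ∀ b, f (b, true) = J (f (b, false))) (r : I6 → I6 → ℝ)
    (hr : ∀ i j : I6, (if (jj i).2 then -1 else (1 : ℝ)) * (if (jj j).2 then -1 else (1 : ℝ)) *
      r (jj i) (jj j) = -r i j) (F : V → V → ℝ) (h1 : ∀ x y, F (-x) y = -F x y)
    (h2 : ∀ x y, F x (-y) = -F x y) :
    ∑ a, ∑ b, r a b * F (J (f a)) (J (f b)) = -∑ a, ∑ b, r a b * F (f a) (f b) := by
  rw [← Equiv.sum_comp je, ← Finset.sum_neg_distrib]
  refine Finset.sum_congr rfl fun a _ => ?_
  rw [← Equiv.sum_comp je, ← Finset.sum_neg_distrib]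
  refine Finset.sum_congr rfl fun b _ => ?_
  have e1 : je a = jj a := rfl
  have e2 : je b = jj b := rfl
  have e3 : ∀ i, J (f (jj i)) = (if (jj i).2 then -1 else (1 : ℝ)) • f i := by
    intro i
    rw [J_frame f J hJ2 hf (jj i), jj_jj]
    split_ifs <;> simp
  rw [e1, e2, e3, e3]
  have h := hr a b
  have e4 : ∀ (x y : V) (c d : Prop) [Decidable c] [Decidable d],
      F ((if c then -1 else (1 : ℝ)) • x) ((if d then -1 else (1 : ℝ)) • y) =
      (if c then -1 else (1 : ℝ)) * (if d then -1 else (1 : ℝ)) * F x y := by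
    intro x y c d _ _
    split_ifs <;> simp [h1, h2]
  rw [e4]
  linear_combination (F (f a) (f b)) * h

/-- the real frame and an anti-invariant array -/
lemma QQ_anti (f : I6 → V) {J : V →ₗ[ℝ] V} (hJ : OrthCx J)
    (hf : ∀ b, f (b, true) = J (f (b, false))) {T : V → V → V → V → ℝ} (hT : AlgCurv T)
    (hO : OpAnti T J) (r : I6 → I6 → ℝ)
    (hr : ∀ i j : I6, (if (jj i).2 then -1 else (1 : ℝ)) * (if (jj j).2 then -1 else (1 : ℝ)) *
      r (jj i) (jj j) = -r i j) :
    0 ≤ Pool.Agent.TH828.J3423.QQ (fun a b c d => -T (f a) (f b) (f c) (f d)) r r := by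
  obtain ⟨S, hS⟩ : ∃ S : ℝ, S = ∑ a, ∑ b, r a b * ∑ c, ∑ d, r c d * T (f a) (f b) (f c) (f d) :=
    ⟨_, rfl⟩
  have hQ : Pool.Agent.TH828.J3423.QQ (fun a b c d => -T (f a) (f b) (f c) (f d)) r r = -S := by
    rw [hS]
    unfold Pool.Agent.TH828.J3423.QQ
    simp only [Finset.mul_sum, ← Finset.sum_neg_distrib]
    refine Finset.sum_congr rfl fun a _ => Finset.sum_congr rfl fun b _ =>
      Finset.sum_congr rfl fun c _ => Finset.sum_congr rfl fun d _ => by ring
  have A := fun (F : V → V → ℝ) h1 h2 => anti_sum f hJ.sq hf r hr F h1 h2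
  -- the four sums
  have s2 : ∑ a, ∑ b, r a b * ∑ c, ∑ d, r c d * T (f a) (f b) (J (f c)) (J (f d)) = -S := by
    rw [hS]
    have : ∀ a b, ∑ c, ∑ d, r c d * T (f a) (f b) (J (f c)) (J (f d)) =
        -∑ c, ∑ d, r c d * T (f a) (f b) (f c) (f d) := fun a b =>
      A (fun u v => T (f a) (f b) u v) (fun u v => neg3 hT _ _ _ _) (fun u v => neg4 hT _ _ _ _)
    simp only [this, mul_neg, Finset.sum_neg_distrib]
  have s3 : ∑ a, ∑ b, r a b * ∑ c, ∑ d, r c d * T (J (f a)) (J (f b)) (f c) (f d) = -S := by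
    rw [hS]
    exact A (fun u v => ∑ c, ∑ d, r c d * T u v (f c) (f d))
      (fun u v => by simp only [neg1 hT, mul_neg, Finset.sum_neg_distrib])
      (fun u v => by simp only [neg2 hT, mul_neg, Finset.sum_neg_distrib])
  have s4 : ∑ a, ∑ b, r a b * ∑ c, ∑ d, r c d * T (J (f a)) (J (f b)) (J (f c)) (J (f d)) = S := by
    have : ∀ a b, ∑ c, ∑ d, r c d * T (J (f a)) (J (f b)) (J (f c)) (J (f d)) =
        -∑ c, ∑ d, r c d * T (J (f a)) (J (f b)) (f c) (f d) := fun a b =>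
      A (fun u v => T (J (f a)) (J (f b)) u v) (fun u v => neg3 hT _ _ _ _)
        (fun u v => neg4 hT _ _ _ _)
    simp only [this, mul_neg, Finset.sum_neg_distrib]
    rw [s3, neg_neg]
  -- the hypothesis
  obtain ⟨g⟩ : Nonempty (I6 × I6 ≃ Fin (Fintype.card (I6 × I6))) := ⟨Fintype.equivFin _⟩
  have h := hO _ (fun n => r (g.symm n).1 (g.symm n).2 • f (g.symm n).1) (fun n => f (g.symm n).2)
  rw [Equiv.sum_comp g.symm (fun p : I6 × I6 => ∑ n, (T (r p.1 p.2 • f p.1) (f p.2)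
    (r (g.symm n).1 (g.symm n).2 • f (g.symm n).1) (f (g.symm n).2) -
    T (r p.1 p.2 • f p.1) (f p.2) (J (r (g.symm n).1 (g.symm n).2 • f (g.symm n).1))
      (J (f (g.symm n).2)) - T (J (r p.1 p.2 • f p.1)) (J (f p.2))
      (r (g.symm n).1 (g.symm n).2 • f (g.symm n).1) (f (g.symm n).2) +
    T (J (r p.1 p.2 • f p.1)) (J (f p.2)) (J (r (g.symm n).1 (g.symm n).2 • f (g.symm n).1))
      (J (f (g.symm n).2))))] at h
  have h2 : ∀ p : I6 × I6, ∑ n, (T (r p.1 p.2 • f p.1) (f p.2)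
    (r (g.symm n).1 (g.symm n).2 • f (g.symm n).1) (f (g.symm n).2) -
    T (r p.1 p.2 • f p.1) (f p.2) (J (r (g.symm n).1 (g.symm n).2 • f (g.symm n).1))
      (J (f (g.symm n).2)) - T (J (r p.1 p.2 • f p.1)) (J (f p.2))
      (r (g.symm n).1 (g.symm n).2 • f (g.symm n).1) (f (g.symm n).2) +
    T (J (r p.1 p.2 • f p.1)) (J (f p.2)) (J (r (g.symm n).1 (g.symm n).2 • f (g.symm n).1))
      (J (f (g.symm n).2))) = ∑ q : I6 × I6, r p.1 p.2 * (r q.1 q.2 *
      (T (f p.1) (f p.2) (f q.1) (f q.2) - T (f p.1) (f p.2) (J (f q.1)) (J (f q.2)) -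
      T (J (f p.1)) (J (f p.2)) (f q.1) (f q.2) +
      T (J (f p.1)) (J (f p.2)) (J (f q.1)) (J (f q.2)))) := by
    intro p
    rw [Equiv.sum_comp g.symm (fun q : I6 × I6 => (T (r p.1 p.2 • f p.1) (f p.2)
      (r q.1 q.2 • f q.1) (f q.2) - T (r p.1 p.2 • f p.1) (f p.2) (J (r q.1 q.2 • f q.1))
      (J (f q.2)) - T (J (r p.1 p.2 • f p.1)) (J (f p.2)) (r q.1 q.2 • f q.1) (f q.2) +
      T (J (r p.1 p.2 • f p.1)) (J (f p.2)) (J (r q.1 q.2 • f q.1)) (J (f q.2))))]
    refine Finset.sum_congr rfl fun q _ => ?_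
    have c3 : ∀ (c : ℝ) (x y z w : V), T x y (c • z) w = c * T x y z w := by
      intro c x y z w
      rw [hT.pair, hT.smul, hT.pair]
    simp only [map_smul, hT.smul, c3]
    ring
  simp only [h2] at h
  have h3 : ∑ p : I6 × I6, ∑ q : I6 × I6, r p.1 p.2 * (r q.1 q.2 *
      (T (f p.1) (f p.2) (f q.1) (f q.2) - T (f p.1) (f p.2) (J (f q.1)) (J (f q.2)) -
      T (J (f p.1)) (J (f p.2)) (f q.1) (f q.2) +
      T (J (f p.1)) (J (f p.2)) (J (f q.1)) (J (f q.2)))) = S - (-S) - (-S) + S := by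
    have e1 : ∑ p : I6 × I6, ∑ q : I6 × I6, r p.1 p.2 * (r q.1 q.2 *
        (T (f p.1) (f p.2) (f q.1) (f q.2) - T (f p.1) (f p.2) (J (f q.1)) (J (f q.2)) -
        T (J (f p.1)) (J (f p.2)) (f q.1) (f q.2) +
        T (J (f p.1)) (J (f p.2)) (J (f q.1)) (J (f q.2)))) =
        ∑ a, ∑ b, r a b * ∑ c, ∑ d, r c d * T (f a) (f b) (f c) (f d) -
        ∑ a, ∑ b, r a b * ∑ c, ∑ d, r c d * T (f a) (f b) (J (f c)) (J (f d)) -
        ∑ a, ∑ b, r a b * ∑ c, ∑ d, r c d * T (J (f a)) (J (f b)) (f c) (f d) +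
        ∑ a, ∑ b, r a b * ∑ c, ∑ d, r c d * T (J (f a)) (J (f b)) (J (f c)) (J (f d)) := by
      simp only [Fintype.sum_prod_type, Finset.mul_sum, ← Finset.sum_sub_distrib,
        ← Finset.sum_add_distrib]
      refine Finset.sum_congr rfl fun a _ => Finset.sum_congr rfl fun b _ =>
        Finset.sum_congr rfl fun c _ => Finset.sum_congr rfl fun d _ => by ring
    rw [e1, s2, s3, s4, ← hS]
  rw [h3] at h
  rw [hQ]
  linarith

/-- the curvature operator on the bivectors of one side -/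
lemma op_third (f : I6 → V) {J : V →ₗ[ℝ] V} (hJ : OrthCx J)
    (hf : ∀ b, f (b, true) = J (f (b, false))) {T : V → V → V → V → ℝ} (hT : AlgCurv T)
    (hO : OpAnti T J) (p : I6 → I6 → ℂ) (hp : ∀ i j : I6, i.2 ≠ j.2 → p i j = 0) :
    0 ≤ (Sf (Hc MJ (nc f T)) p p).re := by
  obtain ⟨P, hP⟩ : ∃ P : I6 → I6 → ℂ, P = fun a b =>
      ∑ x : I6 × I6, p x.1 x.2 * (MJ a x.1 * MJ b x.2) := ⟨_, rfl⟩
  rw [Sf_Hc, ← hP, Sf_nc]
  have key : ∀ i j, js (jj i) * js (jj j) * P (jj i) (jj j) = -P i j := by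
    intro i j
    rw [hP]
    simp only [Finset.mul_sum, ← Finset.sum_neg_distrib]
    refine Finset.sum_congr rfl fun x _ => ?_
    have h1 := MJ_eig i x.1
    have h2 := MJ_eig j x.2
    have h3 : p x.1 x.2 * (lam x.1 * lam x.2) = -p x.1 x.2 := by
      by_cases h : x.1.2 = x.2.2
      · have e : Complex.I * Complex.I = -1 := Complex.I_mul_I
        have h4 : lam x.1 * lam x.2 = -1 := by
          unfold lam
          rw [h]
          split_ifs
          · linear_combination e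
          · exact e
        rw [h4]
        ring
      · rw [hp _ _ h]
        ring
    linear_combination (p x.1 x.2 * js (jj j) * MJ (jj j) x.2) * h1 +
      (p x.1 x.2 * lam x.1 * MJ i x.1) * h2 + (MJ i x.1 * MJ j x.2) * h3
  have hjs : ∀ i, js i = (((if i.2 then -1 else 1) : ℝ) : ℂ) := by
    intro i
    unfold js
    split_ifs <;> push_cast <;> rfl
  refine add_nonneg (QQ_anti f hJ hf hT hO _ fun i j => ?_) (QQ_anti f hJ hf hT hO _ fun i j => ?_)
  · have h := congrArg Complex.re (key i j)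
    rw [hjs, hjs, ← Complex.ofReal_mul, Complex.re_ofReal_mul, Complex.neg_re] at h
    exact h
  · have h := congrArg Complex.im (key i j)
    rw [hjs, hjs, ← Complex.ofReal_mul, Complex.im_ofReal_mul, Complex.neg_im] at h
    exact h

/-- the class: Gray's third identity -/
lemma cls_third (f : I6 → V) {J : V →ₗ[ℝ] V} (hJ : OrthCx J)
    (hf : ∀ b, f (b, true) = J (f (b, false))) {T : V → V → V → V → ℝ} (hT : AlgCurv T)
    (h3 : GrayThird T J) (hM : MixedNonpos T J) (hO : OpAnti T J) : Cls (Hc MJ (nc f T)) where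
  hs := Hc_HS MJ (nc_HS f hT)
  blk := blk_third (eig_third f hJ hf hT h3)
  mix := val_ft f hJ hf hT h3 hM
  op := op_third f hJ hf hT hO

/-- the class: Gray's second identity -/
lemma cls_second (f : I6 → V) {J : V →ₗ[ℝ] V} (hJ : OrthCx J)
    (hf : ∀ b, f (b, true) = J (f (b, false))) {T : V → V → V → V → ℝ} (hT : AlgCurv T)
    (h2 : GraySecond T J) (hB : BiNonpos T J) : Cls (Hc MJ (nc f T)) where
  hs := Hc_HS MJ (nc_HS f hT)
  blk := blk_third (eig_third f hJ hf hT (third_of_second hT hJ h2))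
  mix := val_ft f hJ hf hT (third_of_second hT hJ h2) (fun x y => by
    have h := hB x y
    have h4 := le_abs_self (T x (J x) y (J y))
    linarith)
  op := op_sides (Hc_HS MJ (nc_HS f hT)) (blk_second (eig_second f hJ hf hT h2)) (fun s => by
    cases s
    · exact val_ff f hJ hf hT (third_of_second hT hJ h2) hB
    · exact val_tt f hJ hf hT (third_of_second hT hJ h2) hB)

/-- The curvature tensor `R` is invariant under the orthogonal complex structure `J`, and with
`T = R + κ` (the difference of `R` and the tensor of constant curvature `-κ`) one of the following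
holds: (i) Gray's third identity, `MixedNonpos T` and `OpAnti T`; (ii) Gray's second identity and
`BiNonpos T`. -/
def HermType {V : Type} [NormedAddCommGroup V] [InnerProductSpace ℝ V]
    (R : V → V → V → V → ℝ) (κ : ℝ) (J : V →ₗ[ℝ] V) : Prop :=
  OrthCx J ∧ ((GrayThird R J ∧ MixedNonpos (shiftT R κ) J ∧ OpAnti (shiftT R κ) J) ∨
    (GraySecond R J ∧ BiNonpos (shiftT R κ) J))

theorem point_herm (e : OrthonormalBasis (Fin 3 × Bool) ℝ V) {R : V → V → V → V → ℝ}
    (hR : AlgCurv R) {κ : ℝ} (hκ : 0 ≤ κ) (J : V →ₗ[ℝ] V)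
    (h : HermType R κ J) : roundGB 3 κ ≤ (-1) ^ 3 * gbc e R := by
  obtain ⟨hJ, h⟩ := h
  obtain ⟨f, hf⟩ := adapted_J e J hJ.sq hJ.orth
  rw [Pool.Agent.W688.HD.bas 3 V e f R hR]
  refine point_cls f hκ MJ MJ_unit ?_
  rcases h with ⟨h1, h2, h3⟩ | ⟨h1, h2⟩
  · exact cls_third f hJ hf (shift_curv hR κ) (shift_third hJ h1 κ) h2 h3
  · exact cls_second f hJ hf (shift_curv hR κ) (shift_second hJ h1 κ) h2

end

end Pool.Agent.T9h14.GP
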