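import Pool.Agent.T9h14.GP.JMain3

/-!
# Almost Hermitian curvature tensors in dimension six: integrated form and sums with squares
-/

set_option autoImplicit false

namespace Pool.Agent.T9h14.GP

open Finset MeasureTheory Module
open Pool.Agent.W666.GB Pool.Agent.TH598.GV
open Pool.Agent.W669.HD (addT unitT)
open Pool.Agent.Y519.HB

section

variable {V : Type} [NormedAddCommGroup V] [InnerProductSpace ℝ V]

theorem herm_squares (e : OrthonormalBasis (Fin 3 × Bool) ℝ V) {S T : V → V → V → V → ℝ}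
    (hS : AlgCurv S) (J : V →ₗ[ℝ] V) (h : HermType S 0 J)
    (hs : ∀ a b, S a b a b ≤ 0) {δ : ℝ} (hδ : 0 ≤ δ) {n : ℕ} {x y : Fin n → V}
    (hT : ∀ a b c d, T a b c d = - (∑ k, sqDec (x k) (y k) a b c d) - δ * unitT a b c d) :
    roundGB 3 δ ≤ (-1) ^ 3 * gbc e (addT S T) := by
  have h1 := six_super e hδ hS hs hT
  have h2 := point_herm e hS le_rfl J h
  have h3 : roundGB 3 0 = 0 := by
    unfold roundGB
    simp
  rw [h3] at h2
  have h4 : (-1 : ℝ) ^ 3 = -1 := by norm_num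
  rw [h4] at h2 ⊢
  linarith [h1.1, h1.2]

end

variable {M : Type} [MeasurableSpace M]

/-- the integrated form -/
theorem field_herm (μ : Measure M) (K : CurvField 3 M) (κ : M → ℝ)
    (J : ∀ p, K.V p →ₗ[ℝ] K.V p)
    (h : ∀ p, 0 ≤ κ p ∧ HermType (K.R p) (κ p) (J p)) :
    0 ≤ (-1) ^ 3 * ∫ p, K.gb p ∂μ ∧
    (Integrable K.gb μ → Integrable (fun p => roundGB 3 (κ p)) μ →
      ∫ p, roundGB 3 (κ p) ∂μ ≤ (-1) ^ 3 * ∫ p, K.gb p ∂μ) := by
  have h0 : ∀ p, roundGB 3 (κ p) ≤ (-1) ^ 3 * K.gb p := by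
    intro p
    obtain ⟨h1, h2⟩ := h p
    exact point_herm (K.e p) (K.curv p) h1 (J p) h2
  have h1 : ∀ p, 0 ≤ (-1) ^ 3 * K.gb p := fun p => (roundGB_nonneg' 3 (h p).1).trans (h0 p)
  refine ⟨?_, fun hi hi' => ?_⟩
  · rw [← integral_const_mul]
    exact integral_nonneg h1
  · rw [← integral_const_mul]
    exact integral_mono hi' (hi.const_mul _) h0

end Pool.Agent.T9h14.GP
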