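import Pool.Agent.T9h14.GP.Traces
import Pool.Agent.TH914.J3414

/-!
# The double alternating sum as a Gaussian integral
-/

set_option autoImplicit false

namespace Pool.Agent.T9h14.GP

open Finset MeasureTheory
open Pool.Agent.TH598.GV (gw)
open Pool.Agent.TH914.GVC
open scoped ComplexConjugate

/-- Wick's formula for a general tensor -/
theorem wickT {S : Type} [Fintype S] [DecidableEq S] (n : ℕ)
    (T : (Fin n → S) → (Fin n → S) → ℂ) :
    Integrable (fun ξ : S → ℂ =>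
      (∑ a, ∑ b, T a b * ((∏ i, ξ (a i)) * conj (∏ i, ξ (b i)))) * (gw ξ : ℂ)) ∧
    ∫ ξ : S → ℂ, (∑ a, ∑ b, T a b * ((∏ i, ξ (a i)) * conj (∏ i, ξ (b i)))) * (gw ξ : ℂ) =
      (Real.pi : ℂ) ^ Fintype.card S * ∑ π : Equiv.Perm (Fin n), ∑ a, T a (a ∘ π) := by
  have e1 : ∀ ξ : S → ℂ,
      (∑ a, ∑ b, T a b * ((∏ i, ξ (a i)) * conj (∏ i, ξ (b i)))) * (gw ξ : ℂ) =
      ∑ a : Fin n → S, ∑ b : Fin n → S, T a b *
        ((∏ s, ξ s ^ mult a s) * conj (∏ s, ξ s ^ mult b s) * (gw ξ : ℂ)) := by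
    intro ξ
    rw [Finset.sum_mul]
    refine sum_congr rfl fun a _ => ?_
    rw [Finset.sum_mul]
    refine sum_congr rfl fun b _ => ?_
    rw [prod_mult a, prod_mult b]
    ring
  have hi : ∀ a b : Fin n → S, Integrable (fun ξ : S → ℂ => T a b *
      ((∏ s, ξ s ^ mult a s) * conj (∏ s, ξ s ^ mult b s) * (gw ξ : ℂ))) :=
    fun a b => (mono_integrable _ _).const_mul _
  simp only [e1]
  refine ⟨integrable_finsetSum _ fun a _ => integrable_finsetSum _ fun b _ => hi a b, ?_⟩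
  rw [integral_finsetSum _ (fun a _ => integrable_finsetSum _ fun b _ => hi a b)]
  have h2 : ∀ a, ∫ ξ : S → ℂ, ∑ b : Fin n → S, T a b *
        ((∏ s, ξ s ^ mult a s) * conj (∏ s, ξ s ^ mult b s) * (gw ξ : ℂ)) =
      (Real.pi : ℂ) ^ Fintype.card S * ∑ π : Equiv.Perm (Fin n), T a (a ∘ π) := by
    intro a
    rw [integral_finsetSum _ (fun b _ => hi a b)]
    have h3 : ∀ b, ∫ ξ : S → ℂ, T a b *
        ((∏ s, ξ s ^ mult a s) * conj (∏ s, ξ s ^ mult b s) * (gw ξ : ℂ)) =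
        ∑ π : Equiv.Perm (Fin n), if a ∘ π = b then
          (Real.pi : ℂ) ^ Fintype.card S * T a b else 0 := by
      intro b
      rw [integral_const_mul, mono_integral]
      have h4 := count a b
      have h5 : (∑ π : Equiv.Perm (Fin n), if a ∘ π = b then
          (Real.pi : ℂ) ^ Fintype.card S * T a b else 0) =
          ((Real.pi : ℂ) ^ Fintype.card S * T a b) *
            ∑ π : Equiv.Perm (Fin n), (if a ∘ π = b then (1 : ℂ) else 0) := by
        rw [Finset.mul_sum]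
        refine sum_congr rfl fun π _ => ?_
        split_ifs <;> simp
      rw [h5, h4]
      split_ifs <;> ring
    simp only [h3]
    rw [Finset.sum_comm, Finset.mul_sum]
    refine sum_congr rfl fun π _ => ?_
    rw [Finset.sum_ite_eq univ (a ∘ π)
      (fun b => (Real.pi : ℂ) ^ Fintype.card S * T a b), if_pos (mem_univ _)]
  simp only [h2]
  rw [← Finset.mul_sum, Finset.sum_comm]

/-- the double alternating sum -/
noncomputable def G2 (ρ : Fin 3 → T4) : ℂ :=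
  ∑ x, ∑ y, lc x * lc y * ∑ x', ∑ y', lc x' * lc y' *
    ∏ b, ρ b (x b) (x' b) (y b) (y' b)

/-- the slices -/
def sl (ρ : T4) (i k : Fin 3) : Matrix (Fin 3) (Fin 3) ℂ := fun j l => ρ i j k l

lemma G2_MM (ρ : T4) : G2 (fun _ => ρ) = MM 1 1 1 1 (sl ρ) := by
  unfold G2 MM
  have h : ∀ x y : Fin 3 → Fin 3, ∑ x', ∑ y', lc x' * lc y' *
      ∏ b, ρ (x b) (x' b) (y b) (y' b) =
      D3 1 1 1 (sl ρ (x 0) (y 0)) (sl ρ (x 1) (y 1)) (sl ρ (x 2) (y 2)) := by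
    intro x y
    rw [sum_lc (fun x' y' => ∏ b, ρ (x b) (x' b) (y b) (y' b))]
    rw [← tp_sum 1 1 1 (fun b => sl ρ (x b) (y b))]
    refine Finset.sum_congr rfl fun π _ => ?_
    rw [sg_eq]
    rfl
  simp only [h]
  rw [sum_lc (fun x y => D3 1 1 1 (sl ρ (x 0) (y 0)) (sl ρ (x 1) (y 1)) (sl ρ (x 2) (y 2)))]
  refine Finset.sum_congr rfl fun π _ => ?_
  rw [sg_eq]
  rfl

/-- the compression to a vector of the first factor -/
noncomputable def Ap (ρ : T4) (ξ : Fin 3 → ℂ) : Matrix (Fin 3) (Fin 3) ℂ :=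
  fun j l => ∑ i, ∑ k, ξ i * conj (ξ k) * ρ i j k l

lemma D3_Ap (ρ : T4) (u v w : ℂ) (ξ : Fin 3 → ℂ) :
    D3 u v w (Ap ρ ξ) (Ap ρ ξ) (Ap ρ ξ) =
      ∑ x : Fin 3 → Fin 3, ∑ y : Fin 3 → Fin 3,
        D3 u v w (sl ρ (x 0) (y 0)) (sl ρ (x 1) (y 1)) (sl ρ (x 2) (y 2)) *
        ((∏ i, ξ (x i)) * conj (∏ i, ξ (y i))) := by
  rw [← tp_sum u v w (fun _ => Ap ρ ξ)]
  simp only [← tp_sum u v w (fun b => sl ρ _ _)]
  have h0 : ∀ x y : Fin 3 → Fin 3,
      D3 u v w (sl ρ (x 0) (y 0)) (sl ρ (x 1) (y 1)) (sl ρ (x 2) (y 2)) =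
      ∑ π, cf u v w π * tp π (fun b => sl ρ (x b) (y b)) := fun x y =>
    (tp_sum u v w (fun b => sl ρ (x b) (y b))).symm
  simp only [h0, Finset.sum_mul]
  have h1 : ∀ π : Equiv.Perm (Fin 3), tp π (fun _ => Ap ρ ξ) =
      ∑ x : Fin 3 → Fin 3, ∑ y : Fin 3 → Fin 3, tp π (fun b => sl ρ (x b) (y b)) *
        ((∏ i, ξ (x i)) * conj (∏ i, ξ (y i))) := by
    intro π
    unfold tp Ap
    have h2 : ∀ x' : Fin 3 → Fin 3,
        ∏ b, ∑ i, ∑ k, ξ i * conj (ξ k) * ρ i (x' b) k (x' (π b)) =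
        ∑ x : Fin 3 → Fin 3, ∑ y : Fin 3 → Fin 3,
          (∏ b, ρ (x b) (x' b) (y b) (x' (π b))) *
          ((∏ i, ξ (x i)) * conj (∏ i, ξ (y i))) := by
      intro x'
      rw [Finset.prod_univ_sum, Fintype.piFinset_univ]
      refine Finset.sum_congr rfl fun x _ => ?_
      rw [Finset.prod_univ_sum, Fintype.piFinset_univ]
      refine Finset.sum_congr rfl fun y _ => ?_
      rw [Finset.prod_mul_distrib, Finset.prod_mul_distrib, map_prod]
      ring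
    simp only [h2]
    rw [Finset.sum_comm]
    refine Finset.sum_congr rfl fun x _ => ?_
    rw [Finset.sum_comm]
    refine Finset.sum_congr rfl fun y _ => ?_
    rw [Finset.sum_mul]
    rfl
  simp only [h1, Finset.mul_sum]
  rw [Finset.sum_comm]
  refine Finset.sum_congr rfl fun x _ => ?_
  rw [Finset.sum_comm]
  refine Finset.sum_congr rfl fun y _ => ?_
  refine Finset.sum_congr rfl fun π _ => ?_
  ring

/-- the moment identity -/
lemma moment (ρ : T4) (u v w : ℂ) :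
    Integrable (fun ξ : Fin 3 → ℂ => D3 u v w (Ap ρ ξ) (Ap ρ ξ) (Ap ρ ξ) * (gw ξ : ℂ)) ∧
    ∫ ξ : Fin 3 → ℂ, D3 u v w (Ap ρ ξ) (Ap ρ ξ) (Ap ρ ξ) * (gw ξ : ℂ) =
      (Real.pi : ℂ) ^ 3 * MM (-1) u v w (sl ρ) := by
  have h := wickT (S := Fin 3) 3 (fun x y =>
    D3 u v w (sl ρ (x 0) (y 0)) (sl ρ (x 1) (y 1)) (sl ρ (x 2) (y 2)))
  simp only [← D3_Ap] at h
  refine ⟨h.1, ?_⟩
  rw [h.2, Fintype.card_fin]
  congr 1
  unfold MM
  refine Finset.sum_congr rfl fun π _ => ?_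
  rw [← one_eq, one_mul]
  rfl

end Pool.Agent.T9h14.GP
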