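import Pool.Agent.T9h14.GP.Scaling

/-!
# The double alternating sum of a block positive form is nonnegative
-/

set_option autoImplicit false

namespace Pool.Agent.T9h14.GP

open Finset
open scoped ComplexConjugate

lemma qq_swp (ρ : T4) (x y : Fin 3 → ℂ) : qq (swp ρ) x y = qq ρ y x := by
  unfold qq swp
  rw [Finset.sum_comm]
  refine Finset.sum_congr rfl fun i _ => Finset.sum_congr rfl fun j _ => ?_
  rw [Finset.sum_comm]
  refine Finset.sum_congr rfl fun k _ => Finset.sum_congr rfl fun l _ => ?_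
  ring

lemma FF_swp (ρ : T4) (A B : Matrix (Fin 3) (Fin 3) ℂ) : FF (swp ρ) A B = FF ρ B A := by
  unfold FF
  simp only [qq_swp]
  exact Finset.sum_comm

lemma FF_tr4 (ρ : T4) (A B C D : Matrix (Fin 3) (Fin 3) ℂ) :
    FF (tr4 A B ρ) C D = FF ρ (A * C) (B * D) := by
  unfold FF
  simp only [qq_tr4]
  rfl

/-- strictly positive forms -/
lemma G2_strict {ρ : T4} (h : BP ρ) {ε : ℝ} (hε0 : 0 < ε)
    (hε : ∀ x y, ε * n2 x * n2 y ≤ (qq ρ x y).re) : 0 ≤ (G2 (fun _ => ρ)).re := by
  obtain ⟨A, B, hA, hB, hmin⟩ := exists_min hε0 hε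
  have hBP := tr4_BP A B h
  have hcov := G2_tr4 A B (fun _ => ρ)
  rw [hA, hB] at hcov
  simp only [map_one, mul_one, one_mul] at hcov
  rw [← hcov]
  obtain ⟨c, hc⟩ := first_order (ρ := tr4 A B ρ) hBP.herm (by
    intro A' hA'
    rw [FF_tr4, FF_tr4, mul_one, mul_one]
    exact hmin _ _ (by rw [Matrix.det_mul, hA, hA', one_mul]) hB)
  obtain ⟨c', hc'⟩ := first_order (ρ := swp (tr4 A B ρ))
    (fun i j k l => hBP.herm j i l k) (by
    intro B' hB'
    rw [FF_swp, FF_swp, FF_tr4, FF_tr4, mul_one, mul_one]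
    exact hmin _ _ hA (by rw [Matrix.det_mul, hB, hB', one_mul]))
  have hcc : c = c' := by
    have h1 : ∑ i, pt (tr4 A B ρ) i i = ∑ j, pt (swp (tr4 A B ρ)) j j := by
      unfold pt swp
      exact Finset.sum_comm
    simp only [hc, hc', if_true, Finset.sum_const, Finset.card_univ, Fintype.card_fin,
      nsmul_eq_mul] at h1
    have h3 : ((3 : ℕ) : ℂ) ≠ 0 := by norm_num
    exact mul_left_cancel₀ h3 h1
  refine G2_DS hBP (c := c) ⟨fun i k => hc i k, ?_⟩
  ext j l
  have h1 := hc' j l
  rw [← hcc] at h1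
  rw [Matrix.sum_apply, Matrix.smul_apply, Matrix.one_apply, smul_eq_mul, mul_ite, mul_one,
    mul_zero, ← h1]
  rfl

/-- the unit form -/
def one4 : T4 := fun i j k l => (if i = k then 1 else 0) * (if j = l then 1 else 0)

lemma qq_one4 (x y : Fin 3 → ℂ) : qq one4 x y = ((n2 x * n2 y : ℝ) : ℂ) := by
  unfold qq one4 n2
  have h : ∀ i j, ∑ k, ∑ l, x i * y j * conj (x k) * conj (y l) *
      ((if i = k then 1 else 0) * (if j = l then 1 else 0)) =
      ((Complex.normSq (x i) * Complex.normSq (y j) : ℝ) : ℂ) := by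
    intro i j
    rw [Finset.sum_eq_single i, Finset.sum_eq_single j]
    · rw [if_pos rfl, if_pos rfl]
      push_cast
      rw [← Complex.mul_conj, ← Complex.mul_conj]
      ring
    · intro l _ hl
      rw [if_neg (show ¬ j = l from fun h => hl h.symm)]
      ring
    · simp
    · intro k _ hk
      refine Finset.sum_eq_zero fun l _ => ?_
      rw [if_neg (fun h => hk h.symm)]
      ring
    · simp
  simp only [h]
  rw [Finset.sum_mul_sum]
  push_cast
  rfl

lemma qq_add (ρ σ : T4) (x y : Fin 3 → ℂ) :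
    qq (fun i j k l => ρ i j k l + σ i j k l) x y = qq ρ x y + qq σ x y := by
  unfold qq
  simp only [mul_add, Finset.sum_add_distrib]

lemma qq_smul (c : ℂ) (σ : T4) (x y : Fin 3 → ℂ) :
    qq (fun i j k l => c * σ i j k l) x y = c * qq σ x y := by
  unfold qq
  simp only [Finset.mul_sum]
  refine Finset.sum_congr rfl fun x _ => Finset.sum_congr rfl fun y _ =>
    Finset.sum_congr rfl fun x' _ => Finset.sum_congr rfl fun y' _ => ?_
  ring

lemma one4_herm (i j k l : Fin 3) : conj (one4 i j k l) = one4 k l i j := by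
  unfold one4
  rw [map_mul, apply_ite (starRingEnd ℂ), apply_ite (starRingEnd ℂ), map_one, map_zero]
  simp only [eq_comm]

/-- **The double alternating sum of a block positive form is nonnegative.** -/
theorem G2_nonneg {ρ : T4} (h : BP ρ) : 0 ≤ (G2 (fun _ => ρ)).re := by
  let f : ℝ → ℝ := fun ε => (G2 (fun _ => fun i j k l => ρ i j k l + (ε : ℂ) * one4 i j k l)).re
  have hc : Continuous f := by
    refine Complex.continuous_re.comp ?_
    unfold G2
    fun_prop
  have hpos : ∀ ε : ℝ, 0 < ε → 0 ≤ f ε := by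
    intro ε hε
    have hq : ∀ x y, qq (fun i j k l => ρ i j k l + (ε : ℂ) * one4 i j k l) x y =
        qq ρ x y + ((ε * (n2 x * n2 y) : ℝ) : ℂ) := by
      intro x y
      rw [qq_add ρ (fun i j k l => (ε : ℂ) * one4 i j k l), qq_smul, qq_one4]
      push_cast
      rfl
    refine G2_strict (ε := ε) ⟨?_, ?_⟩ hε ?_
    · intro i j k l
      rw [map_add, map_mul, h.herm, one4_herm, Complex.conj_ofReal]
    · intro x y
      rw [hq, Complex.add_re, Complex.ofReal_re]
      have := h.pos x y
      have := n2_nonneg x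
      have := n2_nonneg y
      positivity
    · intro x y
      rw [hq, Complex.add_re, Complex.ofReal_re]
      have := h.pos x y
      linarith
  have h0 : f 0 = (G2 (fun _ => ρ)).re := by
    simp only [f, Complex.ofReal_zero, zero_mul, add_zero]
  rw [← h0]
  have ht : Filter.Tendsto (fun n : ℕ => f (1 / ((n : ℝ) + 1))) Filter.atTop (nhds (f 0)) :=
    (hc.tendsto 0).comp tendsto_one_div_add_atTop_nhds_zero_nat
  exact ge_of_tendsto' ht fun n => hpos _ (by positivity)

end Pool.Agent.T9h14.GP
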