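import Pool.Agent.T9h14.GP.Super

/-!
# The quantitative theorem for split tensors
-/

set_option autoImplicit false

namespace Pool.Agent.T9h14.GP

open Finset MeasureTheory Pool.Agent.TH598.GV Pool.Agent.TH991.J3417 Pool.Agent.R735.HA
open scoped ComplexConjugate ComplexOrder

lemma GM_s01 (X Y Z : H6) : GM ![X, Y, Z] = GM ![Y, X, Z] := by
  rw [← GM_comp ![Y, X, Z] (Equiv.swap 0 1)]
  congr 1
  funext b
  fin_cases b <;> rfl

lemma GM_s12 (X Y Z : H6) : GM ![X, Y, Z] = GM ![X, Z, Y] := by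
  rw [← GM_comp ![X, Z, Y] (Equiv.swap 1 2)]
  congr 1
  funext b
  fin_cases b <;> rfl

/-- linearity in the last slot -/
lemma GM_add2 (X Y Z Z' : H6) (c : ℂ) : GM ![X, Y, fun i j k l => Z i j k l + c * Z' i j k l] =
    GM ![X, Y, Z] + c * GM ![X, Y, Z'] := by
  unfold GM
  simp only [Finset.mul_sum, ← Finset.sum_add_distrib]
  refine Finset.sum_congr rfl fun σ _ => Finset.sum_congr rfl fun τ _ => ?_
  simp only [Fin.prod_univ_three, Matrix.cons_val_zero, Matrix.cons_val_one, Matrix.cons_val]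
  ring

lemma GM_sum2 {S : Type} [Fintype S] (X Y : H6) (Z : S → H6) :
    GM ![X, Y, fun i j k l => ∑ s, Z s i j k l] = ∑ s, GM ![X, Y, Z s] := by
  unfold GM
  simp only [Fin.prod_univ_three, Matrix.cons_val_zero, Matrix.cons_val_one, Matrix.cons_val,
    Finset.mul_sum]
  rw [Finset.sum_congr rfl fun σ _ => Finset.sum_comm, Finset.sum_comm]

/-- the expansion -/
lemma GG_addc (X Y : H6) (t : ℂ) : GG (fun i j k l => X i j k l + t * Y i j k l) =
    GG X + 3 * t * GM ![X, X, Y] + 3 * t ^ 2 * GM ![X, Y, Y] + t ^ 3 * GM ![Y, Y, Y] := by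
  have h0 : ∀ Z : H6, GG Z = GM ![Z, Z, Z] := by
    intro Z
    unfold GG GM
    refine Finset.sum_congr rfl fun σ _ => Finset.sum_congr rfl fun τ _ => ?_
    simp only [Fin.prod_univ_three, Matrix.cons_val_zero, Matrix.cons_val_one, Matrix.cons_val]
  have e1 : GM ![Y, X, X] = GM ![X, X, Y] := by rw [GM_s01, GM_s12]
  have e2 : GM ![X, Y, X] = GM ![X, X, Y] := GM_s12 _ _ _
  have e3 : GM ![Y, Y, X] = GM ![X, Y, Y] := by rw [GM_s12, GM_s01]
  have e4 : GM ![Y, X, Y] = GM ![X, Y, Y] := GM_s01 _ _ _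
  have f : ∀ Z W : H6, GM ![Z, W, fun i j k l => X i j k l + t * Y i j k l] =
      GM ![Z, W, X] + t * GM ![Z, W, Y] := fun Z W => GM_add2 _ _ _ _ _
  have g : ∀ Z W : H6, GM ![Z, fun i j k l => X i j k l + t * Y i j k l, W] =
      GM ![Z, X, W] + t * GM ![Z, Y, W] := fun Z W => by
    rw [GM_s12, f, GM_s12 Z W X, GM_s12 Z W Y]
  have h : ∀ Z W : H6, GM ![fun i j k l => X i j k l + t * Y i j k l, Z, W] =
      GM ![X, Z, W] + t * GM ![Y, Z, W] := fun Z W => by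
    rw [GM_s01, g, GM_s01 Z X, GM_s01 Z Y]
  rw [h0, h0 X, h, g, g, f, f, f, f, e1, e2, e3, e4]
  ring

/-- the values of a nonnegative polynomial determine signs of coefficients -/
lemma coef1 {a b : ℝ} (h : ∀ t : ℝ, 0 ≤ t → 0 ≤ a + b * t) : 0 ≤ b := by
  by_contra hb
  push Not at hb
  have h0 := h 0 le_rfl
  have h1 := h ((a + 1) / (-b)) (div_nonneg (by linarith) (by linarith))
  have hb' : b ≠ 0 := hb.ne
  have h2 : b * ((a + 1) / (-b)) = -(a + 1) := by
    field_simp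
  rw [h2] at h1
  linarith

lemma coef2 {a b c : ℝ} (h : ∀ t : ℝ, 0 ≤ t → 0 ≤ a + b * t + c * t ^ 2) : 0 ≤ c := by
  by_contra hc
  push Not at hc
  set t : ℝ := 1 + (|a| + |b|) / (-c) with ht
  have hq : 0 ≤ (|a| + |b|) / (-c) := div_nonneg (by positivity) (by linarith)
  have ht1 : 1 ≤ t := by linarith
  have h1 := h t (by linarith)
  have hc' : c ≠ 0 := hc.ne
  have h2 : c * t = c - (|a| + |b|) := by
    rw [ht]
    field_simp
    ring
  have h3 : a ≤ |a| * t := by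
    have := le_abs_self a
    nlinarith [abs_nonneg a]
  have h4 : b * t ≤ |b| * t := mul_le_mul_of_nonneg_right (le_abs_self b) (by linarith)
  have h5 : c * t ^ 2 = (c - (|a| + |b|)) * t := by
    rw [← h2]
    ring
  rw [h5] at h1
  nlinarith

lemma re_coef (c : ℝ) (z : ℂ) : ((c : ℂ) * z).re = c * z.re := Complex.re_ofReal_mul c z

/-- first positivity -/
lemma Cls.first {X : H6} (h : Cls X) (s : Bs) : 0 ≤ (GM ![X, X, Wt s]).re := by
  have h1 : ∀ t : ℝ, 0 ≤ t → 0 ≤ (GG X).re + (3 * (GM ![X, X, Wt s]).re) * t := by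
    intro t ht
    have h2 := (h.add (Cls_Wt s ht)).nonneg
    rw [GG_addc, GM_two, GM_two] at h2
    have e : GG X + 3 * (t : ℂ) * GM ![X, X, Wt s] + 3 * (t : ℂ) ^ 2 * 0 + (t : ℂ) ^ 3 * 0 =
        GG X + ((3 * t : ℝ) : ℂ) * GM ![X, X, Wt s] := by
      push_cast
      ring
    rw [e, Complex.add_re, re_coef] at h2
    linarith
  have := coef1 h1
  linarith

/-- second positivity -/
lemma Cls.second {X : H6} (h : Cls X) (s r : Bs) : 0 ≤ (GM ![X, Wt s, Wt r]).re := by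
  have h1 : ∀ t : ℝ, 0 ≤ t → 0 ≤ (GG X).re +
      (3 * (GM ![X, X, Wt s]).re + 3 * (GM ![X, X, Wt r]).re) * t +
      (6 * (GM ![X, Wt s, Wt r]).re) * t ^ 2 := by
    intro t ht
    have h2 := ((h.add (Cls_Wt s ht)).add (Cls_Wt r ht)).nonneg
    rw [GG_addc, GG_addc] at h2
    have k : ∀ Z W : H6, GM ![Z, W, fun i j k l => X i j k l + (t : ℂ) * Wt s i j k l] =
        GM ![Z, W, X] + t * GM ![Z, W, Wt s] := fun Z W => GM_add2 _ _ _ _ _
    have k1 : ∀ Z W : H6, GM ![Z, fun i j k l => X i j k l + (t : ℂ) * Wt s i j k l, W] =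
        GM ![Z, X, W] + t * GM ![Z, Wt s, W] := fun Z W => by
      rw [GM_s12, k, GM_s12 Z W X, GM_s12 Z W (Wt s)]
    have k2 : ∀ Z W : H6, GM ![fun i j k l => X i j k l + (t : ℂ) * Wt s i j k l, Z, W] =
        GM ![X, Z, W] + t * GM ![Wt s, Z, W] := fun Z W => by
      rw [GM_s01, k1, GM_s01 Z X, GM_s01 Z (Wt s)]
    rw [k2, k1, k1, GM_two, GM_two, GM_two, GM_two] at h2
    have z1 : GM ![Wt s, Wt s, Wt r] = 0 := by
      rw [GM_s12, GM_s01 (Wt s) (Wt r), GM_two]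
    have z2 : GM ![Wt s, X, Wt r] = GM ![X, Wt s, Wt r] := GM_s01 _ _ _
    rw [z1, z2] at h2
    have e : GG X + 3 * (t : ℂ) * GM ![X, X, Wt s] + 3 * (t : ℂ) ^ 2 * 0 + (t : ℂ) ^ 3 * 0 +
        3 * (t : ℂ) * (GM ![X, X, Wt r] + t * GM ![X, Wt s, Wt r] +
          t * (GM ![X, Wt s, Wt r] + t * 0)) + 3 * (t : ℂ) ^ 2 * 0 + (t : ℂ) ^ 3 * 0 =
        GG X + ((3 * t : ℝ) : ℂ) * GM ![X, X, Wt s] + ((3 * t : ℝ) : ℂ) * GM ![X, X, Wt r] +
          ((6 * t ^ 2 : ℝ) : ℂ) * GM ![X, Wt s, Wt r] := by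
      push_cast
      ring
    rw [e, Complex.add_re, Complex.add_re, Complex.add_re, re_coef, re_coef, re_coef] at h2
    linarith
  have := coef2 h1
  linarith

lemma UU_eq : (UU : H6) = fun i j k l => ∑ s, Wt s i j k l := by
  funext i j k l
  exact UU_sum i j k l

/-- the value of the unit tensor -/
lemma GG_UU_ge : 2 ^ 3 * ((2 * 3).factorial : ℝ) ≤ (GG (UU : H6)).re := by
  have h := strong_holds (m := 3) (UU : H6) ⟨?_, ?_⟩ (0, false) ?_ 1 zero_le_one ?_
  · simpa using h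
  · intro i j k l
    unfold UU
    simp only [map_sub, map_mul, apply_ite (starRingEnd ℂ), map_one, map_zero]
    simp only [eq_comm (a := k), eq_comm (a := l)]
    ring
  · intro i j k l
    unfold UU
    ring
  · intro p _ _
    have e : ∑ i, ∑ j, ∑ i', ∑ j', (UU : H6) i j i' j' * (p i j * conj (p i' j')) =
        ∑ s, Sf (fun i j k l => ((1 : ℝ) : ℂ) * Wt s i j k l) p p := by
      rw [UU_eq]
      unfold Sf
      simp only [Finset.sum_mul]
      rw [← Pool.Agent.TH367.J4006.swap4 (fun x a b a' b' =>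
        ((1 : ℝ) : ℂ) * Wt x a b a' b' * (p a b * conj (p a' b')))]
      refine Finset.sum_congr rfl fun x _ => Finset.sum_congr rfl fun y _ =>
        Finset.sum_congr rfl fun x' _ => Finset.sum_congr rfl fun y' _ =>
          Finset.sum_congr rfl fun s _ => ?_
      push_cast
      ring
    rw [e, Complex.re_sum]
    refine Finset.sum_nonneg fun s _ => ?_
    unfold Wt
    rw [Sf_rank (el s) (conj_el s) 1 p, Complex.ofReal_re, one_mul]
    exact Complex.normSq_nonneg _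
  · intro z w
    rw [one_mul]

/-- **Quantitative theorem for split tensors.** -/
theorem split_quant {H : H6} {κ : ℝ} (hκ : 0 ≤ κ)
    (h : Cls (fun i j k l => H i j k l - (κ : ℂ) * UU i j k l)) :
    2 ^ 3 * ((2 * 3).factorial : ℝ) * κ ^ 3 ≤ (GG H).re := by
  obtain ⟨X, hX⟩ : ∃ X : H6, X = fun i j k l => H i j k l - (κ : ℂ) * UU i j k l := ⟨_, rfl⟩
  rw [← hX] at h
  have hH : H = fun i j k l => X i j k l + (κ : ℂ) * UU i j k l := by
    funext i j k l
    rw [hX]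
    ring
  have hG : GG (B := Fin 3) (UU : H6) = GM (B := Fin 3) ![UU, UU, UU] := by
    unfold GG GM
    refine Finset.sum_congr rfl fun σ _ => Finset.sum_congr rfl fun τ _ => ?_
    simp only [Fin.prod_univ_three, Matrix.cons_val_zero, Matrix.cons_val_one, Matrix.cons_val]
  rw [hH, GG_addc, ← hG]
  have h1 : 0 ≤ (GM (B := Fin 3) ![X, X, UU]).re := by
    rw [UU_eq, GM_sum2, Complex.re_sum]
    exact Finset.sum_nonneg fun s _ => h.first s
  have h2 : 0 ≤ (GM (B := Fin 3) ![X, UU, UU]).re := by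
    rw [UU_eq, GM_sum2, Complex.re_sum]
    refine Finset.sum_nonneg fun s _ => ?_
    rw [GM_s12, GM_sum2, Complex.re_sum]
    exact Finset.sum_nonneg fun r _ => h.second s r
  obtain ⟨a, ha⟩ : ∃ a, a = GM (B := Fin 3) ![X, X, UU] := ⟨_, rfl⟩
  obtain ⟨b, hb⟩ : ∃ b, b = GM (B := Fin 3) ![X, UU, UU] := ⟨_, rfl⟩
  rw [← ha] at h1
  rw [← hb] at h2
  rw [← ha, ← hb]
  have e : GG X + 3 * (κ : ℂ) * a + 3 * (κ : ℂ) ^ 2 * b +
      (κ : ℂ) ^ 3 * GG (UU : H6) = GG X + ((3 * κ : ℝ) : ℂ) * a +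
      ((3 * κ ^ 2 : ℝ) : ℂ) * b + ((κ ^ 3 : ℝ) : ℂ) * GG (UU : H6) := by
    push_cast
    ring
  rw [e, Complex.add_re, Complex.add_re, Complex.add_re, re_coef, re_coef, re_coef]
  have h3 := h.nonneg
  have h4 := GG_UU_ge
  have h5 : κ ^ 3 * (2 ^ 3 * ((2 * 3).factorial : ℝ)) ≤ κ ^ 3 * (GG (UU : H6)).re :=
    mul_le_mul_of_nonneg_left h4 (by positivity)
  have h6 : 0 ≤ 3 * κ * a.re := by positivity
  have h7 : 0 ≤ 3 * κ ^ 2 * b.re := by positivity
  linarith

end Pool.Agent.T9h14.GP
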