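import Pool.Agent.T9h14.GP.Geo

/-!
# Curvature tensors with a reflection symmetry in dimension six
-/

set_option autoImplicit false

namespace Pool.Agent.T9h14.GP

open Finset MeasureTheory Module
open Pool.Agent.W666.GB Pool.Agent.TH598.GV Pool.Agent.R735.HA
open scoped ComplexConjugate ComplexOrder

section

variable {V : Type} [NormedAddCommGroup V] [InnerProductSpace ℝ V]

/-- `T` is invariant under the orthogonal reflection which is `1` on `A` and `-1` on the orthogonal
complement of `A`: the components with an odd number of arguments in `A` vanish. -/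
def ReflInv (T : V → V → V → V → ℝ) (A : Submodule ℝ V) : Prop :=
  (∀ a ∈ A, ∀ a' ∈ A, ∀ a'' ∈ A, ∀ b ∈ Aᗮ, T a a' a'' b = 0) ∧
  (∀ b ∈ Aᗮ, ∀ b' ∈ Aᗮ, ∀ b'' ∈ Aᗮ, ∀ a ∈ A, T b b' b'' a = 0)

/-- The complex sectional curvatures of the planes spanned by `z = x + i y` in the complexification
of `A` and `w = u + i v` in the complexification of the complement are nonpositive. -/
def MixedCxNonpos (T : V → V → V → V → ℝ) (A : Submodule ℝ V) : Prop :=
  ∀ x ∈ A, ∀ y ∈ A, ∀ u ∈ Aᗮ, ∀ v ∈ Aᗮ, cxs T x y u v ≤ 0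

/-- The curvature operator is nonpositive on the bivectors `∑ a i ∧ b i` for which `a i` and `b i`
are both in `A` or both in the complement. -/
def OpNonposSplit (T : V → V → V → V → ℝ) (A : Submodule ℝ V) : Prop :=
  ∀ (n : ℕ) (a b : Fin n → V), (∀ i, (a i ∈ A ∧ b i ∈ A) ∨ (a i ∈ Aᗮ ∧ b i ∈ Aᗮ)) →
    ∑ i, ∑ j, T (a i) (b i) (a j) (b j) ≤ 0

lemma Hc_one (H : H6) : Hc 1 H = H := by
  funext i j k l
  unfold Hc
  rw [Finset.sum_eq_single i, Finset.sum_eq_single j, Finset.sum_eq_single k,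
    Finset.sum_eq_single l]
  · simp
  · intro b _ hb
    rw [Matrix.one_apply_ne hb]
    simp
  · simp
  · intro b _ hb
    refine Finset.sum_eq_zero fun d _ => ?_
    rw [Matrix.one_apply_ne hb]
    simp
  · simp
  · intro b _ hb
    refine Finset.sum_eq_zero fun c _ => Finset.sum_eq_zero fun d _ => ?_
    rw [Matrix.one_apply_ne hb]
    simp
  · simp
  · intro b _ hb
    refine Finset.sum_eq_zero fun b _ => Finset.sum_eq_zero fun c _ =>
      Finset.sum_eq_zero fun d _ => ?_
    rw [Matrix.one_apply_ne hb]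
    simp
  · simp

lemma anti2 {T : V → V → V → V → ℝ} (hT : AlgCurv T) (x y z w : V) :
    T x y w z = -T x y z w := by
  rw [hT.pair w z x y, hT.anti z w x y, hT.pair z w x y]

lemma zero1 {T : V → V → V → V → ℝ} (hT : AlgCurv T) (x y z : V) : T 0 x y z = 0 := by
  have := hT.smul 0 0 x y z
  rwa [zero_smul, zero_mul] at this

lemma zero2 {T : V → V → V → V → ℝ} (hT : AlgCurv T) (x y z : V) : T x 0 y z = 0 := by
  rw [hT.anti 0 x y z, zero1 hT, neg_zero]

/-- the operator condition in coordinates, for arrays with a support condition -/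
lemma op_sum {T : V → V → V → V → ℝ} (hT : AlgCurv T) (f : I6 → V) (p : I6 → I6 → ℝ)
    (P : I6 → I6 → Prop) [∀ i j, Decidable (P i j)] (hp : ∀ i j, ¬ P i j → p i j = 0)
    (Q : V → V → Prop) (hQ0 : Q 0 0) (hQ : ∀ i j, P i j → ∀ t : ℝ, Q (t • f i) (f j))
    (hO : ∀ (n : ℕ) (a b : Fin n → V), (∀ i, Q (a i) (b i)) →
      ∑ i, ∑ j, T (a i) (b i) (a j) (b j) ≤ 0) :
    0 ≤ Pool.Agent.TH828.J3423.QQ (fun a b c d => -T (f a) (f b) (f c) (f d)) p p := by
  let a : I6 × I6 → V := fun q => if P q.1 q.2 then p q.1 q.2 • f q.1 else 0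
  let b : I6 × I6 → V := fun q => if P q.1 q.2 then f q.2 else 0
  have hab : ∀ q, Q (a q) (b q) := by
    intro q
    by_cases hq : P q.1 q.2
    · simp only [a, b, hq, if_true]
      exact hQ _ _ hq _
    · simp only [a, b, hq, if_false]
      exact hQ0
  let c := (Fintype.equivFin (I6 × I6)).symm
  have h1 := hO _ (fun i => a (c i)) (fun i => b (c i)) (fun i => hab _)
  rw [Equiv.sum_comp c (fun q => ∑ j, T (a q) (b q) (a (c j)) (b (c j)))] at h1
  have hc2 : ∀ q, ∑ j, T (a q) (b q) (a (c j)) (b (c j)) = ∑ q', T (a q) (b q) (a q') (b q') :=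
    fun q => Equiv.sum_comp c (fun q' => T (a q) (b q) (a q') (b q'))
  simp only [hc2] at h1
  have h3 : ∀ (t : ℝ) (x y z w : V), T x y (t • z) w = t * T x y z w := fun t x y z w => by
    rw [hT.pair (t • z) w x y, hT.smul, hT.pair z w x y]
  have h2 : ∀ q q' : I6 × I6, T (a q) (b q) (a q') (b q') =
      T (f q.1) (f q.2) (f q'.1) (f q'.2) * (p q.1 q.2 * p q'.1 q'.2) := by
    intro q q'
    by_cases hq : P q.1 q.2
    · by_cases hq' : P q'.1 q'.2
      · simp only [a, b, hq, hq', if_true, hT.smul, h3]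
        ring
      · simp only [a, b, hq', if_false, hp _ _ hq', mul_zero]
        rw [hT.pair, zero1 hT]
    · simp only [a, b, hq, if_false, hp _ _ hq, zero_mul, mul_zero]
      rw [zero1 hT]
  simp only [h2] at h1
  have h4 : Pool.Agent.TH828.J3423.QQ (fun a b c d => -T (f a) (f b) (f c) (f d)) p p =
      -∑ q : I6 × I6, ∑ q' : I6 × I6,
        T (f q.1) (f q.2) (f q'.1) (f q'.2) * (p q.1 q.2 * p q'.1 q'.2) := by
    unfold Pool.Agent.TH828.J3423.QQ
    simp only [Fintype.sum_prod_type (α₁ := I6) (α₂ := I6), neg_mul, Finset.sum_neg_distrib]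
  rw [h4]
  linarith

/-- an orthonormal basis adapted to a splitting in two three-dimensional spaces -/
lemma adapted_split (e : OrthonormalBasis (Fin 3 × Bool) ℝ V) (A : Submodule ℝ V)
    (hA : finrank ℝ A = 3) : ∃ f : OrthonormalBasis (Fin 3 × Bool) ℝ V,
      (∀ b, f (b, false) ∈ A) ∧ ∀ b, f (b, true) ∈ Aᗮ := by
  have : FiniteDimensional ℝ V := Module.Finite.of_basis e.toBasis
  obtain ⟨f, hf⟩ := adapted e A (univ.filter fun i : I6 => i.2 = false) (by
    rw [hA]
    decide)
  have hf1 : ∀ b, f (b, false) ∈ A := fun b => hf _ (by simp)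
  refine ⟨f, hf1, fun b => ?_⟩
  have hli : LinearIndependent ℝ (fun b : Fin 3 => f (b, false)) :=
    f.orthonormal.linearIndependent.comp (fun b : Fin 3 => ((b, false) : I6))
      (fun a b h => congrArg Prod.fst h)
  have hspan : Submodule.span ℝ (Set.range fun b : Fin 3 => f (b, false)) = A := by
    refine Submodule.eq_of_le_of_finrank_eq ?_ ?_
    · rw [Submodule.span_le]
      rintro _ ⟨b, rfl⟩
      exact hf1 b
    · rw [finrank_span_eq_card hli, hA, Fintype.card_fin]
  rw [Submodule.mem_orthogonal]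
  intro u hu
  rw [← hspan] at hu
  refine Submodule.span_induction (p := fun u _ => inner ℝ u (f (b, true)) = 0) ?_ ?_ ?_ ?_ hu
  · rintro _ ⟨a, rfl⟩
    rw [f.inner_eq_ite, if_neg]
    intro h
    have := congrArg Prod.snd h
    simp at this
  · exact inner_zero_left _
  · intro x y _ _ hx hy
    rw [inner_add_left, hx, hy, add_zero]
  · intro c x _ hx
    rw [inner_smul_left, hx, mul_zero]

lemma refl_blk {T : V → V → V → V → ℝ} (hT : AlgCurv T) {A : Submodule ℝ V} (h : ReflInv T A)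
    (f : I6 → V) (h0 : ∀ b, f (b, false) ∈ A) (h1 : ∀ b, f (b, true) ∈ Aᗮ) (i j k l : I6)
    (hb : i.2 = j.2 ↔ k.2 ≠ l.2) : T (f i) (f j) (f k) (f l) = 0 := by
  have a1 : ∀ a b c d, T (f (a, false)) (f (b, false)) (f (c, false)) (f (d, true)) = 0 :=
    fun a b c d => h.1 _ (h0 a) _ (h0 b) _ (h0 c) _ (h1 d)
  have a2 : ∀ a b c d, T (f (a, true)) (f (b, true)) (f (c, true)) (f (d, false)) = 0 :=
    fun a b c d => h.2 _ (h1 a) _ (h1 b) _ (h1 c) _ (h0 d)
  have a3 : ∀ a b c d, T (f (a, false)) (f (b, false)) (f (c, true)) (f (d, false)) = 0 :=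
    fun a b c d => by rw [anti2 hT, a1, neg_zero]
  have a4 : ∀ a b c d, T (f (a, true)) (f (b, true)) (f (c, false)) (f (d, true)) = 0 :=
    fun a b c d => by rw [anti2 hT, a2, neg_zero]
  obtain ⟨i, ci⟩ := i
  obtain ⟨j, cj⟩ := j
  obtain ⟨k, ck⟩ := k
  obtain ⟨l, cl⟩ := l
  cases ci <;> cases cj <;> cases ck <;> cases cl <;> simp at hb
  · exact a1 _ _ _ _
  · exact a3 _ _ _ _
  · rw [← hT.pair]; exact a1 _ _ _ _
  · rw [← hT.pair]; exact a4 _ _ _ _
  · rw [← hT.pair]; exact a3 _ _ _ _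
  · rw [← hT.pair]; exact a2 _ _ _ _
  · exact a4 _ _ _ _
  · exact a2 _ _ _ _

lemma vc_mem (f : I6 → V) (A : Submodule ℝ V) (x : I6 → ℝ)
    (h : ∀ i, x i = 0 ∨ f i ∈ A) : vc f x ∈ A := by
  unfold vc
  refine Submodule.sum_mem _ fun i _ => ?_
  rcases h i with h | h
  · rw [h, zero_smul]
    exact A.zero_mem
  · exact A.smul_mem _ h

/-- **Reflection symmetry, pointwise.** -/
theorem point_refl (e : OrthonormalBasis (Fin 3 × Bool) ℝ V) {R : V → V → V → V → ℝ}
    (hR : AlgCurv R) {κ : ℝ} (hκ : 0 ≤ κ) (A : Submodule ℝ V) (hA : finrank ℝ A = 3)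
    (hI : ReflInv R A) (hM : MixedCxNonpos (shiftT R κ) A)
    (hO : OpNonposSplit (shiftT R κ) A) :
    roundGB 3 κ ≤ (-1) ^ 3 * gbc e R := by
  obtain ⟨f, h0, h1⟩ := adapted_split e A hA
  rw [Pool.Agent.W688.HD.bas 3 V e f R hR]
  have hT := shift_curv hR κ
  obtain ⟨T, hTdef⟩ : ∃ T, T = shiftT R κ := ⟨_, rfl⟩
  have hIT : ReflInv T A := by
    rw [hTdef]
    constructor
    · intro a ha a' ha' a'' ha'' b hb
      have e1 : inner ℝ a b = 0 := Submodule.inner_right_of_mem_orthogonal ha hb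
      have e2 : inner ℝ a' b = 0 := Submodule.inner_right_of_mem_orthogonal ha' hb
      simp only [shiftT, hI.1 a ha a' ha' a'' ha'' b hb, e1, e2]
      ring
    · intro b hb b' hb' b'' hb'' a ha
      have e1 : inner ℝ b a = 0 := Submodule.inner_left_of_mem_orthogonal ha hb
      have e2 : inner ℝ b' a = 0 := Submodule.inner_left_of_mem_orthogonal ha hb'
      simp only [shiftT, hI.2 b hb b' hb' b'' hb'' a ha, e1, e2]
      ring
  refine point_cls f hκ 1 ?_ ?_
  · intro i k
    rw [Finset.sum_eq_single i]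
    · by_cases h : i = k
      · subst h
        simp
      · rw [if_neg h, Matrix.one_apply_ne h]
        simp
    · intro b _ hb
      rw [Matrix.one_apply_ne hb, zero_mul]
    · simp
  · rw [Hc_one, ← hTdef]
    rw [← hTdef] at hT hM hO
    refine ⟨nc_HS _ hT, ?_, ?_, ?_⟩
    · intro i j k l hb
      unfold nc
      rw [refl_blk hT hIT f h0 h1 i j k l hb]
      simp
    · intro z w hz hw
      rw [qf_nc f hT]
      have := hM (vc f fun a => (z a).re) (vc_mem f A _ fun i => ?_) (vc f fun a => (z a).im)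
        (vc_mem f A _ fun i => ?_) (vc f fun a => (w a).re) (vc_mem f Aᗮ _ fun i => ?_)
        (vc f fun a => (w a).im) (vc_mem f Aᗮ _ fun i => ?_)
      · linarith
      · obtain ⟨i, c⟩ := i
        cases c
        · right; exact h0 i
        · left; rw [hz]; rfl
      · obtain ⟨i, c⟩ := i
        cases c
        · right; exact h0 i
        · left; rw [hz]; rfl
      · obtain ⟨i, c⟩ := i
        cases c
        · left; rw [hw]; rfl
        · right; exact h1 i
      · obtain ⟨i, c⟩ := i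
        cases c
        · left; rw [hw]; rfl
        · right; exact h1 i
    · intro p hp
      rw [Sf_nc]
      have key : ∀ q : I6 → I6 → ℝ, (∀ i j, ¬ i.2 = j.2 → q i j = 0) →
          0 ≤ Pool.Agent.TH828.J3423.QQ (fun a b c d => -T (f a) (f b) (f c) (f d)) q q := by
        intro q hq
        refine op_sum hT f q (fun i j => i.2 = j.2) hq
          (fun a b => (a ∈ A ∧ b ∈ A) ∨ (a ∈ Aᗮ ∧ b ∈ Aᗮ)) (Or.inl ⟨A.zero_mem, A.zero_mem⟩) ?_ hO
        rintro ⟨i, c⟩ ⟨j, d⟩ hij t
        simp only at hij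
        subst hij
        cases c
        · exact Or.inl ⟨A.smul_mem _ (h0 i), h0 j⟩
        · exact Or.inr ⟨Aᗮ.smul_mem _ (h1 i), h1 j⟩
      exact add_nonneg (key _ fun i j h => by rw [hp i j h]; rfl)
        (key _ fun i j h => by rw [hp i j h]; rfl)

end

end Pool.Agent.T9h14.GP
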