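import Pool.Agent.T9h14.GP.Refl

/-!
# Reflection symmetry: the form with sectional curvatures only
-/

set_option autoImplicit false

namespace Pool.Agent.T9h14.GP

open Finset MeasureTheory Module
open Pool.Agent.W666.GB Pool.Agent.TH598.GV Pool.Agent.R735.HA
open scoped ComplexConjugate ComplexOrder

section

variable {V : Type} [NormedAddCommGroup V] [InnerProductSpace ℝ V]

/-- The bivectors of `A` and those of the complement are orthogonal with respect to `T`. -/
def PureSplit (T : V → V → V → V → ℝ) (A : Submodule ℝ V) : Prop :=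
  ∀ a ∈ A, ∀ a' ∈ A, ∀ b ∈ Aᗮ, ∀ b' ∈ Aᗮ, T a a' b b' = 0

/-- The sectional curvatures of the planes in `A`, of the planes in the complement and of the planes
spanned by a vector of `A` and a vector of the complement are nonpositive. -/
def SecNonposSplit (T : V → V → V → V → ℝ) (A : Submodule ℝ V) : Prop :=
  (∀ a ∈ A, ∀ a' ∈ A, T a a' a a' ≤ 0) ∧ (∀ b ∈ Aᗮ, ∀ b' ∈ Aᗮ, T b b' b b' ≤ 0) ∧
    ∀ a ∈ A, ∀ b ∈ Aᗮ, T a b a b ≤ 0

lemma dec3 (r : Fin 3 → Fin 3 → ℝ) : ∃ z w : Fin 3 → ℝ, ∀ i j,
    r i j - r j i = z i * w j - z j * w i := by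
  by_cases h : r 0 1 - r 1 0 = 0
  · refine ⟨![r 0 2 - r 2 0, r 1 2 - r 2 1, 0], ![0, 0, 1], ?_⟩
    intro i j
    fin_cases i <;> fin_cases j <;> simp <;> linarith
  · refine ⟨![1, 0, -((r 1 2 - r 2 1) / (r 0 1 - r 1 0))], ![0, r 0 1 - r 1 0, r 0 2 - r 2 0], ?_⟩
    intro i j
    fin_cases i <;> fin_cases j <;> simp <;> field_simp <;> ring

/-- only the alternating part matters -/
lemma alt_sum (X : Fin 3 → Fin 3 → ℝ) (hX : ∀ i j, X j i = -X i j) (r s : Fin 3 → Fin 3 → ℝ)
    (h : ∀ i j, r i j - r j i = s i j - s j i) :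
    ∑ i, ∑ j, X i j * r i j = ∑ i, ∑ j, X i j * s i j := by
  have e : ∀ r : Fin 3 → Fin 3 → ℝ, 2 * ∑ i, ∑ j, X i j * r i j =
      ∑ i, ∑ j, X i j * (r i j - r j i) := by
    intro r
    have e1 : ∑ i, ∑ j, X i j * (r i j - r j i) =
        ∑ i, ∑ j, X i j * r i j - ∑ i, ∑ j, X i j * r j i := by
      simp only [mul_sub, Finset.sum_sub_distrib]
    have e2 : ∑ i, ∑ j, X i j * r j i = -∑ i, ∑ j, X i j * r i j := by
      rw [Finset.sum_comm, ← Finset.sum_neg_distrib]
      refine Finset.sum_congr rfl fun i _ => ?_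
      rw [← Finset.sum_neg_distrib]
      refine Finset.sum_congr rfl fun j _ => ?_
      rw [hX i j]
      ring
    rw [e1, e2]
    ring
  have h1 := e r
  have h2 := e s
  simp only [h] at h1
  linarith

/-- a three-dimensional space -/
lemma op3 {T : V → V → V → V → ℝ} (hT : AlgCurv T) (g : Fin 3 → V)
    (hs : ∀ z w : Fin 3 → ℝ, T (vc g z) (vc g w) (vc g z) (vc g w) ≤ 0)
    (r : Fin 3 → Fin 3 → ℝ) :
    0 ≤ ∑ a, ∑ b, ∑ c, ∑ d, -T (g a) (g b) (g c) (g d) * (r a b * r c d) := by
  obtain ⟨z, w, h⟩ := dec3 r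
  have h1 := alt_sum (fun a b => ∑ c, ∑ d, -T (g a) (g b) (g c) (g d) * r c d) (fun a b => by
      rw [← Finset.sum_neg_distrib]
      refine Finset.sum_congr rfl fun c _ => ?_
      rw [← Finset.sum_neg_distrib]
      refine Finset.sum_congr rfl fun d _ => ?_
      rw [hT.anti]
      ring) r (fun a b => z a * w b) h
  have h2 : ∀ a b, ∑ c, ∑ d, -T (g a) (g b) (g c) (g d) * r c d =
      ∑ c, ∑ d, -T (g a) (g b) (g c) (g d) * (z c * w d) := fun a b =>
    alt_sum (fun c d => -T (g a) (g b) (g c) (g d)) (fun c d => by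
      rw [anti2 hT]) r (fun c d => z c * w d) h
  have h3 : ∑ a, ∑ b, ∑ c, ∑ d, -T (g a) (g b) (g c) (g d) * (r a b * r c d) =
      ∑ a, ∑ b, (∑ c, ∑ d, -T (g a) (g b) (g c) (g d) * r c d) * r a b := by
    simp only [Finset.sum_mul]
    refine Finset.sum_congr rfl fun a _ => Finset.sum_congr rfl fun b _ =>
      Finset.sum_congr rfl fun c _ => Finset.sum_congr rfl fun d _ => by ring
  rw [h3, h1]
  simp only [h2]
  have h4 := hs z w
  simp only [l1 hT g z, l2 hT g w, l3 hT g z, l4 hT g w, Finset.mul_sum] at h4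
  have h5 : ∑ a, ∑ b, (∑ c, ∑ d, -T (g a) (g b) (g c) (g d) * (z c * w d)) * (z a * w b) =
      -∑ a, ∑ b, ∑ c, ∑ d, z a * (w b * (z c * (w d * T (g a) (g b) (g c) (g d)))) := by
    simp only [Finset.sum_mul, ← Finset.sum_neg_distrib]
    refine Finset.sum_congr rfl fun a _ => Finset.sum_congr rfl fun b _ =>
      Finset.sum_congr rfl fun c _ => Finset.sum_congr rfl fun d _ => by ring
  rw [h5]
  linarith

/-- **Reflection symmetry, pointwise, sectional curvatures only.** -/
theorem point_refl2 (e : OrthonormalBasis (Fin 3 × Bool) ℝ V) {R : V → V → V → V → ℝ}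
    (hR : AlgCurv R) {κ : ℝ} (hκ : 0 ≤ κ) (A : Submodule ℝ V) (hA : finrank ℝ A = 3)
    (hI : ReflInv R A) (hP : PureSplit R A) (hS : SecNonposSplit (shiftT R κ) A) :
    roundGB 3 κ ≤ (-1) ^ 3 * gbc e R := by
  have : FiniteDimensional ℝ V := Module.Finite.of_basis e.toBasis
  have hT := shift_curv hR κ
  have hPT : PureSplit (shiftT R κ) A := by
    intro a ha a' ha' b hb b' hb'
    have e1 : inner ℝ a b = 0 := Submodule.inner_right_of_mem_orthogonal ha hb
    have e2 : inner ℝ a b' = 0 := Submodule.inner_right_of_mem_orthogonal ha hb'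
    simp only [shiftT, hP a ha a' ha' b hb b' hb', e1, e2]
    ring
  obtain ⟨T, hTdef⟩ : ∃ T, T = shiftT R κ := ⟨_, rfl⟩
  rw [← hTdef] at hT hS hPT
  refine point_refl e hR hκ A hA hI ?_ ?_
  · rw [← hTdef]
    intro x hx y hy u hu v hv
    have b1 := hT.bianchi x u y v
    have b2 := hPT x hx y hy u hu v hv
    have b3 : T y x u v = 0 := hPT y hy x hx u hu v hv
    have b4 := hT.anti y u x v
    have b5 := hT.pair x v y u
    have s1 := hS.2.2 x hx u hu
    have s2 := hS.2.2 y hy v hv
    have s3 := hS.2.2 x hx v hv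
    have s4 := hS.2.2 y hy u hu
    simp only [cxs]
    linarith
  · rw [← hTdef]
    intro n a b hab
    obtain ⟨f, h0, h1⟩ := adapted_split e A hA
    -- the coordinates of the bivector
    obtain ⟨q, hq⟩ : ∃ q : I6 → I6 → ℝ, ∀ i j, q i j =
      ∑ t, f.repr (a t) i * f.repr (b t) j := ⟨_, fun _ _ => rfl⟩
    have hrepr0 : ∀ v ∈ A, ∀ i, f.repr v (i, true) = 0 := by
      intro v hv i
      rw [OrthonormalBasis.repr_apply_apply, real_inner_comm]
      exact Submodule.inner_right_of_mem_orthogonal hv (h1 i)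
    have hrepr1 : ∀ v ∈ Aᗮ, ∀ i, f.repr v (i, false) = 0 := by
      intro v hv i
      rw [OrthonormalBasis.repr_apply_apply]
      exact Submodule.inner_right_of_mem_orthogonal (h0 i) hv
    have hq0 : ∀ i j : I6, i.2 ≠ j.2 → q i j = 0 := by
      rintro ⟨i, c⟩ ⟨j, d⟩ hcd
      rw [hq]
      refine Finset.sum_eq_zero fun t _ => ?_
      rcases hab t with ⟨h2, h3⟩ | ⟨h2, h3⟩
      · cases c
        · cases d
          · exact absurd rfl hcd
          · rw [hrepr0 _ h3, mul_zero]
        · rw [hrepr0 _ h2, zero_mul]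
      · cases c
        · rw [hrepr1 _ h2, zero_mul]
        · cases d
          · rw [hrepr1 _ h3, mul_zero]
          · exact absurd rfl hcd
    have hsum : ∑ s, ∑ t, T (a s) (b s) (a t) (b t) =
        ∑ i, ∑ j, ∑ k, ∑ l, T (f i) (f j) (f k) (f l) * (q i j * q k l) := by
      have e1 : ∀ s t, T (a s) (b s) (a t) (b t) =
          ∑ i, ∑ j, ∑ k, ∑ l, T (f i) (f j) (f k) (f l) *
            ((f.repr (a s) i * f.repr (b s) j) * (f.repr (a t) k * f.repr (b t) l)) := by
        intro s t
        have e2 : ∀ x : V, vc f (fun i => f.repr x i) = x := fun x => vc_repr f x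
        conv_lhs => rw [← e2 (a s), ← e2 (b s), ← e2 (a t), ← e2 (b t)]
        simp only [l1 hT f, l2 hT f, l3 hT f, l4 hT f, Finset.mul_sum]
        refine Finset.sum_congr rfl fun i _ => Finset.sum_congr rfl fun j _ =>
          Finset.sum_congr rfl fun k _ => Finset.sum_congr rfl fun l _ => by ring
      simp only [e1]
      have e3 : ∀ F : Fin n → Fin n → I6 → I6 → I6 → I6 → ℝ,
          ∑ s, ∑ t, ∑ i, ∑ j, ∑ k, ∑ l, F s t i j k l =
          ∑ i, ∑ j, ∑ k, ∑ l, ∑ s, ∑ t, F s t i j k l := by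
        intro F
        have e4 : ∀ s, ∑ t, ∑ i, ∑ j, ∑ k, ∑ l, F s t i j k l =
            ∑ i, ∑ j, ∑ k, ∑ l, ∑ t, F s t i j k l := by
          intro s
          rw [Finset.sum_comm]
          refine Finset.sum_congr rfl fun i _ => ?_
          rw [Finset.sum_comm]
          refine Finset.sum_congr rfl fun j _ => ?_
          rw [Finset.sum_comm]
          refine Finset.sum_congr rfl fun k _ => ?_
          rw [Finset.sum_comm]
        simp only [e4]
        rw [Finset.sum_comm]
        refine Finset.sum_congr rfl fun i _ => ?_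
        rw [Finset.sum_comm]
        refine Finset.sum_congr rfl fun j _ => ?_
        rw [Finset.sum_comm]
        refine Finset.sum_congr rfl fun k _ => ?_
        rw [Finset.sum_comm]
      rw [e3]
      refine Finset.sum_congr rfl fun i _ => Finset.sum_congr rfl fun j _ =>
        Finset.sum_congr rfl fun k _ => Finset.sum_congr rfl fun l _ => ?_
      rw [hq, hq, Finset.sum_mul_sum, Finset.mul_sum]
      refine Finset.sum_congr rfl fun s _ => ?_
      rw [Finset.mul_sum]
    rw [hsum]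
    have hcross : ∀ i j k l : Fin 3, T (f (i, false)) (f (j, false)) (f (k, true)) (f (l, true)) = 0 :=
      fun i j k l => hPT _ (h0 i) _ (h0 j) _ (h1 k) _ (h1 l)
    have hcross' : ∀ i j k l : Fin 3,
        T (f (i, true)) (f (j, true)) (f (k, false)) (f (l, false)) = 0 :=
      fun i j k l => by rw [hT.pair]; exact hcross _ _ _ _
    have hz : ∀ i j : Fin 3, q (i, false) (j, true) = 0 := fun i j => hq0 _ _ (by simp)
    have hz' : ∀ i j : Fin 3, q (i, true) (j, false) = 0 := fun i j => hq0 _ _ (by simp)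
    simp only [Fintype.sum_prod_type, Fintype.sum_bool, hz, hz', hcross, hcross', mul_zero,
      zero_mul, add_zero, zero_add, Finset.sum_const_zero]
    have k0 := op3 hT (fun i => f (i, false)) (fun z w =>
      hS.1 _ (Submodule.sum_mem _ fun i _ => A.smul_mem _ (h0 i)) _
        (Submodule.sum_mem _ fun i _ => A.smul_mem _ (h0 i))) (fun i j => q (i, false) (j, false))
    have k1 := op3 hT (fun i => f (i, true)) (fun z w =>
      hS.2.1 _ (Submodule.sum_mem _ fun i _ => Aᗮ.smul_mem _ (h1 i)) _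
        (Submodule.sum_mem _ fun i _ => Aᗮ.smul_mem _ (h1 i))) (fun i j => q (i, true) (j, true))
    simp only [neg_mul, Finset.sum_neg_distrib] at k0 k1
    simp only [Finset.sum_add_distrib, Finset.sum_const_zero, add_zero, zero_add]
    linarith

end

end Pool.Agent.T9h14.GP
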