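import Pool.Agent.T9h14.GP.Pos
import Pool.Agent.TH991.J3417

/-!
# The polarised Pfaffian of elementary bivectors
-/

set_option autoImplicit false

namespace Pool.Agent.T9h14.GP

open Finset Pool.Agent.TH598.GV Pool.Agent.TH991.J3417
open scoped ComplexConjugate

section

variable {B : Type} [Fintype B] [DecidableEq B]

/-- exchange of the two indices of the slots in `s` -/
def flip (s : B → Bool) : Equiv.Perm (B × Bool) :=
  Equiv.prodCongrRight (fun b => if s b then Equiv.swap false true else 1)

lemma cs_mul (σ τ : Equiv.Perm (B × Bool)) : cs (σ * τ) = cs σ * cs τ := by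
  unfold cs
  rw [Equiv.Perm.sign_mul]
  push_cast
  rfl

lemma cs_flip (s : B → Bool) : cs (flip s) = ∏ b, (if s b then (-1 : ℂ) else 1) := by
  unfold cs flip
  rw [Equiv.Perm.sign_prodCongrRight]
  push_cast
  refine Finset.prod_congr rfl fun b _ => ?_
  split_ifs
  · rw [Equiv.Perm.sign_swap (by decide)]
    simp
  · simp

lemma PP_alt (h : B → B × Bool → B × Bool → ℂ) :
    PP (fun b i j => h b i j - h b j i) = 2 ^ Fintype.card B * PP h := by
  have h1 : ∀ s : B → Bool, PP h = ∑ σ : Equiv.Perm (B × Bool), cs σ *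
      ∏ b : B, (if s b then (-1) * h b (σ (b, true)) (σ (b, false)) else
        h b (σ (b, false)) (σ (b, true))) := by
    intro s
    unfold PP
    rw [← Equiv.sum_comp (Equiv.mulRight (flip s))]
    refine Finset.sum_congr rfl fun σ _ => ?_
    rw [Equiv.coe_mulRight, cs_mul, cs_flip, mul_assoc, ← Finset.prod_mul_distrib]
    congr 1
    refine Finset.prod_congr rfl fun b _ => ?_
    have e : ∀ c, (σ * flip s) (b, c) = σ (b, if s b then !c else c) := by
      intro c
      rw [Equiv.Perm.mul_apply]
      congr 1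
      unfold flip
      rw [Equiv.prodCongrRight_apply]
      split_ifs
      · cases c <;> simp
      · simp
    rw [e, e]
    split_ifs
    · simp
    · simp
  have h2 : ∑ s : B → Bool, PP h = 2 ^ Fintype.card B * PP h := by
    rw [Finset.sum_const, Finset.card_univ, Fintype.card_fun, Fintype.card_bool, nsmul_eq_mul]
    push_cast
    rfl
  rw [← h2, Finset.sum_congr rfl fun s _ => h1 s, Finset.sum_comm]
  unfold PP
  refine Finset.sum_congr rfl fun σ _ => ?_
  rw [← Finset.mul_sum]
  congr 1
  have h3 : ∏ b : B, (h b (σ (b, false)) (σ (b, true)) - h b (σ (b, true)) (σ (b, false))) =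
      ∏ b : B, ∑ c : Bool, (if c then (-1) * h b (σ (b, true)) (σ (b, false)) else
        h b (σ (b, false)) (σ (b, true))) := by
    refine Finset.prod_congr rfl fun b _ => ?_
    rw [Fintype.sum_bool]
    simp
    ring
  rw [h3, Finset.prod_univ_sum, Fintype.piFinset_univ]

lemma PP_rows (x : B × Bool → B × Bool → ℂ) :
    PP (fun b i j => x (b, false) i * x (b, true) j) =
      Matrix.det (Matrix.of x) := by
  unfold PP
  rw [← Matrix.det_transpose, Matrix.det_apply']
  refine Finset.sum_congr rfl fun σ _ => ?_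
  unfold cs
  congr 1
  rw [Fintype.prod_prod_type]
  refine Finset.prod_congr rfl fun b _ => ?_
  rw [Fintype.prod_bool, mul_comm]
  rfl

/-- decomposable bivectors in all slots -/
lemma PP_dec (x : B × Bool → B × Bool → ℂ) :
    PP (fun b i j => x (b, false) i * x (b, true) j - x (b, false) j * x (b, true) i) =
      2 ^ Fintype.card B * Matrix.det (Matrix.of x) := by
  rw [← PP_rows]
  exact PP_alt (fun b i j => x (b, false) i * x (b, true) j)

end

/-- the indices -/
abbrev I6 : Type := Fin 3 × Bool

/-- unit vectors -/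
def U (a i : I6) : ℂ := if i = a then 1 else 0

/-- mixed elementary bivectors -/
def mm (p : Fin 3 × Fin 3) (i j : I6) : ℂ :=
  U (p.1, false) i * U (p.2, true) j - U (p.1, false) j * U (p.2, true) i

/-- elementary bivectors of the two sides -/
def ss (p : I6) (i j : I6) : ℂ :=
  U (p.1 + 1, p.2) i * U (p.1 + 2, p.2) j - U (p.1 + 1, p.2) j * U (p.1 + 2, p.2) i

lemma PP_mm (α : Fin 3 → Fin 3 × Fin 3) : PP (fun b => mm (α b)) =
    8 * (lc (fun b => (α b).1) * lc (fun b => (α b).2)) := by
  have h := PP_dec (B := Fin 3) (fun r => if r.2 then U ((α r.1).2, true) else U ((α r.1).1, false))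
  have h1 : (fun (b : Fin 3) (i j : I6) =>
      (if ((b, false) : I6).2 then U ((α ((b, false) : I6).1).2, true) else
        U ((α ((b, false) : I6).1).1, false)) i *
      (if ((b, true) : I6).2 then U ((α ((b, true) : I6).1).2, true) else
        U ((α ((b, true) : I6).1).1, false)) j -
      (if ((b, false) : I6).2 then U ((α ((b, false) : I6).1).2, true) else
        U ((α ((b, false) : I6).1).1, false)) j *
      (if ((b, true) : I6).2 then U ((α ((b, true) : I6).1).2, true) else
        U ((α ((b, true) : I6).1).1, false)) i) = fun b => mm (α b) := by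
    funext b i j
    simp [mm]
  rw [h1] at h
  rw [h]
  have h2 : Matrix.of (fun r : I6 => if r.2 then U ((α r.1).2, true) else U ((α r.1).1, false)) =
      Matrix.blockDiagonal (fun c : Bool => if c then pm (fun b => (α b).2) else
        pm (fun b => (α b).1)) := by
    ext ⟨b, c⟩ ⟨b', c'⟩
    rw [Matrix.of_apply, Matrix.blockDiagonal_apply]
    cases c <;> cases c' <;> simp [U, pm, eq_comm]
  rw [h2, Matrix.det_blockDiagonal, Fintype.prod_bool]
  simp only [Fintype.card_fin, if_true, Bool.false_eq_true, if_false]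
  unfold lc
  norm_num
  ring

/-- the map of the rows -/
def gm (k l : Fin 3) (p q : I6) : I6 → I6
  | (0, false) => (k, false)
  | (0, true) => (l, true)
  | (1, false) => (p.1 + 1, p.2)
  | (1, true) => (p.1 + 2, p.2)
  | (2, false) => (q.1 + 1, q.2)
  | (2, true) => (q.1 + 2, q.2)

lemma PP_mss_det (k l : Fin 3) (p q : I6) : PP ![mm (k, l), ss p, ss q] =
    8 * Matrix.det (Matrix.of fun r => U (gm k l p q r)) := by
  have h := PP_dec (B := Fin 3) (fun r => U (gm k l p q r))
  have h1 : (fun (b : Fin 3) (i j : I6) => U (gm k l p q (b, false)) i * U (gm k l p q (b, true)) j -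
      U (gm k l p q (b, false)) j * U (gm k l p q (b, true)) i) = ![mm (k, l), ss p, ss q] := by
    funext b i j
    fin_cases b <;> simp [mm, ss, gm]
  rw [h1] at h
  rw [h]
  norm_num

lemma det_U_zero {g : I6 → I6} (hg : ∃ x y, x ≠ y ∧ g x = g y) :
    Matrix.det (Matrix.of fun r => U (g r)) = 0 := by
  obtain ⟨x, y, hxy, h⟩ := hg
  refine Matrix.det_zero_of_row_eq hxy ?_
  funext j
  rw [Matrix.of_apply, Matrix.of_apply, h]

lemma det_U_perm (σ : Equiv.Perm I6) :
    Matrix.det (Matrix.of fun r => U (σ r)) = cs σ := by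
  have h : Matrix.of (fun r => U (σ r)) = (1 : Matrix I6 I6 ℂ).submatrix σ id := by
    ext r i
    simp [U, Matrix.one_apply, eq_comm]
  rw [h, Matrix.det_permute, Matrix.det_one, mul_one]
  rfl

lemma dec_same : ∀ (k l a a' : Fin 3) (c : Bool),
    ∃ x y, x ≠ y ∧ gm k l (a, c) (a', c) x = gm k l (a, c) (a', c) y := by decide

lemma dec_diff : ∀ (k l a a' : Fin 3), ¬ (a = k ∧ a' = l) →
    ∃ x y, x ≠ y ∧ gm k l (a, false) (a', true) x = gm k l (a, false) (a', true) y := by decide

/-- the permutation for the remaining case -/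
lemma dec_bij : ∀ (k l : Fin 3), Function.Bijective (gm k l (k, false) (l, true)) := by decide

end Pool.Agent.T9h14.GP
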