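import Pool.Agent.T9h14.GP.Rows

/-!
# The polarised Pfaffian of a mixed and two other elementary bivectors
-/

set_option autoImplicit false

namespace Pool.Agent.T9h14.GP

open Finset Pool.Agent.TH598.GV Pool.Agent.TH991.J3417
open scoped ComplexConjugate

/-- the permutation of the remaining case -/
def tau (k l : Fin 3) : Equiv.Perm I6 :=
  Equiv.prodCongrLeft (fun c : Bool => Equiv.addRight (if c then l else k))

lemma gm_eq : ∀ (k l : Fin 3) (r : I6), gm k l (k, false) (l, true) r =
    (tau k l * Equiv.swap ((1 : Fin 3), true) ((2 : Fin 3), false)) r := by decide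

lemma sign_add : ∀ k : Fin 3, Equiv.Perm.sign (Equiv.addRight k : Equiv.Perm (Fin 3)) = 1 := by
  decide

lemma cs_tau (k l : Fin 3) : cs (tau k l) = 1 := by
  unfold cs tau
  rw [Equiv.Perm.sign_prodCongrLeft]
  simp [sign_add]

lemma det_gm (k l : Fin 3) :
    Matrix.det (Matrix.of fun r => U (gm k l (k, false) (l, true) r)) = -1 := by
  simp only [gm_eq]
  rw [det_U_perm, cs_mul, cs_tau, one_mul]
  unfold cs
  rw [Equiv.Perm.sign_swap (by decide)]
  simp

lemma PP_mss_same (k l a a' : Fin 3) (c : Bool) :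
    PP ![mm (k, l), ss (a, c), ss (a', c)] = 0 := by
  rw [PP_mss_det, det_U_zero (dec_same k l a a' c), mul_zero]

lemma PP_mss_ft (k l a a' : Fin 3) : PP ![mm (k, l), ss (a, false), ss (a', true)] =
    if a = k ∧ a' = l then -8 else 0 := by
  rw [PP_mss_det]
  split_ifs with h
  · obtain ⟨rfl, rfl⟩ := h
    rw [det_gm]
    norm_num
  · rw [det_U_zero (dec_diff k l a a' h), mul_zero]

lemma PP_swap12 (h0 h1 h2 : I6 → I6 → ℂ) : PP ![h0, h1, h2] = PP ![h0, h2, h1] := by
  rw [← PP_comp ![h0, h2, h1] (Equiv.swap 1 2)]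
  congr 1
  funext b
  fin_cases b <;> rfl

lemma PP_mss_tf (k l a a' : Fin 3) : PP ![mm (k, l), ss (a', true), ss (a, false)] =
    if a = k ∧ a' = l then -8 else 0 := by
  rw [PP_swap12, PP_mss_ft]

/-- linearity -/
lemma PP_lin (h : I6 → I6 → ℂ) {S : Type} [Fintype S] (ω : S → I6 → I6 → ℂ) (x y : S → ℂ) :
    PP ![h, fun i j => ∑ s, x s * ω s i j, fun i j => ∑ s, y s * ω s i j] =
      ∑ s, ∑ t, x s * y t * PP ![h, ω s, ω t] := by
  unfold PP
  simp only [Fin.prod_univ_three, Matrix.cons_val_zero, Matrix.cons_val_one, Matrix.cons_val]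
  calc ∑ σ : Equiv.Perm I6, cs σ * (h (σ (0, false)) (σ (0, true)) *
        (∑ s, x s * ω s (σ (1, false)) (σ (1, true))) *
        ∑ s, y s * ω s (σ (2, false)) (σ (2, true)))
      = ∑ σ : Equiv.Perm I6, ∑ s, ∑ t, x s * y t * (cs σ * (h (σ (0, false)) (σ (0, true)) *
        ω s (σ (1, false)) (σ (1, true)) * ω t (σ (2, false)) (σ (2, true)))) := by
        refine Finset.sum_congr rfl fun σ _ => ?_
        rw [mul_assoc, Finset.sum_mul_sum, Finset.mul_sum, Finset.mul_sum]
        refine Finset.sum_congr rfl fun s _ => ?_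
        rw [Finset.mul_sum, Finset.mul_sum]
        refine Finset.sum_congr rfl fun t _ => ?_
        ring
    _ = ∑ s, ∑ σ : Equiv.Perm I6, ∑ t, x s * y t * (cs σ * (h (σ (0, false)) (σ (0, true)) *
        ω s (σ (1, false)) (σ (1, true)) * ω t (σ (2, false)) (σ (2, true)))) :=
        Finset.sum_comm
    _ = _ := by
        refine Finset.sum_congr rfl fun s _ => ?_
        rw [Finset.sum_comm]
        exact Finset.sum_congr rfl fun t _ => (Finset.mul_sum _ _ _).symm

/-- the value on a bivector of the two sides -/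
lemma PP_mss_val (k l : Fin 3) (x : I6 → ℂ) :
    PP ![mm (k, l), fun i j => ∑ s, x s * ss s i j, fun i j => ∑ s, x s * ss s i j] =
      -16 * (x (k, false) * x (l, true)) := by
  rw [PP_lin]
  simp only [Fintype.sum_prod_type, Fintype.sum_bool, PP_mss_same, PP_mss_ft, PP_mss_tf]
  have h : ∀ a a' : Fin 3, x (a, true) * x (a', true) * 0 + x (a, true) * x (a', false) *
      (if a' = k ∧ a = l then (-8 : ℂ) else 0) = if a' = k then (if a = l then
        -8 * (x (l, true) * x (k, false)) else 0) else 0 := by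
    intro a a'
    by_cases h1 : a' = k
    · by_cases h2 : a = l
      · subst h1 h2
        simp
        ring
      · simp [h1, h2]
    · simp [h1]
  have h' : ∀ a a' : Fin 3, x (a, false) * x (a', true) *
      (if a = k ∧ a' = l then (-8 : ℂ) else 0) + x (a, false) * x (a', false) * 0 =
      if a = k then (if a' = l then -8 * (x (k, false) * x (l, true)) else 0) else 0 := by
    intro a a'
    by_cases h1 : a = k
    · by_cases h2 : a' = l
      · subst h1 h2
        simp
        ring
      · simp [h1, h2]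
    · simp [h1]
  simp only [h, h']
  simp only [Finset.sum_ite_eq', Finset.sum_ite_eq, Finset.mem_univ, if_true,
    Finset.sum_add_distrib, Finset.sum_const_zero]
  have h3 : ∀ a : Fin 3, ∑ a' : Fin 3, (if a = k then (if a' = l then
      -8 * (x (k, false) * x (l, true)) else 0) else 0) =
      if a = k then -8 * (x (k, false) * x (l, true)) else 0 := by
    intro a
    split_ifs
    · rw [Finset.sum_ite_eq', if_pos (Finset.mem_univ _)]
    · simp
  simp only [h3, Finset.sum_ite_eq', Finset.mem_univ, if_true]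
  ring

end Pool.Agent.T9h14.GP
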