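import Pool.Agent.T9h14.GP.Cov

/-!
# Operator scaling: every strictly positive form is equivalent to a doubly stochastic one
-/

set_option autoImplicit false

namespace Pool.Agent.T9h14.GP

open Finset
open scoped ComplexConjugate

/-- squared norm of a vector -/
noncomputable def n2 (x : Fin 3 → ℂ) : ℝ := ∑ i, Complex.normSq (x i)

lemma n2_nonneg (x : Fin 3 → ℂ) : 0 ≤ n2 x := Finset.sum_nonneg fun _ _ => Complex.normSq_nonneg _

/-- the sum of the values on the columns -/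
noncomputable def FF (ρ : T4) (A B : Matrix (Fin 3) (Fin 3) ℂ) : ℝ :=
  ∑ i, ∑ j, (qq ρ (fun a => A a i) (fun b => B b j)).re

/-- squared norm of a matrix -/
noncomputable def S2 (A : Matrix (Fin 3) (Fin 3) ℂ) : ℝ := ∑ i, n2 (fun a => A a i)

lemma S2_nonneg (A : Matrix (Fin 3) (Fin 3) ℂ) : 0 ≤ S2 A :=
  Finset.sum_nonneg fun _ _ => n2_nonneg _

lemma le_S2 (A : Matrix (Fin 3) (Fin 3) ℂ) (i j : Fin 3) : ‖A i j‖ ^ 2 ≤ S2 A := by
  have h1 : Complex.normSq (A i j) ≤ n2 (fun a => A a j) :=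
    Finset.single_le_sum (f := fun a => Complex.normSq (A a j))
      (fun _ _ => Complex.normSq_nonneg _) (Finset.mem_univ i)
  have h2 : n2 (fun a => A a j) ≤ S2 A :=
    Finset.single_le_sum (f := fun i => n2 (fun a => A a i))
      (fun _ _ => n2_nonneg _) (Finset.mem_univ j)
  rw [← Complex.normSq_eq_norm_sq]
  exact h1.trans h2

lemma S2_lower {A : Matrix (Fin 3) (Fin 3) ℂ} (h : A.det = 1) : 1 / 4 ≤ S2 A := by
  by_contra hc
  push Not at hc
  have h1 : ∀ i j, ‖A i j‖ ≤ 1 / 2 := by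
    intro i j
    have := le_S2 A i j
    have h0 := norm_nonneg (A i j)
    nlinarith
  have h2 : ∀ a b c d e f : Fin 3, ‖A a b * A c d * A e f‖ ≤ 1 / 8 := by
    intro a b c d e f
    rw [norm_mul, norm_mul]
    calc ‖A a b‖ * ‖A c d‖ * ‖A e f‖ ≤ 1 / 2 * (1 / 2) * (1 / 2) := by
          refine mul_le_mul (mul_le_mul (h1 _ _) (h1 _ _) (norm_nonneg _) (by norm_num)) (h1 _ _)
            (norm_nonneg _) (by norm_num)
      _ = 1 / 8 := by norm_num
  rw [Matrix.det_fin_three] at h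
  have h3 := congrArg norm h
  rw [norm_one] at h3
  have h4 : ‖A 0 0 * A 1 1 * A 2 2 - A 0 0 * A 1 2 * A 2 1 - A 0 1 * A 1 0 * A 2 2 +
      A 0 1 * A 1 2 * A 2 0 + A 0 2 * A 1 0 * A 2 1 - A 0 2 * A 1 1 * A 2 0‖ ≤
      1 / 8 + 1 / 8 + 1 / 8 + 1 / 8 + 1 / 8 + 1 / 8 := by
    refine (norm_sub_le _ _).trans (add_le_add ?_ (h2 _ _ _ _ _ _))
    refine (norm_add_le _ _).trans (add_le_add ?_ (h2 _ _ _ _ _ _))
    refine (norm_add_le _ _).trans (add_le_add ?_ (h2 _ _ _ _ _ _))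
    refine (norm_sub_le _ _).trans (add_le_add ?_ (h2 _ _ _ _ _ _))
    exact (norm_sub_le _ _).trans (add_le_add (h2 _ _ _ _ _ _) (h2 _ _ _ _ _ _))
  rw [h3] at h4
  norm_num at h4

lemma FF_lower {ρ : T4} {ε : ℝ} (hε : ∀ x y, ε * n2 x * n2 y ≤ (qq ρ x y).re)
    (A B : Matrix (Fin 3) (Fin 3) ℂ) : ε * S2 A * S2 B ≤ FF ρ A B := by
  unfold S2 FF
  rw [mul_assoc, Finset.sum_mul_sum, Finset.mul_sum]
  refine Finset.sum_le_sum fun i _ => ?_
  rw [Finset.mul_sum]
  refine Finset.sum_le_sum fun j _ => ?_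
  rw [← mul_assoc]
  exact hε _ _

lemma FF_cont (ρ : T4) : Continuous (fun p : (Fin 3 → Fin 3 → ℂ) × (Fin 3 → Fin 3 → ℂ) =>
    FF ρ (Matrix.of p.1) (Matrix.of p.2)) := by
  unfold FF qq
  simp only [Matrix.of_apply]
  refine continuous_finsetSum _ fun i _ => continuous_finsetSum _ fun j _ => ?_
  refine Complex.continuous_re.comp ?_
  refine continuous_finsetSum _ fun i' _ => continuous_finsetSum _ fun j' _ =>
    continuous_finsetSum _ fun k' _ => continuous_finsetSum _ fun l' _ => ?_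
  have hc : Continuous (starRingEnd ℂ) := Complex.continuous_conj
  fun_prop

lemma exists_min {ρ : T4} {ε : ℝ} (hε0 : 0 < ε)
    (hε : ∀ x y, ε * n2 x * n2 y ≤ (qq ρ x y).re) :
    ∃ A B : Matrix (Fin 3) (Fin 3) ℂ, A.det = 1 ∧ B.det = 1 ∧
      ∀ A' B' : Matrix (Fin 3) (Fin 3) ℂ, A'.det = 1 → B'.det = 1 → FF ρ A B ≤ FF ρ A' B' := by
  set C := FF ρ 1 1 with hC
  let K : Set ((Fin 3 → Fin 3 → ℂ) × (Fin 3 → Fin 3 → ℂ)) :=
    {p | (Matrix.of p.1).det = 1 ∧ (Matrix.of p.2).det = 1 ∧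
      FF ρ (Matrix.of p.1) (Matrix.of p.2) ≤ C}
  have hK1 : IsClosed K := by
    have c1 : Continuous (fun p : (Fin 3 → Fin 3 → ℂ) × (Fin 3 → Fin 3 → ℂ) =>
        (Matrix.of p.1).det) := by
      simp only [Matrix.det_fin_three, Matrix.of_apply]
      fun_prop
    have c2 : Continuous (fun p : (Fin 3 → Fin 3 → ℂ) × (Fin 3 → Fin 3 → ℂ) =>
        (Matrix.of p.2).det) := by
      simp only [Matrix.det_fin_three, Matrix.of_apply]
      fun_prop
    exact (isClosed_eq c1 continuous_const).inter ((isClosed_eq c2 continuous_const).inter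
      (isClosed_le (FF_cont ρ) continuous_const))
  have hb : ∀ A B : Matrix (Fin 3) (Fin 3) ℂ, A.det = 1 → B.det = 1 → FF ρ A B ≤ C →
      (∀ i j, ‖A i j‖ ≤ 4 * C / ε + 1) ∧ (∀ i j, ‖B i j‖ ≤ 4 * C / ε + 1) := by
    intro A B hA hB h
    have h1 := FF_lower hε A B
    have hA' := S2_lower hA
    have hB' := S2_lower hB
    have h2 : ε * S2 A * S2 B ≤ C := h1.trans h
    have h3 : S2 A ≤ 4 * C / ε := by
      rw [le_div_iff₀ hε0]
      have : 0 ≤ ε * S2 A := by positivity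
      nlinarith
    have h4 : S2 B ≤ 4 * C / ε := by
      rw [le_div_iff₀ hε0]
      have : 0 ≤ ε * S2 B := mul_nonneg hε0.le (S2_nonneg _)
      nlinarith
    constructor
    · intro i j
      have h5 := (le_S2 A i j).trans h3
      nlinarith [norm_nonneg (A i j), sq_nonneg (‖A i j‖ - 1)]
    · intro i j
      have h5 := (le_S2 B i j).trans h4
      nlinarith [norm_nonneg (B i j), sq_nonneg (‖B i j‖ - 1)]
  let I : Fin 3 → Fin 3 → ℂ := fun a b => (1 : Matrix (Fin 3) (Fin 3) ℂ) a b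
  have hI : (Matrix.of I) = 1 := rfl
  have hne : (I, I) ∈ K := by
    refine ⟨?_, ?_, ?_⟩
    · change (Matrix.of I).det = 1
      rw [hI, Matrix.det_one]
    · change (Matrix.of I).det = 1
      rw [hI, Matrix.det_one]
    · exact le_refl _
  have hR : 0 ≤ 4 * C / ε + 1 := by
    have := (hb 1 1 (Matrix.det_one) (Matrix.det_one) le_rfl).1 0 0
    exact (norm_nonneg _).trans this
  have hK2 : IsCompact K := by
    refine Metric.isCompact_of_isClosed_isBounded hK1 ?_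
    refine Bornology.IsBounded.subset (Metric.isBounded_closedBall (x := 0)
      (r := 4 * C / ε + 1)) ?_
    rintro ⟨A, B⟩ ⟨h1, h2, h3⟩
    have h4 := hb (Matrix.of A) (Matrix.of B) h1 h2 h3
    rw [mem_closedBall_zero_iff, Prod.norm_def]
    refine max_le ?_ ?_
    · rw [pi_norm_le_iff_of_nonneg hR]
      intro i
      rw [pi_norm_le_iff_of_nonneg hR]
      exact fun j => h4.1 i j
    · rw [pi_norm_le_iff_of_nonneg hR]
      intro i
      rw [pi_norm_le_iff_of_nonneg hR]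
      exact fun j => h4.2 i j
  obtain ⟨p, hp, hmin⟩ := hK2.exists_isMinOn ⟨_, hne⟩ (FF_cont ρ).continuousOn
  refine ⟨Matrix.of p.1, Matrix.of p.2, hp.1, hp.2.1, ?_⟩
  intro A' B' hA hB
  by_cases h : FF ρ A' B' ≤ C
  · have : ((fun a b => A' a b, fun a b => B' a b) :
        (Fin 3 → Fin 3 → ℂ) × (Fin 3 → Fin 3 → ℂ)) ∈ K := ⟨hA, hB, h⟩
    have h5 := isMinOn_iff.1 hmin _ this
    have e : FF ρ (Matrix.of (fun a b => A' a b)) (Matrix.of fun a b => B' a b) = FF ρ A' B' := rfl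
    rw [← e]
    exact h5
  · push Not at h
    exact hp.2.2.trans h.le

lemma sc1 {z : ℂ} {r : ℝ} (h : ∀ t : ℂ, 0 ≤ 2 * (t * z).re + Complex.normSq t * r) : z = 0 := by
  by_contra hz
  have hn : 0 < Complex.normSq z := Complex.normSq_pos.2 hz
  set s : ℝ := 1 / (|r| + 1) with hs
  have hs0 : 0 < s := by positivity
  have h1 := h (-(s : ℂ) * conj z)
  have h2 : (-(s : ℂ) * conj z * z).re = -s * Complex.normSq z := by
    have : -(s : ℂ) * conj z * z = ((-s * Complex.normSq z : ℝ) : ℂ) := by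
      push_cast
      rw [mul_assoc, mul_comm (conj z) z, Complex.mul_conj]
    rw [this, Complex.ofReal_re]
  have h3 : Complex.normSq (-(s : ℂ) * conj z) = s ^ 2 * Complex.normSq z := by
    rw [Complex.normSq_mul, Complex.normSq_neg, Complex.normSq_ofReal, Complex.normSq_conj]
    ring
  rw [h2, h3] at h1
  have h4 : s * r < 1 := by
    have h5 : s * r ≤ s * |r| := mul_le_mul_of_nonneg_left (le_abs_self r) hs0.le
    have h6 : s * |r| < 1 := by
      rw [hs, div_mul_eq_mul_div, one_mul, div_lt_one (by positivity)]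
      linarith
    linarith
  have h7 : 0 < s * Complex.normSq z := mul_pos hs0 hn
  nlinarith

lemma sc2 {p q : ℝ} (h : ∀ a : ℝ, 0 < a → p + q ≤ a ^ 2 * p + (a⁻¹) ^ 2 * q) : q ≤ p := by
  by_contra hc
  push Not at hc
  set s : ℝ := (q - p) / (2 * (|p| + 1)) with hs
  have hs0 : 0 < s := div_pos (by linarith) (by positivity)
  have h1 := h (Real.sqrt (1 + s)) (Real.sqrt_pos.2 (by linarith))
  rw [inv_pow, Real.sq_sqrt (by linarith)] at h1
  have h2 : 0 < 1 + s := by linarith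
  have h3 : (1 + s) * (p + q) ≤ (1 + s) ^ 2 * p + q := by
    have := mul_le_mul_of_nonneg_left h1 h2.le
    have e : (1 + s) * ((1 + s) * p + (1 + s)⁻¹ * q) = (1 + s) ^ 2 * p + q := by
      field_simp
    linarith
  have h4 : s * q ≤ s * (1 + s) * p := by nlinarith
  have h5 : q ≤ (1 + s) * p := by
    have := (mul_le_mul_iff_right₀ hs0).1 (by linarith : s * q ≤ s * ((1 + s) * p))
    exact this
  have h6 : s * p ≤ s * |p| := mul_le_mul_of_nonneg_left (le_abs_self p) hs0.le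
  have h7 : s * |p| ≤ (q - p) / 2 := by
    rw [hs, div_mul_eq_mul_div, div_le_div_iff₀ (by positivity) (by norm_num)]
    nlinarith [abs_nonneg p]
  linarith

/-- the first partial trace -/
noncomputable def pt (ρ : T4) (i k : Fin 3) : ℂ := ∑ j, ρ i j k j

/-- the functional in terms of the partial trace -/
lemma FF_one (ρ : T4) (A : Matrix (Fin 3) (Fin 3) ℂ) :
    FF ρ A 1 = ∑ c, (∑ i, ∑ k, A i c * conj (A k c) * pt ρ i k).re := by
  unfold FF
  refine Finset.sum_congr rfl fun c _ => ?_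
  rw [← Complex.re_sum]
  congr 1
  unfold qq pt
  have h : ∀ e : Fin 3, ∑ i, ∑ j, ∑ k, ∑ l, A i c * (1 : Matrix (Fin 3) (Fin 3) ℂ) j e *
      conj (A k c) * conj ((1 : Matrix (Fin 3) (Fin 3) ℂ) l e) * ρ i j k l =
      ∑ i, ∑ k, A i c * conj (A k c) * ρ i e k e := by
    intro e
    refine Finset.sum_congr rfl fun i _ => ?_
    rw [Finset.sum_comm]
    refine Finset.sum_congr rfl fun k _ => ?_
    rw [Finset.sum_eq_single e]
    · rw [Finset.sum_eq_single e]
      · simp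
      · intro l _ hl
        rw [Matrix.one_apply_ne hl]
        simp
      · simp
    · intro j _ hj
      refine Finset.sum_eq_zero fun l _ => ?_
      rw [Matrix.one_apply_ne hj]
      ring
    · simp
  simp only [h, Finset.mul_sum]
  rw [Finset.sum_comm]
  refine Finset.sum_congr rfl fun i _ => ?_
  rw [Finset.sum_comm]

lemma pt_herm {ρ : T4} (h : ∀ i j k l, conj (ρ i j k l) = ρ k l i j) (i k : Fin 3) :
    conj (pt ρ i k) = pt ρ k i := by
  unfold pt
  rw [map_sum]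
  exact Finset.sum_congr rfl fun j _ => h _ _ _ _

/-- first order conditions -/
lemma first_order {ρ : T4} (h : ∀ i j k l, conj (ρ i j k l) = ρ k l i j)
    (hmin : ∀ A : Matrix (Fin 3) (Fin 3) ℂ, A.det = 1 → FF ρ 1 1 ≤ FF ρ A 1) :
    ∃ c : ℂ, ∀ i k, pt ρ i k = if i = k then c else 0 := by
  have hh := pt_herm h
  have him : ∀ i, (pt ρ i i).im = 0 := fun i => Complex.conj_eq_iff_im.1 (hh i i)
  simp only [FF_one] at hmin
  have e1 : ∑ c, (∑ i, ∑ k, (1 : Matrix (Fin 3) (Fin 3) ℂ) i c *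
      conj ((1 : Matrix (Fin 3) (Fin 3) ℂ) k c) * pt ρ i k).re =
      (pt ρ 0 0).re + (pt ρ 1 1).re + (pt ρ 2 2).re := by
    simp [Fin.sum_univ_three, Matrix.one_apply]
  rw [e1] at hmin
  have r10 : pt ρ 1 0 = conj (pt ρ 0 1) := (hh 0 1).symm
  have r20 : pt ρ 2 0 = conj (pt ρ 0 2) := (hh 0 2).symm
  have r21 : pt ρ 2 1 = conj (pt ρ 1 2) := (hh 1 2).symm
  have z01 : pt ρ 0 1 = 0 := by
    refine sc1 (r := (pt ρ 0 0).re) fun t => ?_
    have h1 := hmin !![1, t, 0; 0, 1, 0; 0, 0, 1] (by simp [Matrix.det_fin_three])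
    simp only [Fin.sum_univ_three] at h1
    simp [r10, Complex.normSq_apply, him] at h1
    simp only [Complex.mul_re, Complex.normSq_apply]
    nlinarith [h1]
  have z02 : pt ρ 0 2 = 0 := by
    refine sc1 (r := (pt ρ 0 0).re) fun t => ?_
    have h1 := hmin !![1, 0, t; 0, 1, 0; 0, 0, 1] (by simp [Matrix.det_fin_three])
    simp only [Fin.sum_univ_three] at h1
    simp [r20, Complex.normSq_apply, him] at h1
    simp only [Complex.mul_re, Complex.normSq_apply]
    nlinarith [h1]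
  have z12 : pt ρ 1 2 = 0 := by
    refine sc1 (r := (pt ρ 1 1).re) fun t => ?_
    have h1 := hmin !![1, 0, 0; 0, 1, t; 0, 0, 1] (by simp [Matrix.det_fin_three])
    simp only [Fin.sum_univ_three] at h1
    simp [r21, Complex.normSq_apply, him] at h1
    simp only [Complex.mul_re, Complex.normSq_apply]
    nlinarith [h1]
  have d01 : ∀ a : ℝ, 0 < a →
      (pt ρ 0 0).re + (pt ρ 1 1).re ≤ a ^ 2 * (pt ρ 0 0).re + (a⁻¹) ^ 2 * (pt ρ 1 1).re := by
    intro a ha
    have ha' : (a : ℂ) ≠ 0 := by exact_mod_cast ha.ne'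
    have h1 := hmin !![(a : ℂ), 0, 0; 0, ((a⁻¹ : ℝ) : ℂ), 0; 0, 0, 1] (by
      simp [Matrix.det_fin_three, ha'])
    simp only [Fin.sum_univ_three] at h1
    simp [-Complex.ofReal_inv] at h1
    nlinarith [h1]
  have d12 : ∀ a : ℝ, 0 < a →
      (pt ρ 1 1).re + (pt ρ 2 2).re ≤ a ^ 2 * (pt ρ 1 1).re + (a⁻¹) ^ 2 * (pt ρ 2 2).re := by
    intro a ha
    have ha' : (a : ℂ) ≠ 0 := by exact_mod_cast ha.ne'
    have h1 := hmin !![1, 0, 0; 0, (a : ℂ), 0; 0, 0, ((a⁻¹ : ℝ) : ℂ)] (by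
      simp [Matrix.det_fin_three, ha'])
    simp only [Fin.sum_univ_three] at h1
    simp [-Complex.ofReal_inv] at h1
    nlinarith [h1]
  have flip : ∀ p q : ℝ, (∀ a : ℝ, 0 < a → p + q ≤ a ^ 2 * p + (a⁻¹) ^ 2 * q) → p = q := by
    intro p q hpq
    refine le_antisymm (sc2 fun a ha => ?_) (sc2 hpq)
    have := hpq a⁻¹ (inv_pos.2 ha)
    rw [inv_inv] at this
    linarith
  have f01 := flip _ _ d01
  have f12 := flip _ _ d12
  have g01 : pt ρ 0 0 = pt ρ 1 1 := Complex.ext f01 (by rw [him, him])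
  have g12 : pt ρ 1 1 = pt ρ 2 2 := Complex.ext f12 (by rw [him, him])
  have z10 : pt ρ 1 0 = 0 := by rw [r10, z01, map_zero]
  have z20 : pt ρ 2 0 = 0 := by rw [r20, z02, map_zero]
  have z21 : pt ρ 2 1 = 0 := by rw [r21, z12, map_zero]
  refine ⟨pt ρ 0 0, ?_⟩
  intro i k
  fin_cases i <;> fin_cases k <;>
    simp [z01, z02, z12, z10, z20, z21, g01, g12]

end Pool.Agent.T9h14.GP
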