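import Pool.Agent.T9h14.GP.Moment

/-!
# The cubic trace inequality, and the doubly stochastic case
-/

set_option autoImplicit false

namespace Pool.Agent.T9h14.GP

open Finset MeasureTheory
open Pool.Agent.TH598.GV (gw)
open scoped ComplexConjugate ComplexOrder

/-- Schur's inequality together with the inequality for the product -/
lemma schur_ineq {a b c : ℝ} (ha : 0 ≤ a) (hb : 0 ≤ b) (hc : 0 ≤ c) :
    0 ≤ 2 * (a + b + c) ^ 3 - 9 * ((a + b + c) * (a ^ 2 + b ^ 2 + c ^ 2)) +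
      10 * (a ^ 3 + b ^ 3 + c ^ 3) := by
  have key : ∀ x y z : ℝ, 0 ≤ z → z ≤ y → y ≤ x →
      0 ≤ x * (x - y) * (x - z) + y * (y - x) * (y - z) + z * (z - x) * (z - y) := by
    intro x y z hz hzy hyx
    have h1 : 0 ≤ (x - y) * (x * (x - z) - y * (y - z)) := by
      apply mul_nonneg (by linarith)
      nlinarith
    have h2 : 0 ≤ z * ((x - z) * (y - z)) :=
      mul_nonneg hz (mul_nonneg (by linarith) (by linarith))
    nlinarith
  have hs : 0 ≤ a * (a - b) * (a - c) + b * (b - a) * (b - c) + c * (c - a) * (c - b) := by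
    rcases le_total a b with h1 | h1 <;> rcases le_total b c with h2 | h2 <;>
      rcases le_total a c with h3 | h3
    · have := key c b a ha h1 h2; linarith
    · have := key c b a ha h1 h2; linarith
    · have := key b c a ha h3 h2; linarith
    · have := key b a c hc h3 h1; linarith
    · have := key c a b hb h1 h3; linarith
    · have := key a c b hb h2 h3; linarith
    · have := key a b c hc h2 h1; linarith
    · have := key a b c hc h2 h1; linarith
  have hp : 0 ≤ a * b * c := by positivity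
  nlinarith

/-- the cubic form on diagonal matrices -/
lemma D3_diag (d : Fin 3 → ℂ) : D3 2 3 5 (Matrix.diagonal d) (Matrix.diagonal d)
    (Matrix.diagonal d) = 2 * (d 0 + d 1 + d 2) ^ 3 -
      9 * ((d 0 + d 1 + d 2) * (d 0 ^ 2 + d 1 ^ 2 + d 2 ^ 2)) +
      10 * (d 0 ^ 3 + d 1 ^ 3 + d 2 ^ 3) := by
  unfold D3
  rw [Matrix.diagonal_mul_diagonal, Matrix.diagonal_mul_diagonal, Matrix.trace_diagonal,
    Matrix.trace_diagonal, Matrix.trace_diagonal]
  simp only [Fin.sum_univ_three]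
  ring

/-- positivity of the cubic form -/
lemma D3_pos (M : Matrix (Fin 3) (Fin 3) ℂ) (hM : M.PosSemidef) :
    0 ≤ (D3 2 3 5 M M M).re := by
  have hs := hM.1.spectral_theorem
  set D : Matrix (Fin 3) (Fin 3) ℂ := Matrix.diagonal (RCLike.ofReal ∘ hM.1.eigenvalues) with hD
  set φ := Unitary.conjStarAlgAut ℂ (Matrix (Fin 3) (Fin 3) ℂ) hM.1.eigenvectorUnitary with hφ
  have ht : ∀ X : Matrix (Fin 3) (Fin 3) ℂ, (φ X).trace = X.trace := by
    intro X
    rw [hφ, Unitary.conjStarAlgAut_apply, Matrix.trace_mul_comm, ← mul_assoc,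
      Unitary.coe_star_mul_self, one_mul]
  have h1 : D3 2 3 5 M M M = D3 2 3 5 D D D := by
    unfold D3
    conv_lhs => rw [hs]
    rw [← map_mul, ← map_mul, ht, ht, ht]
  rw [h1, hD, D3_diag]
  have h2 := schur_ineq (hM.eigenvalues_nonneg 0) (hM.eigenvalues_nonneg 1)
    (hM.eigenvalues_nonneg 2)
  have h3 : (2 * ((RCLike.ofReal ∘ hM.1.eigenvalues) 0 + (RCLike.ofReal ∘ hM.1.eigenvalues) 1 +
      (RCLike.ofReal ∘ hM.1.eigenvalues) 2) ^ 3 -
      9 * (((RCLike.ofReal ∘ hM.1.eigenvalues) 0 + (RCLike.ofReal ∘ hM.1.eigenvalues) 1 +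
      (RCLike.ofReal ∘ hM.1.eigenvalues) 2) * ((RCLike.ofReal ∘ hM.1.eigenvalues) 0 ^ 2 +
      (RCLike.ofReal ∘ hM.1.eigenvalues) 1 ^ 2 + (RCLike.ofReal ∘ hM.1.eigenvalues) 2 ^ 2)) +
      10 * ((RCLike.ofReal ∘ hM.1.eigenvalues) 0 ^ 3 + (RCLike.ofReal ∘ hM.1.eigenvalues) 1 ^ 3 +
      (RCLike.ofReal ∘ hM.1.eigenvalues) 2 ^ 3) : ℂ) =
      ((2 * (hM.1.eigenvalues 0 + hM.1.eigenvalues 1 + hM.1.eigenvalues 2) ^ 3 -
      9 * ((hM.1.eigenvalues 0 + hM.1.eigenvalues 1 + hM.1.eigenvalues 2) *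
        (hM.1.eigenvalues 0 ^ 2 + hM.1.eigenvalues 1 ^ 2 + hM.1.eigenvalues 2 ^ 2)) +
      10 * (hM.1.eigenvalues 0 ^ 3 + hM.1.eigenvalues 1 ^ 3 +
        hM.1.eigenvalues 2 ^ 3) : ℝ) : ℂ) := by
    simp only [Function.comp_apply]
    push_cast
    rfl
  rw [h3, Complex.ofReal_re]
  exact h2

/-- the value of the form on decomposable vectors -/
noncomputable def qq (ρ : T4) (x y : Fin 3 → ℂ) : ℂ :=
  ∑ i, ∑ j, ∑ k, ∑ l, x i * y j * conj (x k) * conj (y l) * ρ i j k l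

/-- block positivity -/
structure BP (ρ : T4) : Prop where
  herm : ∀ i j k l, conj (ρ i j k l) = ρ k l i j
  pos : ∀ x y, 0 ≤ (qq ρ x y).re

lemma conj_qq {ρ : T4} (h : ∀ i j k l, conj (ρ i j k l) = ρ k l i j) (x y : Fin 3 → ℂ) :
    conj (qq ρ x y) = qq ρ x y := by
  unfold qq
  simp only [map_sum, map_mul, Complex.conj_conj, h]
  have h1 : ∀ F : Fin 3 → Fin 3 → Fin 3 → Fin 3 → ℂ,
      ∑ i, ∑ j, ∑ k, ∑ l, F i j k l = ∑ k, ∑ l, ∑ i, ∑ j, F i j k l := by
    intro F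
    calc ∑ i, ∑ j, ∑ k, ∑ l, F i j k l = ∑ i, ∑ k, ∑ j, ∑ l, F i j k l :=
          Finset.sum_congr rfl fun i _ => Finset.sum_comm
      _ = ∑ k, ∑ i, ∑ j, ∑ l, F i j k l := Finset.sum_comm
      _ = ∑ k, ∑ i, ∑ l, ∑ j, F i j k l :=
          Finset.sum_congr rfl fun k _ => Finset.sum_congr rfl fun i _ => Finset.sum_comm
      _ = ∑ k, ∑ l, ∑ i, ∑ j, F i j k l :=
          Finset.sum_congr rfl fun k _ => Finset.sum_comm
  rw [h1]
  refine Finset.sum_congr rfl fun i _ => Finset.sum_congr rfl fun j _ =>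
    Finset.sum_congr rfl fun k _ => Finset.sum_congr rfl fun l _ => ?_
  ring

lemma Ap_psd {ρ : T4} (h : BP ρ) (ξ : Fin 3 → ℂ) : (Ap ρ ξ).PosSemidef := by
  rw [Matrix.posSemidef_iff_dotProduct_mulVec]
  constructor
  · ext j l
    rw [Matrix.conjTranspose_apply]
    unfold Ap
    rw [← starRingEnd_apply, map_sum]
    simp only [map_sum, map_mul, h.herm, Complex.conj_conj]
    rw [Finset.sum_comm]
    refine Finset.sum_congr rfl fun i _ => Finset.sum_congr rfl fun k _ => ?_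
    ring
  · intro y
    have e : star y ⬝ᵥ (Ap ρ ξ).mulVec y = qq ρ ξ (fun j => conj (y j)) := by
      unfold qq Ap dotProduct Matrix.mulVec dotProduct
      simp only [Pi.star_apply, Finset.mul_sum, Finset.sum_mul, ← starRingEnd_apply,
        Complex.conj_conj]
      calc ∑ j, ∑ l, ∑ i, ∑ k, conj (y j) * (ξ i * conj (ξ k) * ρ i j k l * y l)
          = ∑ j, ∑ i, ∑ l, ∑ k, conj (y j) * (ξ i * conj (ξ k) * ρ i j k l * y l) :=
            Finset.sum_congr rfl fun j _ => Finset.sum_comm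
        _ = ∑ i, ∑ j, ∑ l, ∑ k, conj (y j) * (ξ i * conj (ξ k) * ρ i j k l * y l) :=
            Finset.sum_comm
        _ = ∑ i, ∑ j, ∑ k, ∑ l, conj (y j) * (ξ i * conj (ξ k) * ρ i j k l * y l) :=
            Finset.sum_congr rfl fun i _ => Finset.sum_congr rfl fun j _ => Finset.sum_comm
        _ = _ := by
            refine Finset.sum_congr rfl fun i _ => Finset.sum_congr rfl fun j _ =>
              Finset.sum_congr rfl fun k _ => Finset.sum_congr rfl fun l _ => ?_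
            ring
    rw [e, Complex.nonneg_iff]
    refine ⟨h.pos _ _, ?_⟩
    have := conj_qq h.herm ξ (fun j => conj (y j))
    rw [Complex.conj_eq_iff_im] at this
    exact this.symm

/-- the doubly stochastic case -/
theorem G2_DS {ρ : T4} (h : BP ρ) {c : ℂ} (hd : DS c (sl ρ)) : 0 ≤ (G2 (fun _ => ρ)).re := by
  rw [G2_MM]
  have h1 := MM_key hd
  have h2 := moment ρ 2 3 5
  have h3 : 0 ≤ (∫ ξ : Fin 3 → ℂ, D3 2 3 5 (Ap ρ ξ) (Ap ρ ξ) (Ap ρ ξ) * (gw ξ : ℂ)).re := by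
    have h4 : (∫ ξ : Fin 3 → ℂ, D3 2 3 5 (Ap ρ ξ) (Ap ρ ξ) (Ap ρ ξ) * (gw ξ : ℂ)).re =
        ∫ ξ : Fin 3 → ℂ, (D3 2 3 5 (Ap ρ ξ) (Ap ρ ξ) (Ap ρ ξ) * (gw ξ : ℂ)).re :=
      (integral_re h2.1).symm
    rw [h4]
    refine integral_nonneg fun ξ => ?_
    simp only [Pi.zero_apply, Complex.re_mul_ofReal]
    refine mul_nonneg (D3_pos _ (Ap_psd h ξ)) ?_
    exact (Real.exp_pos _).le
  rw [h2.2, ← h1] at h3
  have h5 : ((Real.pi : ℂ) ^ 3 * (5 * MM 1 1 1 1 (sl ρ))).re =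
      (5 * Real.pi ^ 3) * (MM 1 1 1 1 (sl ρ)).re := by
    have : (Real.pi : ℂ) ^ 3 * (5 * MM 1 1 1 1 (sl ρ)) =
        ((5 * Real.pi ^ 3 : ℝ) : ℂ) * MM 1 1 1 1 (sl ρ) := by
      push_cast
      ring
    rw [this, Complex.re_ofReal_mul]
  rw [h5] at h3
  have h6 : 0 < 5 * Real.pi ^ 3 := by positivity
  exact nonneg_of_mul_nonneg_right h3 h6

end Pool.Agent.T9h14.GP
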