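import Pool.Agent.T9h14.GP.Rows2
import Pool.Agent.R735.HA.Frame

/-!
# The double alternating sum of a split tensor in dimension six
-/

set_option autoImplicit false

namespace Pool.Agent.T9h14.GP

open Finset MeasureTheory Pool.Agent.TH598.GV Pool.Agent.TH991.J3417
open scoped ComplexConjugate

/-- a four-tensor in dimension six -/
abbrev H6 : Type := I6 → I6 → I6 → I6 → ℂ

lemma GG_add (X Y : H6) : GG (fun i j k l => X i j k l + Y i j k l) =
    GM ![X, X, X] + 3 * GM ![X, X, Y] + 3 * GM ![X, Y, Y] + GM ![Y, Y, Y] := by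
  have e1 : GM ![X, Y, X] = GM ![X, X, Y] := by
    rw [← GM_comp ![X, X, Y] (Equiv.swap 1 2)]
    congr 1
    funext b
    fin_cases b <;> rfl
  have e2 : GM ![Y, X, X] = GM ![X, X, Y] := by
    rw [← GM_comp ![X, X, Y] (Equiv.swap 0 2)]
    congr 1
    funext b
    fin_cases b <;> rfl
  have e3 : GM ![Y, X, Y] = GM ![X, Y, Y] := by
    rw [← GM_comp ![X, Y, Y] (Equiv.swap 0 1)]
    congr 1
    funext b
    fin_cases b <;> rfl
  have e4 : GM ![Y, Y, X] = GM ![X, Y, Y] := by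
    rw [← GM_comp ![X, Y, Y] (Equiv.swap 0 2)]
    congr 1
    funext b
    fin_cases b <;> rfl
  have h : GG (fun i j k l => X i j k l + Y i j k l) =
      GM ![X, X, X] + (GM ![X, X, Y] + GM ![X, Y, X] + GM ![Y, X, X]) +
      (GM ![X, Y, Y] + GM ![Y, X, Y] + GM ![Y, Y, X]) + GM ![Y, Y, Y] := by
    unfold GG GM
    simp only [← Finset.sum_add_distrib]
    refine Finset.sum_congr rfl fun σ _ => Finset.sum_congr rfl fun τ _ => ?_
    simp only [Fin.prod_univ_three, Matrix.cons_val_zero, Matrix.cons_val_one, Matrix.cons_val]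
    ring
  rw [h, e1, e2, e3, e4]
  ring

/-- the sign of the side -/
def eps (i : I6) : ℂ := if i.2 then 1 else -1

lemma PP_parity (h : Fin 3 → I6 → I6 → ℂ) (e : Fin 3 → ℂ)
    (he : ∀ b i j, eps i * eps j * h b i j = e b * h b i j) (hp : ∏ b, e b = 1) : PP h = 0 := by
  have h1 := Pool.Agent.R735.HA.PP_trans (B := Fin 3) (Matrix.diagonal eps) h
  have h2 : (fun (b : Fin 3) (i j : I6) => ∑ a, ∑ c, Matrix.diagonal eps a i *
      Matrix.diagonal eps c j * h b a c) = fun b i j => e b * h b i j := by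
    funext b i j
    rw [← he]
    rw [Finset.sum_eq_single i, Finset.sum_eq_single j]
    · rw [Matrix.diagonal_apply_eq, Matrix.diagonal_apply_eq]
    · intro c _ hc
      rw [Matrix.diagonal_apply_ne _ hc]
      ring
    · simp
    · intro a _ ha
      refine Finset.sum_eq_zero fun c _ => ?_
      rw [Matrix.diagonal_apply_ne _ ha]
      ring
    · simp
  rw [h2] at h1
  have h3 : PP (fun b i j => e b * h b i j) = PP h := by
    unfold PP
    refine Finset.sum_congr rfl fun σ _ => ?_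
    rw [Finset.prod_mul_distrib, hp, one_mul]
  have h4 : (Matrix.diagonal eps).det = -1 := by
    rw [Matrix.det_diagonal, Fintype.prod_prod_type]
    simp [eps]
    norm_num
  rw [h3, h4] at h1
  have h5 : (2 : ℂ) * PP h = 0 := by linear_combination h1
  exact (mul_eq_zero.1 h5).resolve_left two_ne_zero

/-- the mixed part -/
noncomputable def Hm (ρ : T4) : H6 := fun i j k l =>
  ∑ p : Fin 3 × Fin 3, ∑ q : Fin 3 × Fin 3, ρ p.1 p.2 q.1 q.2 * (mm p i j * mm q k l)

/-- the bivector with coordinates `x` -/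
noncomputable def fs (x : I6 → ℂ) (i j : I6) : ℂ := ∑ s, x s * ss s i j

/-- the part of the two sides -/
noncomputable def Hs (L : Matrix I6 I6 ℂ) : H6 := fun i j k l =>
  ∑ s, fs (fun p => L p s) i j * conj (fs (fun p => L p s) k l)

lemma U_ne {a i : I6} (h : i.2 ≠ a.2) : U a i = 0 := by
  unfold U
  rw [if_neg]
  rintro rfl
  exact h rfl

lemma mm_eps (p : Fin 3 × Fin 3) (i j : I6) : eps i * eps j * mm p i j = -1 * mm p i j := by
  obtain ⟨a, c⟩ := i
  obtain ⟨b, d⟩ := j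
  cases c <;> cases d <;> simp [mm, eps, U]

lemma ss_eps (p : I6) (i j : I6) : eps i * eps j * ss p i j = 1 * ss p i j := by
  obtain ⟨a, c⟩ := i
  obtain ⟨b, d⟩ := j
  obtain ⟨x, e⟩ := p
  cases c <;> cases d <;> cases e <;> simp [ss, eps, U]

lemma fs_eps (x : I6 → ℂ) (i j : I6) : eps i * eps j * fs x i j = 1 * fs x i j := by
  unfold fs
  rw [Finset.mul_sum, Finset.mul_sum]
  refine Finset.sum_congr rfl fun s _ => ?_
  linear_combination x s * ss_eps s i j

lemma Hm_eps (ρ : T4) (i j k l : I6) : eps i * eps j * Hm ρ i j k l = -1 * Hm ρ i j k l := by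
  unfold Hm
  rw [Finset.mul_sum, Finset.mul_sum]
  refine Finset.sum_congr rfl fun p _ => ?_
  rw [Finset.mul_sum, Finset.mul_sum]
  refine Finset.sum_congr rfl fun q _ => ?_
  linear_combination ρ p.1 p.2 q.1 q.2 * mm q k l * mm_eps p i j

lemma Hs_eps (L : Matrix I6 I6 ℂ) (i j k l : I6) : eps i * eps j * Hs L i j k l =
    1 * Hs L i j k l := by
  unfold Hs
  rw [Finset.mul_sum, Finset.mul_sum]
  refine Finset.sum_congr rfl fun p _ => ?_
  linear_combination conj (fs (fun q => L q p) k l) * fs_eps (fun q => L q p) i j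

lemma GM_left (H : Fin 3 → H6) :
    GM H = ∑ τ : Equiv.Perm I6, cs τ *
      PP (fun b i j => H b i j (τ (b, false)) (τ (b, true))) := by
  unfold GM PP
  rw [Finset.sum_comm]
  refine Finset.sum_congr rfl fun τ _ => ?_
  rw [Finset.mul_sum]
  exact Finset.sum_congr rfl fun σ _ => by ring

lemma GM_mms (ρ : T4) (L : Matrix I6 I6 ℂ) : GM ![Hm ρ, Hm ρ, Hs L] = 0 := by
  rw [GM_left]
  refine Finset.sum_eq_zero fun τ _ => ?_
  rw [PP_parity _ ![-1, -1, 1] ?_ (by simp [Fin.prod_univ_three]), mul_zero]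
  intro b i j
  fin_cases b
  · exact Hm_eps ρ i j _ _
  · exact Hm_eps ρ i j _ _
  · exact Hs_eps L i j _ _

lemma GM_sss (L : Matrix I6 I6 ℂ) : GM ![Hs L, Hs L, Hs L] = 0 := by
  rw [GM_left]
  refine Finset.sum_eq_zero fun τ _ => ?_
  rw [PP_parity _ ![1, 1, 1] ?_ (by simp [Fin.prod_univ_three]), mul_zero]
  intro b i j
  fin_cases b
  · exact Hs_eps L i j _ _
  · exact Hs_eps L i j _ _
  · exact Hs_eps L i j _ _

/-- the mixed part gives the form `G2` -/
lemma GM_mmm (ρ : T4) : GM ![Hm ρ, Hm ρ, Hm ρ] = 64 * G2 (fun _ => ρ) := by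
  have h0 : (![Hm ρ, Hm ρ, Hm ρ] : Fin 3 → H6) = fun _ => Hm ρ := by
    funext b
    fin_cases b <;> rfl
  rw [h0]
  unfold GM
  have h1 : ∀ σ τ : Equiv.Perm I6,
      ∏ b : Fin 3, Hm ρ (σ (b, false)) (σ (b, true)) (τ (b, false)) (τ (b, true)) =
      ∑ a : (Fin 3 → Fin 3 × Fin 3) × (Fin 3 → Fin 3 × Fin 3),
        (∏ b, ρ (a.1 b).1 (a.1 b).2 (a.2 b).1 (a.2 b).2) *
        ((∏ b, mm (a.1 b) (σ (b, false)) (σ (b, true))) *
          ∏ b, mm (a.2 b) (τ (b, false)) (τ (b, true))) := by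
    intro σ τ
    unfold Hm
    rw [Finset.prod_univ_sum, Fintype.piFinset_univ, Fintype.sum_prod_type]
    refine Finset.sum_congr rfl fun α _ => ?_
    rw [Finset.prod_univ_sum, Fintype.piFinset_univ]
    refine Finset.sum_congr rfl fun β _ => ?_
    rw [Finset.prod_mul_distrib, Finset.prod_mul_distrib]
  simp only [h1]
  rw [bil]
  have h2 : ∀ α : Fin 3 → Fin 3 × Fin 3, ∑ σ : Equiv.Perm I6, cs σ *
      ∏ b, mm (α b) (σ (b, false)) (σ (b, true)) =
      8 * (lc (fun b => (α b).1) * lc (fun b => (α b).2)) := fun α => PP_mm α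
  simp only [h2]
  rw [G2_flat, Finset.mul_sum, Fintype.sum_prod_type,
    ← Equiv.sum_comp (Equiv.arrowProdEquivProdArrow (Fin 3) (fun _ => Fin 3) (fun _ => Fin 3)).symm,
    Fintype.sum_prod_type]
  refine Finset.sum_congr rfl fun x _ => ?_
  have h3 : ∀ x' : Fin 3 → Fin 3, ∀ F : (Fin 3 → Fin 3 × Fin 3) → ℂ, ∑ β, F β =
      ∑ y : Fin 3 → Fin 3, ∑ y' : Fin 3 → Fin 3, F (fun b => (y b, y' b)) := by
    intro x' F
    rw [← Equiv.sum_comp (Equiv.arrowProdEquivProdArrow (Fin 3) (fun _ => Fin 3)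
      (fun _ => Fin 3)).symm, Fintype.sum_prod_type]
    rfl
  simp only [h3 x]
  rw [Finset.sum_comm, Finset.mul_sum]
  refine Finset.sum_congr rfl fun y _ => ?_
  rw [Finset.mul_sum]
  refine Finset.sum_congr rfl fun x' _ => ?_
  rw [Finset.mul_sum]
  refine Finset.sum_congr rfl fun y' _ => ?_
  change (∏ b, ρ (x b) (x' b) (y b) (y' b)) * (8 * (lc x * lc x') * (8 * (lc y * lc y'))) = _
  ring

end Pool.Agent.T9h14.GP
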