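import Pool.Agent.T9h14.GP.Split

/-!
# The mixed term
-/

set_option autoImplicit false

namespace Pool.Agent.T9h14.GP

open Finset MeasureTheory Pool.Agent.TH598.GV Pool.Agent.TH991.J3417
open scoped ComplexConjugate

/-- the value of the polarised Pfaffian -/
noncomputable def Pv (L : Matrix I6 I6 ℂ) (p : Fin 3 × Fin 3) (a : Fin 2 → I6) : ℂ :=
  PP ![mm p, fs (fun r => L r (a 0)), fs (fun r => L r (a 1))]

lemma conj_U (a i : I6) : conj (U a i) = U a i := by
  unfold U
  rw [apply_ite (starRingEnd ℂ), map_one, map_zero]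

lemma conj_mm (p : Fin 3 × Fin 3) (i j : I6) : conj (mm p i j) = mm p i j := by
  unfold mm
  simp only [map_sub, map_mul, conj_U]

lemma sumA2 {X : Type} [Fintype X] (F : (Fin 2 → X) → ℂ) :
    ∑ a, F a = ∑ s, ∑ t, F ((finTwoArrowEquiv X).symm (s, t)) := by
  rw [← Equiv.sum_comp (finTwoArrowEquiv X).symm]
  exact Fintype.sum_prod_type _

lemma sumT {A B C : Type} [Fintype A] [Fintype B] [Fintype C] (F : (A × B) × C → ℂ) :
    ∑ x, F x = ∑ a, ∑ b, ∑ c, F ((a, b), c) :=
  (Fintype.sum_prod_type F).trans (Fintype.sum_prod_type _)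

lemma GM_mss (ρ : T4) (L : Matrix I6 I6 ℂ) : GM ![Hm ρ, Hs L, Hs L] =
    ∑ p : Fin 3 × Fin 3, ∑ q : Fin 3 × Fin 3, ρ p.1 p.2 q.1 q.2 *
      ∑ a, Pv L p a * conj (Pv L q a) := by
  have h1 : ∀ σ τ : Equiv.Perm I6,
      ∏ b : Fin 3, (![Hm ρ, Hs L, Hs L] : Fin 3 → H6) b
        (σ (b, false)) (σ (b, true)) (τ (b, false)) (τ (b, true)) =
      ∑ x : ((Fin 3 × Fin 3) × (Fin 3 × Fin 3)) × (Fin 2 → I6),
        ρ x.1.1.1 x.1.1.2 x.1.2.1 x.1.2.2 *
        ((∏ b : Fin 3, (![mm x.1.1, fs (fun r => L r (x.2 0)), fs (fun r => L r (x.2 1))] :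
            Fin 3 → I6 → I6 → ℂ) b (σ (b, false)) (σ (b, true))) *
          ∏ b : Fin 3, conj ((![mm x.1.2, fs (fun r => L r (x.2 0)),
            fs (fun r => L r (x.2 1))] :
            Fin 3 → I6 → I6 → ℂ) b (τ (b, false)) (τ (b, true)))) := by
    intro σ τ
    rw [Fin.prod_univ_three]
    simp only [Matrix.cons_val_zero, Matrix.cons_val_one, Matrix.cons_val]
    have e2 : Hs L (σ (1, false)) (σ (1, true)) (τ (1, false)) (τ (1, true)) *
        Hs L (σ (2, false)) (σ (2, true)) (τ (2, false)) (τ (2, true)) =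
        ∑ a : Fin 2 → I6, (fs (fun p => L p (a 0)) (σ (1, false)) (σ (1, true)) *
          conj (fs (fun p => L p (a 0)) (τ (1, false)) (τ (1, true)))) *
          (fs (fun p => L p (a 1)) (σ (2, false)) (σ (2, true)) *
          conj (fs (fun p => L p (a 1)) (τ (2, false)) (τ (2, true)))) := by
      unfold Hs
      rw [Finset.sum_mul_sum, sumA2]
      rfl
    rw [mul_assoc, e2]
    unfold Hm
    rw [sumT, Finset.sum_mul]
    refine Finset.sum_congr rfl fun p _ => ?_
    rw [Finset.sum_mul]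
    refine Finset.sum_congr rfl fun q _ => ?_
    rw [Finset.mul_sum]
    refine Finset.sum_congr rfl fun a _ => ?_
    rw [Fin.prod_univ_three, Fin.prod_univ_three]
    simp only [Matrix.cons_val_zero, Matrix.cons_val_one, Matrix.cons_val, conj_mm]
    ring
  unfold GM
  simp only [h1]
  rw [bil, sumT]
  refine Finset.sum_congr rfl fun p _ => Finset.sum_congr rfl fun q _ => ?_
  rw [Finset.mul_sum]
  refine Finset.sum_congr rfl fun a _ => ?_
  congr 1
  unfold Pv
  rw [conj_PP]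
  rfl

lemma Pv_sym (L : Matrix I6 I6 ℂ) (p : Fin 3 × Fin 3) (π : Equiv.Perm (Fin 2))
    (a : Fin 2 → I6) : Pv L p (a ∘ π) = Pv L p a := by
  have h : ∀ π : Equiv.Perm (Fin 2), π = 1 ∨ π = Equiv.swap 0 1 := by decide
  rcases h π with rfl | rfl
  · rfl
  · unfold Pv
    simp only [Function.comp_apply, Equiv.swap_apply_left, Equiv.swap_apply_right]
    rw [PP_swap12]

lemma Pv_sum (L : Matrix I6 I6 ℂ) (k l : Fin 3) (ξ : I6 → ℂ) :
    ∑ a, Pv L (k, l) a * ∏ i, ξ (a i) =
      -16 * (L.mulVec ξ (k, false) * L.mulVec ξ (l, true)) := by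
  rw [← PP_mss_val k l (L.mulVec ξ)]
  have h : ∀ i j, ∑ s, L.mulVec ξ s * ss s i j = ∑ s, ξ s * fs (fun r => L r s) i j := by
    intro i j
    unfold fs Matrix.mulVec dotProduct
    simp only [Finset.mul_sum, Finset.sum_mul]
    rw [Finset.sum_comm]
    exact Finset.sum_congr rfl fun _ _ => Finset.sum_congr rfl fun _ _ => by ring
  simp only [h]
  rw [PP_lin (mm (k, l)) (fun s => fs (fun r => L r s)) ξ ξ, sumA2]
  refine Finset.sum_congr rfl fun s _ => Finset.sum_congr rfl fun t _ => ?_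
  rw [Fin.prod_univ_two]
  change PP ![mm (k, l), fs (fun r => L r s), fs (fun r => L r t)] * (ξ s * ξ t) = _
  ring

/-- the mixed term is nonnegative -/
lemma GM_mss_nonneg {ρ : T4} (h : BP ρ) (L : Matrix I6 I6 ℂ) :
    0 ≤ (GM ![Hm ρ, Hs L, Hs L]).re := by
  have hw : ∀ p q, ∫ ξ : I6 → ℂ, (∑ a, Pv L p a * ∏ i, ξ (a i)) *
      conj (∑ a, Pv L q a * ∏ i, ξ (a i)) * (gw ξ : ℂ) =
      (Real.pi : ℂ) ^ Fintype.card I6 * (Nat.factorial 2) * ∑ a, Pv L p a * conj (Pv L q a) :=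
    fun p q => Pool.Agent.TH914.GVC.wick 2 (Pv L p) (Pv L q) (Pv_sym L p) (Pv_sym L q)
  have hi : ∀ p q, Integrable (fun ξ : I6 → ℂ => (∑ a, Pv L p a * ∏ i, ξ (a i)) *
      conj (∑ a, Pv L q a * ∏ i, ξ (a i)) * (gw ξ : ℂ)) := fun p q => int_sum _ _
  have h1 : (Real.pi : ℂ) ^ Fintype.card I6 * (Nat.factorial 2) * GM ![Hm ρ, Hs L, Hs L] =
      ∫ ξ : I6 → ℂ, (256 * qq ρ (fun k => L.mulVec ξ (k, false)) (fun l => L.mulVec ξ (l, true))) *
        (gw ξ : ℂ) := by
    rw [GM_mss, Finset.mul_sum]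
    have e : ∀ ξ : I6 → ℂ, (256 * qq ρ (fun k => L.mulVec ξ (k, false))
        (fun l => L.mulVec ξ (l, true))) * (gw ξ : ℂ) =
        ∑ p : Fin 3 × Fin 3, ∑ q : Fin 3 × Fin 3, ρ p.1 p.2 q.1 q.2 *
          ((∑ a, Pv L p a * ∏ i, ξ (a i)) *
            conj (∑ a, Pv L q a * ∏ i, ξ (a i)) * (gw ξ : ℂ)) := by
      intro ξ
      unfold qq
      simp only [Finset.mul_sum, Finset.sum_mul, Fintype.sum_prod_type]
      simp only [← Finset.mul_sum, ← Finset.sum_mul]
      simp only [Pv_sum]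
      simp only [Finset.mul_sum, Finset.sum_mul]
      refine Finset.sum_congr rfl fun i _ => Finset.sum_congr rfl fun j _ =>
        Finset.sum_congr rfl fun k _ => Finset.sum_congr rfl fun l _ => ?_
      simp only [map_mul, map_neg, map_ofNat]
      ring
    simp only [e]
    rw [integral_finsetSum _ (fun p _ => integrable_finsetSum _ fun q _ => (hi p q).const_mul _)]
    refine Finset.sum_congr rfl fun p _ => ?_
    rw [integral_finsetSum _ (fun q _ => (hi p q).const_mul _), Finset.mul_sum]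
    refine Finset.sum_congr rfl fun q _ => ?_
    rw [integral_const_mul, hw]
    ring
  have hint : Integrable (fun ξ : I6 → ℂ => (256 * qq ρ (fun k => L.mulVec ξ (k, false))
        (fun l => L.mulVec ξ (l, true))) * (gw ξ : ℂ)) := by
    have e : ∀ ξ : I6 → ℂ, (256 * qq ρ (fun k => L.mulVec ξ (k, false))
        (fun l => L.mulVec ξ (l, true))) * (gw ξ : ℂ) =
        ∑ p : Fin 3 × Fin 3, ∑ q : Fin 3 × Fin 3, ρ p.1 p.2 q.1 q.2 *
          ((∑ a, Pv L p a * ∏ i, ξ (a i)) *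
            conj (∑ a, Pv L q a * ∏ i, ξ (a i)) * (gw ξ : ℂ)) := by
      intro ξ
      unfold qq
      simp only [Finset.mul_sum, Finset.sum_mul, Fintype.sum_prod_type]
      simp only [← Finset.mul_sum, ← Finset.sum_mul]
      simp only [Pv_sum]
      simp only [Finset.mul_sum, Finset.sum_mul]
      refine Finset.sum_congr rfl fun i _ => Finset.sum_congr rfl fun j _ =>
        Finset.sum_congr rfl fun k _ => Finset.sum_congr rfl fun l _ => ?_
      simp only [map_mul, map_neg, map_ofNat]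
      ring
    simp only [e]
    exact integrable_finsetSum _ fun p _ => integrable_finsetSum _ fun q _ => (hi p q).const_mul _
  have h2 : 0 ≤ (∫ ξ : I6 → ℂ, (256 * qq ρ (fun k => L.mulVec ξ (k, false))
      (fun l => L.mulVec ξ (l, true))) * (gw ξ : ℂ)).re := by
    have h4 : (∫ ξ : I6 → ℂ, (256 * qq ρ (fun k => L.mulVec ξ (k, false))
        (fun l => L.mulVec ξ (l, true))) * (gw ξ : ℂ)).re =
        ∫ ξ : I6 → ℂ, ((256 * qq ρ (fun k => L.mulVec ξ (k, false))
        (fun l => L.mulVec ξ (l, true))) * (gw ξ : ℂ)).re := (integral_re hint).symm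
    rw [h4]
    refine integral_nonneg fun ξ => ?_
    simp only [Pi.zero_apply]
    rw [Complex.re_mul_ofReal]
    refine mul_nonneg ?_ (Real.exp_pos _).le
    have e : (256 : ℂ) = ((256 : ℝ) : ℂ) := by norm_num
    rw [e, Complex.re_ofReal_mul]
    exact mul_nonneg (by norm_num) (h.pos _ _)
  rw [← h1] at h2
  have e1 : (Real.pi : ℂ) ^ Fintype.card I6 * (Nat.factorial 2) =
      ((Real.pi ^ Fintype.card I6 * (Nat.factorial 2) : ℝ) : ℂ) := by push_cast; rfl
  rw [e1, Complex.re_ofReal_mul] at h2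
  have h6 : 0 < Real.pi ^ Fintype.card I6 * (Nat.factorial 2) := by positivity
  exact nonneg_of_mul_nonneg_right h2 h6

/-- **Nonnegativity for split tensors.** -/
theorem split_nonneg {ρ : T4} (h : BP ρ) (L : Matrix I6 I6 ℂ) :
    0 ≤ (GG (fun i j k l => Hm ρ i j k l + Hs L i j k l)).re := by
  rw [GG_add, GM_mms, GM_sss, GM_mmm, mul_zero, add_zero, add_zero]
  have h1 := G2_nonneg h
  have h2 := GM_mss_nonneg h L
  have e1 : (64 : ℂ) = ((64 : ℝ) : ℂ) := by norm_num
  have e2 : (3 : ℂ) = ((3 : ℝ) : ℂ) := by norm_num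
  rw [e1, e2, Complex.add_re, Complex.re_ofReal_mul, Complex.re_ofReal_mul]
  linarith

end Pool.Agent.T9h14.GP
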