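import Pool.Agent.T9h14.GP.Class
import Pool.Agent.TH598.GV.Field2

/-!
# The quantitative form: superadditivity along the unit tensor
-/

set_option autoImplicit false

namespace Pool.Agent.T9h14.GP

open Finset MeasureTheory Pool.Agent.TH598.GV Pool.Agent.TH991.J3417 Pool.Agent.R735.HA
open scoped ComplexConjugate ComplexOrder

/-- the elementary bivectors -/
abbrev Bs : Type := (Fin 3 × Fin 3) ⊕ I6

/-- the elementary bivectors -/
def el : Bs → I6 → I6 → ℂ
  | Sum.inl p => mm p
  | Sum.inr p => ss p

/-- the rank one tensor of an elementary bivector -/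
def Wt (s : Bs) : H6 := fun i j k l => el s i j * el s k l

lemma el_dec (s : Bs) : ∃ x y : I6 → ℂ, ∀ i j, el s i j = x i * y j - x j * y i := by
  rcases s with p | p
  · exact ⟨U (p.1, false), U (p.2, true), fun i j => rfl⟩
  · exact ⟨U (p.1 + 1, p.2), U (p.1 + 2, p.2), fun i j => rfl⟩

lemma conj_el (s : Bs) (i j : I6) : conj (el s i j) = el s i j := by
  rcases s with p | p
  · exact conj_mm p i j
  · exact conj_ss p i j

lemma el_alt (s : Bs) (i j : I6) : el s j i = -el s i j := by
  obtain ⟨x, y, h⟩ := el_dec s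
  rw [h, h]
  ring

lemma el_type (s : Bs) : (∀ i j : I6, i.2 = j.2 → el s i j = 0) ∨
    (∀ i j : I6, i.2 ≠ j.2 → el s i j = 0) := by
  rcases s with p | p
  · left
    rintro ⟨a, c⟩ ⟨b, d⟩ h
    simp only at h
    subst h
    cases c <;> simp [el, mm, U]
  · right
    rintro ⟨a, c⟩ ⟨b, d⟩ h
    obtain ⟨x, e⟩ := p
    cases c <;> cases d <;> cases e <;> simp_all [el, ss, U]

lemma UU_sum (i j k l : I6) : UU i j k l = ∑ s, Wt s i j k l := by
  rw [Fintype.sum_sum_type]
  have h := dec1 (fun i j => UU i j k l) (fun i j => by unfold UU; ring) i j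
  rw [h]
  have e : ∀ a b : I6, UU a b k l = U a k * U b l - U a l * U b k := by
    intro a b
    unfold UU U
    simp only [eq_comm (a := k), eq_comm (a := l)]
  congr 1
  · refine Finset.sum_congr rfl fun p _ => ?_
    change UU (p.1, false) (p.2, true) k l * mm p i j = mm p i j * mm p k l
    rw [e]
    unfold mm
    ring
  · refine Finset.sum_congr rfl fun p _ => ?_
    change UU (p.1 + 1, p.2) (p.1 + 2, p.2) k l * ss p i j = ss p i j * ss p k l
    rw [e]
    unfold ss
    ring

/-- sums -/
lemma Cls.add {H G : H6} (h : Cls H) (h' : Cls G) :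
    Cls (fun i j k l => H i j k l + G i j k l) := by
  refine ⟨⟨?_, ?_⟩, ?_, ?_, ?_⟩
  · intro i j k l
    rw [h.hs.herm, h'.hs.herm, map_add]
  · intro i j k l
    rw [h.hs.alt, h'.hs.alt]
    ring
  · intro i j k l hb
    rw [h.blk i j k l hb, h'.blk i j k l hb, add_zero]
  · intro z w hz hw
    have e : qf (fun i j k l => H i j k l + G i j k l) z w = qf H z w + qf G z w := by
      unfold qf
      simp only [add_mul, Finset.sum_add_distrib]
    rw [e, Complex.add_re]
    exact add_nonneg (h.mix z w hz hw) (h'.mix z w hz hw)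
  · intro p hp
    have e : Sf (fun i j k l => H i j k l + G i j k l) p p = Sf H p p + Sf G p p := by
      unfold Sf
      simp only [add_mul, Finset.sum_add_distrib]
    rw [e, Complex.add_re]
    exact add_nonneg (h.op p hp) (h'.op p hp)

lemma Sf_rank (ω : I6 → I6 → ℂ) (hc : ∀ i j, conj (ω i j) = ω i j) (t : ℝ) (p : I6 → I6 → ℂ) :
    Sf (fun i j k l => (t : ℂ) * (ω i j * ω k l)) p p =
      ((t * Complex.normSq (∑ i, ∑ j, ω i j * p i j) : ℝ) : ℂ) := by
  rw [Complex.ofReal_mul, ← Complex.mul_conj]
  unfold Sf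
  simp only [map_sum, map_mul, hc, Finset.sum_mul, Finset.mul_sum]
  have h : ∀ F : I6 → I6 → I6 → I6 → ℂ,
      ∑ i, ∑ j, ∑ k, ∑ l, F i j k l = ∑ k, ∑ l, ∑ i, ∑ j, F i j k l := by
    intro F
    calc ∑ i, ∑ j, ∑ k, ∑ l, F i j k l = ∑ i, ∑ k, ∑ j, ∑ l, F i j k l :=
          Finset.sum_congr rfl fun i _ => Finset.sum_comm
      _ = ∑ k, ∑ i, ∑ j, ∑ l, F i j k l := Finset.sum_comm
      _ = ∑ k, ∑ i, ∑ l, ∑ j, F i j k l :=
          Finset.sum_congr rfl fun k _ => Finset.sum_congr rfl fun i _ => Finset.sum_comm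
      _ = ∑ k, ∑ l, ∑ i, ∑ j, F i j k l :=
          Finset.sum_congr rfl fun k _ => Finset.sum_comm
  rw [h]
  refine Finset.sum_congr rfl fun x _ => Finset.sum_congr rfl fun y _ =>
    Finset.sum_congr rfl fun x' _ => Finset.sum_congr rfl fun y' _ => ?_
  ring

lemma Cls_Wt (s : Bs) {t : ℝ} (ht : 0 ≤ t) : Cls (fun i j k l => (t : ℂ) * Wt s i j k l) := by
  have hS : ∀ p, 0 ≤ (Sf (fun i j k l => (t : ℂ) * Wt s i j k l) p p).re := by
    intro p
    have := Sf_rank (el s) (conj_el s) t p
    unfold Wt
    rw [this, Complex.ofReal_re]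
    exact mul_nonneg ht (Complex.normSq_nonneg _)
  refine ⟨⟨?_, ?_⟩, ?_, ?_, ?_⟩
  · intro i j k l
    unfold Wt
    rw [map_mul, map_mul, conj_el, conj_el, Complex.conj_ofReal]
    ring
  · intro i j k l
    unfold Wt
    rw [el_alt]
    ring
  · intro i j k l hb
    unfold Wt
    rcases el_type s with h | h
    · by_cases h1 : i.2 = j.2
      · rw [h i j h1]
        ring
      · have h2 : k.2 = l.2 := by
          by_contra h3
          exact h1 (hb.2 h3)
        rw [h k l h2]
        ring
    · by_cases h1 : i.2 = j.2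
      · rw [h k l (hb.1 h1)]
        ring
      · rw [h i j h1]
        ring
  · intro z w _ _
    rw [← Sf_qf]
    exact hS _
  · intro p _
    exact hS p

lemma alt_zero (F : Equiv.Perm I6 → ℂ) {u v : I6} (huv : u ≠ v)
    (h : ∀ σ, F (σ * Equiv.swap u v) = F σ) : ∑ σ, cs σ * F σ = 0 := by
  have h1 : ∑ σ : Equiv.Perm I6, cs σ * F σ = -∑ σ : Equiv.Perm I6, cs σ * F σ := by
    conv_lhs => rw [← Equiv.sum_comp (Equiv.mulRight (Equiv.swap u v))]
    rw [← Finset.sum_neg_distrib]
    refine Finset.sum_congr rfl fun σ _ => ?_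
    rw [Equiv.coe_mulRight, h, cs_mul]
    have : cs (Equiv.swap u v) = -1 := by
      unfold cs
      rw [Equiv.Perm.sign_swap huv]
      simp
    rw [this]
    ring
  have h2 : (2 : ℂ) * ∑ σ : Equiv.Perm I6, cs σ * F σ = 0 := by linear_combination h1
  exact (mul_eq_zero.1 h2).resolve_left two_ne_zero

/-- two equal decomposable slots -/
lemma PP_two (h : I6 → I6 → ℂ) (x y : I6 → ℂ) (c d : ℂ) :
    PP ![h, fun i j => c * (x i * y j - x j * y i), fun i j => d * (x i * y j - x j * y i)] = 0 := by
  have key : ∀ (u v : I6) (G : Equiv.Perm I6 → ℂ), u ≠ v → u.1 ≠ 0 → v.1 ≠ 0 →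
      (∀ σ, G (σ * Equiv.swap u v) = G σ) →
      ∑ σ : Equiv.Perm I6, cs σ * (h (σ (0, false)) (σ (0, true)) * G σ) = 0 := by
    intro u v G huv hu hv hG
    refine alt_zero (fun σ => h (σ (0, false)) (σ (0, true)) * G σ) huv fun σ => ?_
    have e : ∀ c : Bool, (σ * Equiv.swap u v) (0, c) = σ (0, c) := by
      intro c
      rw [Equiv.Perm.mul_apply, Equiv.swap_apply_of_ne_of_ne]
      · rintro rfl
        exact hu rfl
      · rintro rfl
        exact hv rfl
    simp only [e, hG]
  unfold PP
  simp only [Fin.prod_univ_three, Matrix.cons_val_zero, Matrix.cons_val_one, Matrix.cons_val]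
  have e1 := key (1, false) (2, false) (fun σ => x (σ (1, false)) * y (σ (1, true)) *
    (x (σ (2, false)) * y (σ (2, true)))) (by decide) (by decide) (by decide) (by
      intro σ
      have a1 : (σ * Equiv.swap ((1, false) : I6) (2, false) : Equiv.Perm I6) (1, false) = σ (2, false) := by
        rw [Equiv.Perm.mul_apply, Equiv.swap_apply_left]
      have a2 : (σ * Equiv.swap ((1, false) : I6) (2, false) : Equiv.Perm I6) (2, false) = σ (1, false) := by
        rw [Equiv.Perm.mul_apply, Equiv.swap_apply_right]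
      have a3 : (σ * Equiv.swap ((1, false) : I6) (2, false) : Equiv.Perm I6) (1, true) = σ (1, true) := by
        rw [Equiv.Perm.mul_apply, Equiv.swap_apply_of_ne_of_ne (by decide) (by decide)]
      have a4 : (σ * Equiv.swap ((1, false) : I6) (2, false) : Equiv.Perm I6) (2, true) = σ (2, true) := by
        rw [Equiv.Perm.mul_apply, Equiv.swap_apply_of_ne_of_ne (by decide) (by decide)]
      simp only [a1, a2, a3, a4]
      ring)
  have e2 := key (1, false) (2, true) (fun σ => x (σ (1, false)) * y (σ (1, true)) *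
    (x (σ (2, true)) * y (σ (2, false)))) (by decide) (by decide) (by decide) (by
      intro σ
      have a1 : (σ * Equiv.swap ((1, false) : I6) (2, true) : Equiv.Perm I6) (1, false) = σ (2, true) := by
        rw [Equiv.Perm.mul_apply, Equiv.swap_apply_left]
      have a2 : (σ * Equiv.swap ((1, false) : I6) (2, true) : Equiv.Perm I6) (2, true) = σ (1, false) := by
        rw [Equiv.Perm.mul_apply, Equiv.swap_apply_right]
      have a3 : (σ * Equiv.swap ((1, false) : I6) (2, true) : Equiv.Perm I6) (1, true) = σ (1, true) := by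
        rw [Equiv.Perm.mul_apply, Equiv.swap_apply_of_ne_of_ne (by decide) (by decide)]
      have a4 : (σ * Equiv.swap ((1, false) : I6) (2, true) : Equiv.Perm I6) (2, false) = σ (2, false) := by
        rw [Equiv.Perm.mul_apply, Equiv.swap_apply_of_ne_of_ne (by decide) (by decide)]
      simp only [a1, a2, a3, a4]
      ring)
  have e3 := key (1, true) (2, false) (fun σ => x (σ (1, true)) * y (σ (1, false)) *
    (x (σ (2, false)) * y (σ (2, true)))) (by decide) (by decide) (by decide) (by
      intro σ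
      have a1 : (σ * Equiv.swap ((1, true) : I6) (2, false) : Equiv.Perm I6) (1, true) = σ (2, false) := by
        rw [Equiv.Perm.mul_apply, Equiv.swap_apply_left]
      have a2 : (σ * Equiv.swap ((1, true) : I6) (2, false) : Equiv.Perm I6) (2, false) = σ (1, true) := by
        rw [Equiv.Perm.mul_apply, Equiv.swap_apply_right]
      have a3 : (σ * Equiv.swap ((1, true) : I6) (2, false) : Equiv.Perm I6) (1, false) = σ (1, false) := by
        rw [Equiv.Perm.mul_apply, Equiv.swap_apply_of_ne_of_ne (by decide) (by decide)]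
      have a4 : (σ * Equiv.swap ((1, true) : I6) (2, false) : Equiv.Perm I6) (2, true) = σ (2, true) := by
        rw [Equiv.Perm.mul_apply, Equiv.swap_apply_of_ne_of_ne (by decide) (by decide)]
      simp only [a1, a2, a3, a4]
      ring)
  have e4 := key (1, true) (2, true) (fun σ => x (σ (1, true)) * y (σ (1, false)) *
    (x (σ (2, true)) * y (σ (2, false)))) (by decide) (by decide) (by decide) (by
      intro σ
      have a1 : (σ * Equiv.swap ((1, true) : I6) (2, true) : Equiv.Perm I6) (1, true) = σ (2, true) := by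
        rw [Equiv.Perm.mul_apply, Equiv.swap_apply_left]
      have a2 : (σ * Equiv.swap ((1, true) : I6) (2, true) : Equiv.Perm I6) (2, true) = σ (1, true) := by
        rw [Equiv.Perm.mul_apply, Equiv.swap_apply_right]
      have a3 : (σ * Equiv.swap ((1, true) : I6) (2, true) : Equiv.Perm I6) (1, false) = σ (1, false) := by
        rw [Equiv.Perm.mul_apply, Equiv.swap_apply_of_ne_of_ne (by decide) (by decide)]
      have a4 : (σ * Equiv.swap ((1, true) : I6) (2, true) : Equiv.Perm I6) (2, false) = σ (2, false) := by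
        rw [Equiv.Perm.mul_apply, Equiv.swap_apply_of_ne_of_ne (by decide) (by decide)]
      simp only [a1, a2, a3, a4]
      ring)
  have e5 : ∑ σ : Equiv.Perm I6, cs σ * (h (σ (0, false)) (σ (0, true)) *
      (c * (x (σ (1, false)) * y (σ (1, true)) - x (σ (1, true)) * y (σ (1, false)))) *
      (d * (x (σ (2, false)) * y (σ (2, true)) - x (σ (2, true)) * y (σ (2, false))))) =
      c * d * ((∑ σ : Equiv.Perm I6, cs σ * (h (σ (0, false)) (σ (0, true)) *
        (x (σ (1, false)) * y (σ (1, true)) * (x (σ (2, false)) * y (σ (2, true)))))) -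
      (∑ σ : Equiv.Perm I6, cs σ * (h (σ (0, false)) (σ (0, true)) *
        (x (σ (1, false)) * y (σ (1, true)) * (x (σ (2, true)) * y (σ (2, false)))))) -
      (∑ σ : Equiv.Perm I6, cs σ * (h (σ (0, false)) (σ (0, true)) *
        (x (σ (1, true)) * y (σ (1, false)) * (x (σ (2, false)) * y (σ (2, true)))))) +
      (∑ σ : Equiv.Perm I6, cs σ * (h (σ (0, false)) (σ (0, true)) *
        (x (σ (1, true)) * y (σ (1, false)) * (x (σ (2, true)) * y (σ (2, false))))))) := by
    rw [← Finset.sum_sub_distrib, ← Finset.sum_sub_distrib, ← Finset.sum_add_distrib,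
      Finset.mul_sum]
    exact Finset.sum_congr rfl fun σ _ => by ring
  rw [e5, e1, e2, e3, e4]
  ring

lemma GM_two (X : H6) (s : Bs) : GM ![X, Wt s, Wt s] = 0 := by
  rw [GM_left]
  refine Finset.sum_eq_zero fun τ _ => ?_
  obtain ⟨x, y, h⟩ := el_dec s
  have e : (fun (b : Fin 3) (i j : I6) => (![X, Wt s, Wt s] : Fin 3 → H6) b i j
      (τ (b, false)) (τ (b, true))) =
      ![fun i j => X i j (τ (0, false)) (τ (0, true)),
        fun i j => el s (τ (1, false)) (τ (1, true)) * (x i * y j - x j * y i),
        fun i j => el s (τ (2, false)) (τ (2, true)) * (x i * y j - x j * y i)] := by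
    funext b i j
    fin_cases b
    · rfl
    · change el s i j * el s _ _ = _
      rw [h i j, mul_comm]
      rfl
    · change el s i j * el s _ _ = _
      rw [h i j, mul_comm]
      rfl
  rw [e, PP_two, mul_zero]

end Pool.Agent.T9h14.GP
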