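import Pool.Agent.T9h14.GP.Base

/-!
# Symmetric trilinear trace forms and their double alternation
-/

set_option autoImplicit false

namespace Pool.Agent.T9h14.GP

open Finset
open scoped ComplexConjugate

/-- four-index arrays: forms on the tensor product -/
abbrev T4 := Fin 3 → Fin 3 → Fin 3 → Fin 3 → ℂ

/-- the product of traces belonging to a permutation -/
noncomputable def tp (π : Equiv.Perm (Fin 3)) (X : Fin 3 → Matrix (Fin 3) (Fin 3) ℂ) : ℂ :=
  ∑ x : Fin 3 → Fin 3, ∏ b, X b (x b) (x (π b))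

/-- the trilinear form -/
noncomputable def D3 (u v w : ℂ) (X Y Z : Matrix (Fin 3) (Fin 3) ℂ) : ℂ :=
  u * (X.trace * Y.trace * Z.trace) -
    v * (X.trace * (Y * Z).trace + Y.trace * (X * Z).trace + Z.trace * (X * Y).trace) +
    w * ((X * Y * Z).trace + (X * Z * Y).trace)

/-- class function -/
noncomputable def cf (u v w : ℂ) (π : Equiv.Perm (Fin 3)) : ℂ :=
  if π = 1 then u else if Equiv.Perm.sign π = 1 then w else -v

lemma cf_sum (u v w : ℂ) (f : Equiv.Perm (Fin 3) → ℂ) :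
    ∑ π, cf u v w π * f π = u * f 1 - v * f (Equiv.swap 0 1) - v * f (Equiv.swap 0 2)
      - v * f (Equiv.swap 1 2) + w * f (Equiv.swap 0 1 * Equiv.swap 1 2) +
      w * f (Equiv.swap 1 2 * Equiv.swap 0 1) := by
  rw [sumperm]
  have h1 : cf u v w 1 = u := by simp [cf]
  have h2 : cf u v w (Equiv.swap 0 1) = -v := by
    unfold cf
    rw [if_neg (by decide), if_neg (by decide)]
  have h3 : cf u v w (Equiv.swap 0 2) = -v := by
    unfold cf
    rw [if_neg (by decide), if_neg (by decide)]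
  have h4 : cf u v w (Equiv.swap 1 2) = -v := by
    unfold cf
    rw [if_neg (by decide), if_neg (by decide)]
  have h5 : cf u v w (Equiv.swap 0 1 * Equiv.swap 1 2) = w := by
    unfold cf
    rw [if_neg (by decide), if_pos (by decide)]
  have h6 : cf u v w (Equiv.swap 1 2 * Equiv.swap 0 1) = w := by
    unfold cf
    rw [if_neg (by decide), if_pos (by decide)]
  rw [h1, h2, h3, h4, h5, h6]
  ring

lemma sg_eq (π : Equiv.Perm (Fin 3)) : sg π = cf 1 1 1 π := by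
  unfold sg cf
  rcases Int.units_eq_one_or (Equiv.Perm.sign π) with h | h
  · rw [h]; simp
  · rw [h]
    have : π ≠ 1 := by
      rintro rfl
      simp at h
    rw [if_neg this, if_neg (by decide)]
    simp

lemma one_eq (π : Equiv.Perm (Fin 3)) : (1 : ℂ) = cf 1 (-1) 1 π := by
  unfold cf
  split_ifs <;> simp

lemma tp_sum (u v w : ℂ) (X : Fin 3 → Matrix (Fin 3) (Fin 3) ℂ) :
    ∑ π, cf u v w π * tp π X = D3 u v w (X 0) (X 1) (X 2) := by
  rw [cf_sum]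
  have e01 : (Equiv.swap (0 : Fin 3) 1) 2 = 2 := by decide
  have e02 : (Equiv.swap (0 : Fin 3) 2) 1 = 1 := by decide
  have e12 : (Equiv.swap (1 : Fin 3) 2) 0 = 0 := by decide
  have f0 : (Equiv.swap (0 : Fin 3) 1 * Equiv.swap (1 : Fin 3) 2 : Equiv.Perm (Fin 3)) 0 = 1 := by decide
  have f1 : (Equiv.swap (0 : Fin 3) 1 * Equiv.swap (1 : Fin 3) 2 : Equiv.Perm (Fin 3)) 1 = 2 := by decide
  have f2 : (Equiv.swap (0 : Fin 3) 1 * Equiv.swap (1 : Fin 3) 2 : Equiv.Perm (Fin 3)) 2 = 0 := by decide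
  have g0 : (Equiv.swap (1 : Fin 3) 2 * Equiv.swap (0 : Fin 3) 1 : Equiv.Perm (Fin 3)) 0 = 2 := by decide
  have g1 : (Equiv.swap (1 : Fin 3) 2 * Equiv.swap (0 : Fin 3) 1 : Equiv.Perm (Fin 3)) 1 = 0 := by decide
  have g2 : (Equiv.swap (1 : Fin 3) 2 * Equiv.swap (0 : Fin 3) 1 : Equiv.Perm (Fin 3)) 2 = 1 := by decide
  simp only [tp, sum3, Fin.prod_univ_three, Equiv.swap_apply_left, Equiv.swap_apply_right,
    e01, e02, e12, f0, f1, f2, g0, g1, g2, Equiv.Perm.coe_one, id_eq,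
    Matrix.cons_val_zero, Matrix.cons_val_one, Matrix.cons_val]
  unfold D3
  simp only [Matrix.trace, Matrix.diag_apply, Matrix.mul_apply, Fin.sum_univ_three]
  ring

lemma D3_swap12 (u v w : ℂ) (X Y Z : Matrix (Fin 3) (Fin 3) ℂ) :
    D3 u v w X Y Z = D3 u v w X Z Y := by
  unfold D3
  rw [Matrix.trace_mul_comm Y Z]
  ring

lemma D3_swap01 (u v w : ℂ) (X Y Z : Matrix (Fin 3) (Fin 3) ℂ) :
    D3 u v w X Y Z = D3 u v w Y X Z := by
  unfold D3
  rw [Matrix.trace_mul_comm X Y, Matrix.trace_mul_cycle X Y Z, Matrix.trace_mul_cycle X Z Y,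
    Matrix.trace_mul_cycle Z X Y]
  rw [Matrix.trace_mul_cycle Y X Z, Matrix.trace_mul_cycle Z Y X]
  ring

lemma D3_sum (u v w : ℂ) (X Y : Matrix (Fin 3) (Fin 3) ℂ) {I : Type} [Fintype I]
    (Z : I → Matrix (Fin 3) (Fin 3) ℂ) :
    ∑ i, D3 u v w X Y (Z i) = D3 u v w X Y (∑ i, Z i) := by
  unfold D3
  simp only [Matrix.mul_sum, Matrix.sum_mul, Matrix.trace_sum, Finset.mul_sum, Finset.sum_mul,
    mul_add, Finset.sum_add_distrib, Finset.sum_sub_distrib]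

lemma D3_one (u v w c : ℂ) (X Y : Matrix (Fin 3) (Fin 3) ℂ) :
    D3 u v w X Y (c • (1 : Matrix (Fin 3) (Fin 3) ℂ)) =
      c * (3 * u * (X.trace * Y.trace) - v * (2 * (X.trace * Y.trace) + 3 * (X * Y).trace) +
        2 * w * (X * Y).trace) := by
  unfold D3
  simp only [Matrix.mul_smul, Matrix.mul_one, Matrix.smul_mul, Matrix.trace_smul, Matrix.trace_one,
    Fintype.card_fin, smul_eq_mul]
  push_cast
  ring

/-- squared norm, and the cubic invariant -/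
noncomputable def NN (A : Fin 3 → Fin 3 → Matrix (Fin 3) (Fin 3) ℂ) : ℂ :=
  ∑ a, ∑ b, (A a b * A b a).trace

/-- the cubic invariant -/
noncomputable def P3 (A : Fin 3 → Fin 3 → Matrix (Fin 3) (Fin 3) ℂ) : ℂ :=
  ∑ a, ∑ b, ∑ c, ((A a b * A b c * A c a).trace + (A a b * A c a * A b c).trace)

/-- doubly stochastic families -/
structure DS (c : ℂ) (A : Fin 3 → Fin 3 → Matrix (Fin 3) (Fin 3) ℂ) : Prop where
  tr : ∀ i k, (A i k).trace = if i = k then c else 0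
  sum : ∑ i, A i i = c • (1 : Matrix (Fin 3) (Fin 3) ℂ)

lemma lin3 (f g h k l m : Fin 3 → Fin 3 → Fin 3 → ℂ) (u v w : ℂ) :
    ∑ a, ∑ b, ∑ d, (u * f a b d - v * (g a b d + h a b d + k a b d) + w * (l a b d + m a b d)) =
      u * (∑ a, ∑ b, ∑ d, f a b d) - v * (∑ a, ∑ b, ∑ d, g a b d + ∑ a, ∑ b, ∑ d, h a b d +
        ∑ a, ∑ b, ∑ d, k a b d) + w * ∑ a, ∑ b, ∑ d, (l a b d + m a b d) := by
  simp only [Finset.sum_add_distrib, Finset.sum_sub_distrib, ← Finset.mul_sum]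

lemma cyc {c : ℂ} {A : Fin 3 → Fin 3 → Matrix (Fin 3) (Fin 3) ℂ} (h : DS c A) (u v w : ℂ) :
    ∑ a, ∑ b, ∑ d, D3 u v w (A a b) (A b d) (A d a) =
      3 * c ^ 3 * u - 3 * v * c * NN A + w * P3 A := by
  unfold D3 NN P3
  simp only [h.tr]
  refine (lin3 _ _ _ _ _ _ u v w).trans ?_
  have e1 : ∑ a : Fin 3, ∑ b : Fin 3, ∑ d : Fin 3, (if a = b then c else 0) *
      (if b = d then c else 0) * (if d = a then c else 0) = 3 * c ^ 3 := by
    simp only [Fin.sum_univ_three]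
    simp
    ring
  have e2 : ∑ a : Fin 3, ∑ b : Fin 3, ∑ d : Fin 3, (if a = b then c else 0) *
      (A b d * A d a).trace = c * ∑ a, ∑ b, (A a b * A b a).trace := by
    simp only [Fin.sum_univ_three]
    simp
    ring
  have e3 : ∑ a : Fin 3, ∑ b : Fin 3, ∑ d : Fin 3, (if b = d then c else 0) *
      (A a b * A d a).trace = c * ∑ a, ∑ b, (A a b * A b a).trace := by
    simp only [Fin.sum_univ_three]
    simp
    ring
  have e4 : ∑ a : Fin 3, ∑ b : Fin 3, ∑ d : Fin 3, (if d = a then c else 0) *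
      (A a b * A b d).trace = c * ∑ a, ∑ b, (A a b * A b a).trace := by
    simp only [Fin.sum_univ_three]
    simp
    ring
  rw [e1, e2, e3, e4]
  ring

lemma two {c : ℂ} {A : Fin 3 → Fin 3 → Matrix (Fin 3) (Fin 3) ℂ} (h : DS c A) (u v w : ℂ) :
    ∑ a, ∑ b, ∑ d, D3 u v w (A a b) (A b a) (A d d) =
      9 * c ^ 3 * u - v * (6 * c ^ 3 + 3 * c * NN A) + 2 * w * c * NN A := by
  have e0 : ∀ a b, ∑ d, D3 u v w (A a b) (A b a) (A d d) =
      D3 u v w (A a b) (A b a) (c • (1 : Matrix (Fin 3) (Fin 3) ℂ)) := by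
    intro a b
    rw [D3_sum, h.sum]
  simp only [e0, D3_one, h.tr]
  unfold NN
  simp only [Finset.sum_add_distrib, Finset.sum_sub_distrib, ← Finset.mul_sum]
  have e1 : ∑ a : Fin 3, ∑ b : Fin 3, (if a = b then c else 0) *
      (if b = a then c else 0) = 3 * c ^ 2 := by
    simp only [Fin.sum_univ_three]
    simp
    ring
  rw [e1]
  ring

lemma three {c : ℂ} {A : Fin 3 → Fin 3 → Matrix (Fin 3) (Fin 3) ℂ} (h : DS c A) (u v w : ℂ) :
    ∑ a, ∑ b, ∑ d, D3 u v w (A a a) (A b b) (A d d) = 27 * c ^ 3 * u - 27 * c ^ 3 * v +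
      6 * c ^ 3 * w := by
  have e0 : ∀ a b, ∑ d, D3 u v w (A a a) (A b b) (A d d) =
      D3 u v w (A a a) (A b b) (c • (1 : Matrix (Fin 3) (Fin 3) ℂ)) := by
    intro a b
    rw [D3_sum, h.sum]
  simp only [e0]
  have e1 : ∀ a, ∑ b, D3 u v w (A a a) (A b b) (c • (1 : Matrix (Fin 3) (Fin 3) ℂ)) =
      D3 u v w (A a a) (c • (1 : Matrix (Fin 3) (Fin 3) ℂ)) (c • (1 : Matrix (Fin 3) (Fin 3) ℂ)) := by
    intro a
    simp only [D3_swap12 u v w _ _ (c • (1 : Matrix (Fin 3) (Fin 3) ℂ))]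
    rw [D3_sum, h.sum]
  have e2 : ∀ a, (A a a).trace = c := fun a => by rw [h.tr, if_pos rfl]
  have e3 : ∀ a, D3 u v w (A a a) (c • (1 : Matrix (Fin 3) (Fin 3) ℂ))
      (c • (1 : Matrix (Fin 3) (Fin 3) ℂ)) =
      c * (3 * u * (c * (c * 3)) - v * (2 * (c * (c * 3)) + 3 * (c * c)) + 2 * w * (c * c)) := by
    intro a
    rw [D3_one, Matrix.mul_smul, Matrix.mul_one, Matrix.trace_smul, Matrix.trace_smul, e2,
      Matrix.trace_one, Fintype.card_fin, smul_eq_mul, smul_eq_mul]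
    push_cast
    ring
  simp only [e1, e3, Finset.sum_const, Finset.card_univ, Fintype.card_fin, nsmul_eq_mul]
  push_cast
  ring

/-- the double alternation -/
noncomputable def MM (q : ℂ) (u v w : ℂ) (A : Fin 3 → Fin 3 → Matrix (Fin 3) (Fin 3) ℂ) : ℂ :=
  ∑ π : Equiv.Perm (Fin 3), cf 1 q 1 π * ∑ x : Fin 3 → Fin 3,
    D3 u v w (A (x 0) (x (π 0))) (A (x 1) (x (π 1))) (A (x 2) (x (π 2)))

lemma MM_eq {c : ℂ} {A : Fin 3 → Fin 3 → Matrix (Fin 3) (Fin 3) ℂ} (h : DS c A) (q u v w : ℂ) :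
    MM q u v w A = (27 * c ^ 3 * u - 27 * c ^ 3 * v + 6 * c ^ 3 * w) -
      3 * q * (9 * c ^ 3 * u - v * (6 * c ^ 3 + 3 * c * NN A) + 2 * w * c * NN A) +
      2 * (3 * c ^ 3 * u - 3 * v * c * NN A + w * P3 A) := by
  unfold MM
  rw [cf_sum]
  have e01 : (Equiv.swap (0 : Fin 3) 1) 2 = 2 := by decide
  have e02 : (Equiv.swap (0 : Fin 3) 2) 1 = 1 := by decide
  have e12 : (Equiv.swap (1 : Fin 3) 2) 0 = 0 := by decide
  have f0 : (Equiv.swap (0 : Fin 3) 1 * Equiv.swap (1 : Fin 3) 2 : Equiv.Perm (Fin 3)) 0 = 1 := by decide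
  have f1 : (Equiv.swap (0 : Fin 3) 1 * Equiv.swap (1 : Fin 3) 2 : Equiv.Perm (Fin 3)) 1 = 2 := by decide
  have f2 : (Equiv.swap (0 : Fin 3) 1 * Equiv.swap (1 : Fin 3) 2 : Equiv.Perm (Fin 3)) 2 = 0 := by decide
  have g0 : (Equiv.swap (1 : Fin 3) 2 * Equiv.swap (0 : Fin 3) 1 : Equiv.Perm (Fin 3)) 0 = 2 := by decide
  have g1 : (Equiv.swap (1 : Fin 3) 2 * Equiv.swap (0 : Fin 3) 1 : Equiv.Perm (Fin 3)) 1 = 0 := by decide
  have g2 : (Equiv.swap (1 : Fin 3) 2 * Equiv.swap (0 : Fin 3) 1 : Equiv.Perm (Fin 3)) 2 = 1 := by decide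
  simp only [sum3, Equiv.swap_apply_left, Equiv.swap_apply_right,
    e01, e02, e12, f0, f1, f2, g0, g1, g2, Equiv.Perm.coe_one, id_eq,
    Matrix.cons_val_zero, Matrix.cons_val_one, Matrix.cons_val]
  have k1 : ∑ a, ∑ b, ∑ d, D3 u v w (A a d) (A b b) (A d a) =
      ∑ a, ∑ b, ∑ d, D3 u v w (A a b) (A b a) (A d d) := by
    refine Finset.sum_congr rfl fun a _ => ?_
    rw [Finset.sum_comm]
    refine Finset.sum_congr rfl fun b _ => Finset.sum_congr rfl fun d _ => ?_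
    rw [D3_swap12]
  have k2 : ∑ a, ∑ b, ∑ d, D3 u v w (A a a) (A b d) (A d b) =
      ∑ a, ∑ b, ∑ d, D3 u v w (A a b) (A b a) (A d d) := by
    rw [Finset.sum_comm]
    refine Finset.sum_congr rfl fun a _ => ?_
    rw [Finset.sum_comm]
    refine Finset.sum_congr rfl fun b _ => Finset.sum_congr rfl fun d _ => ?_
    rw [D3_swap01, D3_swap12]
  have k3 : ∑ a, ∑ b, ∑ d, D3 u v w (A a d) (A b a) (A d b) =
      ∑ a, ∑ b, ∑ d, D3 u v w (A a b) (A b d) (A d a) := by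
    refine Finset.sum_congr rfl fun a _ => ?_
    rw [Finset.sum_comm]
    refine Finset.sum_congr rfl fun b _ => Finset.sum_congr rfl fun d _ => ?_
    rw [D3_swap12]
  rw [k1, k2, k3, cyc h, two h, three h]
  ring

/-- the key identity -/
lemma MM_key {c : ℂ} {A : Fin 3 → Fin 3 → Matrix (Fin 3) (Fin 3) ℂ} (h : DS c A) :
    5 * MM 1 1 1 1 A = MM (-1) 2 3 5 A := by
  rw [MM_eq h, MM_eq h]
  ring

end Pool.Agent.T9h14.GP
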